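import Mathlib

/-!
NCP (noncommutative identity testing), algebra of one polynomial variable:
the residue lemma and the minor lemma.
-/

namespace Pool.Agent.NCP

open Polynomial

variable {K : Type*} [Field K] [CharZero K]

/-- If the Wronskian of `α` and `b` vanishes then `b` is a constant multiple of `α`. -/
theorem const_of_wronskian (α b : K[X]) (hα : α ≠ 0)
    (h : α * derivative b = derivative α * b) : ∃ c : K, b = C c * α := by
  -- nonzero solutions have the degree of `α`
  have hdeg : ∀ p : K[X], p ≠ 0 → α * derivative p = derivative α * p →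
      p.natDegree = α.natDegree := by
    intro p hp hpe
    have h1 : (α * derivative p).coeff (α.natDegree + p.natDegree - 1) =
        (derivative α * p).coeff (α.natDegree + p.natDegree - 1) := by rw [hpe]
    by_cases hp0 : p.natDegree = 0
    · by_contra hne
      have ha0 : α.natDegree ≠ 0 := fun h0 => hne (by rw [hp0, h0])
      have hdp : derivative p = 0 := by
        rw [natDegree_eq_zero] at hp0
        obtain ⟨c, rfl⟩ := hp0
        simp
      rw [hdp, mul_zero] at hpe
      have hda : derivative α = 0 := by
        rcases mul_eq_zero.1 hpe.symm with h2 | h2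
        · exact h2
        · exact absurd h2 hp
      exact ha0 (derivative_eq_zero.1 hda)
    · by_cases ha0 : α.natDegree = 0
      · exfalso
        have hda : derivative α = 0 := by
          rw [natDegree_eq_zero] at ha0
          obtain ⟨c, rfl⟩ := ha0
          simp
        rw [hda, zero_mul] at hpe
        have hdp : derivative p = 0 := by
          rcases mul_eq_zero.1 hpe with h2 | h2
          · exact absurd h2 hα
          · exact h2
        exact hp0 (derivative_eq_zero.1 hdp)
      · have e1 : α.natDegree + p.natDegree - 1 = α.natDegree + (p.natDegree - 1) := by omega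
        have e2 : α.natDegree + p.natDegree - 1 = (α.natDegree - 1) + p.natDegree := by omega
        have h2 : (α * derivative p).coeff (α.natDegree + (p.natDegree - 1)) =
            α.leadingCoeff * (p.leadingCoeff * p.natDegree) := by
          rw [coeff_mul_add_eq_of_natDegree_le (le_refl _) (natDegree_derivative_le p)]
          rw [coeff_derivative]
          have : p.natDegree - 1 + 1 = p.natDegree := by omega
          rw [this]
          have h3 : ((p.natDegree - 1 : ℕ) : K) + 1 = (p.natDegree : K) := by
            have := congrArg (Nat.cast : ℕ → K) this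
            push_cast at this
            exact this
          rw [h3]
          rfl
        have h4 : (derivative α * p).coeff ((α.natDegree - 1) + p.natDegree) =
            (α.leadingCoeff * α.natDegree) * p.leadingCoeff := by
          rw [coeff_mul_add_eq_of_natDegree_le (natDegree_derivative_le α) (le_refl _)]
          rw [coeff_derivative]
          have : α.natDegree - 1 + 1 = α.natDegree := by omega
          rw [this]
          have h3 : ((α.natDegree - 1 : ℕ) : K) + 1 = (α.natDegree : K) := by
            have := congrArg (Nat.cast : ℕ → K) this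
            push_cast at this
            exact this
          rw [h3]
          rfl
        rw [← e1, hpe, e2, h4] at h2
        have la : α.leadingCoeff ≠ 0 := leadingCoeff_ne_zero.2 hα
        have lp : p.leadingCoeff ≠ 0 := leadingCoeff_ne_zero.2 hp
        have h5 : (α.natDegree : K) = (p.natDegree : K) := by
          have h6 : α.leadingCoeff * p.leadingCoeff * ((α.natDegree : K) - p.natDegree) = 0 := by
            linear_combination h2
          rcases mul_eq_zero.1 h6 with h7 | h7
          · exact absurd h7 (mul_ne_zero la lp)
          · exact sub_eq_zero.1 h7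
        exact (Nat.cast_injective h5).symm
  by_cases hb : b = 0
  · exact ⟨0, by simp [hb]⟩
  have hd := hdeg b hb h
  refine ⟨b.leadingCoeff / α.leadingCoeff, ?_⟩
  by_contra hne
  set c : K := b.leadingCoeff / α.leadingCoeff with hc
  have hsub : b - C c * α ≠ 0 := sub_ne_zero.2 hne
  have heq : α * derivative (b - C c * α) = derivative α * (b - C c * α) := by
    rw [derivative_sub, derivative_C_mul, mul_sub, h]
    ring
  have hd2 := hdeg _ hsub heq
  have la : α.leadingCoeff ≠ 0 := leadingCoeff_ne_zero.2 hα
  have hcoef : (b - C c * α).coeff α.natDegree = 0 := by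
    rw [coeff_sub, coeff_C_mul]
    have h8 : b.coeff α.natDegree = b.leadingCoeff := by rw [← hd]; rfl
    rw [h8]
    have h9 : α.coeff α.natDegree = α.leadingCoeff := rfl
    rw [h9, hc, div_mul_cancel₀ _ la, sub_self]
  rw [← hd2] at hcoef
  exact hsub (leadingCoeff_eq_zero.1 hcoef)

/-- Splitting off the multiplicity at a point. -/
theorem split_root (p : K[X]) (hp : p ≠ 0) (a : K) :
    ∃ (k : ℕ) (q : K[X]), p = (X - C a) ^ k * q ∧ q.eval a ≠ 0 := by
  obtain ⟨q, hq, hqd⟩ := exists_eq_pow_rootMultiplicity_mul_and_not_dvd p hp a
  exact ⟨_, q, hq, fun h => hqd (dvd_iff_isRoot.2 h)⟩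

/-- The derivative of a quotient has no simple pole. -/
theorem residue (a : K) (P P0 α β G : K[X]) (hP : P = (X - C a) * P0) (hP0 : P0.eval a ≠ 0)
    (hα : α ≠ 0) (hG : G.eval a ≠ 0) :
    P * (α * derivative β - derivative α * β) + α ^ 2 * G ≠ 0 := by
  intro h
  obtain ⟨k, α0, hα0, hα1⟩ := split_root α hα a
  by_cases hβ : β = 0
  · rw [hβ] at h
    simp only [derivative_zero, mul_zero, sub_zero, zero_add] at h
    rcases mul_eq_zero.1 h with h1 | h1
    · exact hα (pow_eq_zero_iff (two_ne_zero)|>.1 h1)
    · rw [h1] at hG
      simp at hG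
  obtain ⟨l, β0, hβ0, hβ1⟩ := split_root β hβ a
  have hpow : ∀ j : ℕ, (X - C a) * derivative ((X - C a) ^ j : K[X]) =
      C (j : K) * (X - C a) ^ j := by
    intro j
    rcases Nat.eq_zero_or_pos j with hj | hj
    · subst hj; simp
    · rw [derivative_pow]
      obtain ⟨i, rfl⟩ : ∃ i, j = i + 1 := ⟨j - 1, by omega⟩
      simp only [Nat.add_sub_cancel, derivative_sub, derivative_X, derivative_C, sub_zero,
        mul_one]
      rw [pow_succ]
      ring
  have hX : (X - C a : K[X]) ≠ 0 := X_sub_C_ne_zero a
  -- the first term
  have hA : P * (α * derivative β - derivative α * β) =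
      (X - C a) ^ (k + l) * (P0 * (C ((l : K) - k) * (α0 * β0) +
        (X - C a) * (α0 * derivative β0 - derivative α0 * β0))) := by
    have e1 : (X - C a) * derivative β = C (l : K) * (X - C a) ^ l * β0 +
        (X - C a) * ((X - C a) ^ l * derivative β0) := by
      rw [hβ0, derivative_mul, mul_add, ← mul_assoc, hpow l]
    have e2 : (X - C a) * derivative α = C (k : K) * (X - C a) ^ k * α0 +
        (X - C a) * ((X - C a) ^ k * derivative α0) := by
      rw [hα0, derivative_mul, mul_add, ← mul_assoc, hpow k]
    have e3 : P * (α * derivative β - derivative α * β) =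
        P0 * (α * ((X - C a) * derivative β) - ((X - C a) * derivative α) * β) := by
      rw [hP]; ring
    rw [e3, e1, e2]
    nth_rewrite 1 [hα0]
    nth_rewrite 1 [hβ0]
    rw [C_sub, pow_add]
    ring
  have hB : α ^ 2 * G = (X - C a) ^ (k + k) * (α0 ^ 2 * G) := by
    rw [hα0, pow_add]; ring
  rw [hA, hB] at h
  rcases lt_trichotomy l k with hlk | hlk | hlk
  · -- l < k
    obtain ⟨d, rfl⟩ : ∃ d, k = l + (d + 1) := ⟨k - l - 1, by omega⟩
    have h2 : (X - C a) ^ (l + (d + 1) + l) * ((P0 * (C ((l : K) - (l + (d + 1) : ℕ)) * (α0 * β0) +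
        (X - C a) * (α0 * derivative β0 - derivative α0 * β0))) +
          (X - C a) ^ (d + 1) * (α0 ^ 2 * G)) = 0 := by
      rw [← h]
      ring
    rcases mul_eq_zero.1 h2 with h3 | h3
    · exact hX (pow_eq_zero_iff (by omega) |>.1 h3)
    · have h4 := congrArg (eval a) h3
      simp only [eval_add, eval_mul, eval_pow, eval_sub, eval_X, eval_C, sub_self, zero_mul,
        add_zero, eval_zero, zero_pow (Nat.succ_ne_zero d)] at h4
      rcases mul_eq_zero.1 h4 with h5 | h5
      · exact hP0 h5
      · rcases mul_eq_zero.1 h5 with h6 | h6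
        · have h7 : (l : K) = ((l + (d + 1) : ℕ) : K) := sub_eq_zero.1 h6
          have h8 := Nat.cast_injective h7
          omega
        · exact mul_ne_zero hα1 hβ1 h6
  · -- l = k
    subst hlk
    have h2 : (X - C a) ^ (l + l) * ((P0 * (C ((l : K) - l) * (α0 * β0) +
        (X - C a) * (α0 * derivative β0 - derivative α0 * β0))) + α0 ^ 2 * G) = 0 := by
      rw [← h]; ring
    rcases mul_eq_zero.1 h2 with h3 | h3
    · by_cases hl : l + l = 0
      · rw [hl] at h3; simp at h3
      · exact hX (pow_eq_zero_iff hl |>.1 h3)
    · have h4 := congrArg (eval a) h3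
      simp only [eval_add, eval_mul, eval_pow, eval_sub, eval_X, eval_C, sub_self, zero_mul,
        mul_zero, add_zero, zero_add, eval_zero] at h4
      exact mul_ne_zero (pow_ne_zero 2 hα1) hG h4
  · -- k < l
    obtain ⟨d, rfl⟩ : ∃ d, l = k + (d + 1) := ⟨l - k - 1, by omega⟩
    have h2 : (X - C a) ^ (k + k) * ((X - C a) ^ (d + 1) *
        ((P0 * (C (((k + (d + 1) : ℕ) : K) - k) * (α0 * β0) +
        (X - C a) * (α0 * derivative β0 - derivative α0 * β0)))) + (α0 ^ 2 * G)) = 0 := by
      rw [← h]
      ring
    rcases mul_eq_zero.1 h2 with h3 | h3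
    · by_cases hl : k + k = 0
      · rw [hl] at h3; simp at h3
      · exact hX (pow_eq_zero_iff hl |>.1 h3)
    · have h4 := congrArg (eval a) h3
      simp only [eval_add, eval_mul, eval_pow, eval_sub, eval_X, eval_C, sub_self, zero_mul,
        zero_add, eval_zero, zero_pow (Nat.succ_ne_zero d)] at h4
      exact mul_ne_zero (pow_ne_zero 2 hα1) hG h4

/-- Linearly independent rows have a non-zero maximal minor. -/
theorem exists_minor {R : Type*} [CommRing R] [IsDomain R] {ι : Type*} :
    ∀ (r : ℕ) (A : Fin r → ι → R), LinearIndependent R A →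
      ∃ J : Fin r → ι, (Matrix.of fun k j => A k (J j)).det ≠ 0 := by
  intro r
  induction r with
  | zero =>
    intro A _
    exact ⟨Fin.elim0, by simp⟩
  | succ r ih =>
    intro A hA
    obtain ⟨J, hJ⟩ := ih (fun k => A k.castSucc) (hA.comp _ (Fin.castSucc_injective r))
    by_contra hcon
    push Not at hcon
    -- the coefficients of the Laplace expansion
    set c : Fin (r + 1) → R := fun i => (-1) ^ ((i : ℕ) + (Fin.last r : ℕ)) *
      (Matrix.of fun (k j : Fin r) => A (i.succAbove k) (J j)).det with hc
    have h1 : ∀ x : ι, ∑ i, c i * A i x = 0 := by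
      intro x
      have h2 := hcon (Fin.snoc J x)
      rw [Matrix.det_succ_column _ (Fin.last r)] at h2
      rw [← h2]
      refine Finset.sum_congr rfl fun i _ => ?_
      have e1 : ((Matrix.of fun k j => A k ((Fin.snoc J x : Fin (r + 1) → ι) j)).submatrix
          i.succAbove (Fin.last r).succAbove) =
          (Matrix.of fun (k j : Fin r) => A (i.succAbove k) (J j)) := by
        ext k j
        simp [Matrix.submatrix_apply, Fin.succAbove_last]
      rw [e1]
      simp only [Matrix.of_apply, Fin.snoc_last, hc]
      ring
    have h3 : ∑ i, c i • A i = 0 := by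
      funext x
      rw [Finset.sum_apply]
      simpa [Pi.smul_apply, smul_eq_mul] using h1 x
    have h4 := (Fintype.linearIndependent_iff.1 hA) c h3 (Fin.last r)
    apply hJ
    have h5 : c (Fin.last r) = (-1) ^ ((Fin.last r : ℕ) + (Fin.last r : ℕ)) *
        (Matrix.of fun (k j : Fin r) => A k.castSucc (J j)).det := by
      simp only [hc]
      congr 2
      ext k j
      simp [Fin.succAbove_last]
    rw [h5] at h4
    rcases mul_eq_zero.1 h4 with h6 | h6
    · exact absurd h6 (pow_ne_zero _ (neg_ne_zero.2 one_ne_zero))
    · exact h6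

end Pool.Agent.NCP
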