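import Mathlib
import Pool.Agent.NCP.Res

/-!
NCP: finitely supported functions on words, left quotients, the operator `DD`,
hyperlogarithms `LL w` and the evaluation `ev`.
-/

namespace Pool.Agent.NCP

open Polynomial

section

variable {K : Type*} [Field K] {n : ℕ}

/-- The number `i + 1`. -/
noncomputable def bb (K : Type*) [Field K] {n : ℕ} (i : Fin n) : K := ((i : ℕ) : K) + 1

/-- `P = ∏ (1 - b_i X)`. -/
noncomputable def PP (K : Type*) [Field K] (n : ℕ) : K[X] :=
  ∏ i : Fin n, (1 - C (bb K i) * X)

/-- `G_i = b_i ∏_{j ≠ i} (1 - b_j X)`. -/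
noncomputable def GG (K : Type*) [Field K] {n : ℕ} (i : Fin n) : K[X] :=
  C (bb K i) * ∏ j ∈ Finset.univ.erase i, (1 - C (bb K j) * X)

theorem PP_eq (i : Fin n) :
    PP K n = (1 - C (bb K i) * X) * ∏ j ∈ Finset.univ.erase i, (1 - C (bb K j) * X) :=
  (Finset.mul_prod_erase Finset.univ (fun j => (1 - C (bb K j) * X : K[X]))
    (Finset.mem_univ i)).symm

/-- Left quotient: `(qt i r) w = r (i :: w)`. -/
noncomputable def qt {R : Type*} [Semiring R] (i : Fin n) :
    (List (Fin n) →₀ R) →ₗ[R] (List (Fin n) →₀ R) :=
  Finsupp.lcomapDomain (List.cons i) (fun _ _ h => (List.cons_injective h))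

@[simp] theorem qt_apply {R : Type*} [Semiring R] (i : Fin n) (r : List (Fin n) →₀ R)
    (w : List (Fin n)) : qt i r w = r (i :: w) := rfl

theorem qt_single_nil {R : Type*} [Semiring R] (i : Fin n) (c : R) :
    qt i (Finsupp.single [] c) = 0 := by
  ext w
  simp [Finsupp.single_apply]

theorem qt_single_cons {R : Type*} [Semiring R] (i j : Fin n) (w : List (Fin n)) (c : R) :
    qt i (Finsupp.single (j :: w) c) = if i = j then Finsupp.single w c else 0 := by
  ext v
  by_cases h : i = j
  · subst h
    by_cases hv : w = v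
    · subst hv; simp
    · simp [Finsupp.single_apply, hv]
  · have : j ≠ i := fun h' => h h'.symm
    simp [Finsupp.single_apply, h, this]

/-- Coefficientwise derivative. -/
noncomputable def dX : (List (Fin n) →₀ K[X]) →ₗ[K] (List (Fin n) →₀ K[X]) :=
  Finsupp.mapRange.linearMap Polynomial.derivative

@[simp] theorem dX_apply (r : List (Fin n) →₀ K[X]) (w : List (Fin n)) :
    dX r w = derivative (r w) := by
  simp [dX]

/-- The operator `D = P d/dX + ∑ G_i δ_i`. -/
noncomputable def DD (r : List (Fin n) →₀ K[X]) : List (Fin n) →₀ K[X] :=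
  PP K n • dX r + ∑ i, GG K i • qt i r

theorem DD_apply (r : List (Fin n) →₀ K[X]) (w : List (Fin n)) :
    DD r w = PP K n * derivative (r w) + ∑ i, GG K i * r (i :: w) := by
  simp [DD, Finsupp.add_apply, Finsupp.smul_apply, Finsupp.finsetSum_apply]

theorem DD_add (r r' : List (Fin n) →₀ K[X]) : DD (r + r') = DD r + DD r' := by
  ext1 w
  simp only [DD_apply, Finsupp.add_apply, derivative_add, mul_add, Finset.sum_add_distrib]
  ring

theorem DD_zero : DD (0 : List (Fin n) →₀ K[X]) = 0 := by
  ext1 w
  simp [DD_apply]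

theorem DD_smul (q : K[X]) (r : List (Fin n) →₀ K[X]) :
    DD (q • r) = (PP K n * derivative q) • r + q • DD r := by
  ext1 w
  simp only [DD_apply, Finsupp.add_apply, Finsupp.smul_apply, smul_eq_mul, derivative_mul,
    mul_add, Finset.mul_sum]
  have : ∀ i, GG K i * (q * r (i :: w)) = q * (GG K i * r (i :: w)) := fun i => by ring
  simp only [this]
  ring

theorem DD_sum {ι : Type*} (s : Finset ι) (f : ι → List (Fin n) →₀ K[X]) :
    DD (∑ i ∈ s, f i) = ∑ i ∈ s, DD (f i) := by
  classical
  induction s using Finset.induction_on with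
  | empty => simp [DD_zero]
  | insert a s ha ih => rw [Finset.sum_insert ha, Finset.sum_insert ha, DD_add, ih]

/-- Coefficients of the hyperlogarithms. -/
noncomputable def Lc (K : Type*) [Field K] {n : ℕ} : List (Fin n) → ℕ → K
  | [] => fun m => if m = 0 then 1 else 0
  | i :: w => fun m => (∑ l ∈ Finset.range m, bb K i ^ (m - l) * Lc K w l) / m

/-- The hyperlogarithm of a word. -/
noncomputable def LL (K : Type*) [Field K] {n : ℕ} (w : List (Fin n)) : PowerSeries K :=
  PowerSeries.mk (Lc K w)

theorem LL_nil : LL K ([] : List (Fin n)) = 1 := by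
  ext m
  rw [LL, PowerSeries.coeff_mk, PowerSeries.coeff_one]
  rfl

theorem LL_deriv [CharZero K] (i : Fin n) (w : List (Fin n)) :
    (1 - PowerSeries.C (bb K i) * PowerSeries.X) * PowerSeries.derivative K (LL K (i :: w)) =
      PowerSeries.C (bb K i) * LL K w := by
  have hm : ∀ m : ℕ, PowerSeries.coeff m (PowerSeries.derivative K (LL K (i :: w))) =
      ∑ l ∈ Finset.range (m + 1), bb K i ^ (m + 1 - l) * Lc K w l := by
    intro m
    rw [PowerSeries.coeff_derivative, LL, PowerSeries.coeff_mk, Lc]
    have : ((m + 1 : ℕ) : K) ≠ 0 := Nat.cast_ne_zero.2 (Nat.succ_ne_zero m)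
    push_cast
    push_cast at this
    rw [div_mul_cancel₀ _ this]
  ext m
  rw [sub_mul, one_mul, map_sub, mul_assoc, PowerSeries.coeff_C_mul, PowerSeries.coeff_C_mul]
  rcases Nat.eq_zero_or_pos m with h0 | h0
  · subst h0
    rw [hm 0, show PowerSeries.coeff 0 (LL K w) = Lc K w 0 from PowerSeries.coeff_mk _ _]
    simp
  · obtain ⟨k, rfl⟩ : ∃ k, m = k + 1 := ⟨m - 1, by omega⟩
    rw [PowerSeries.coeff_succ_X_mul, hm (k + 1), hm k,
      show PowerSeries.coeff (k + 1) (LL K w) = Lc K w (k + 1) from PowerSeries.coeff_mk _ _,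
      Finset.sum_range_succ]
    have : ∑ l ∈ Finset.range (k + 1), bb K i ^ (k + 1 + 1 - l) * Lc K w l =
        bb K i * ∑ l ∈ Finset.range (k + 1), bb K i ^ (k + 1 - l) * Lc K w l := by
      rw [Finset.mul_sum]
      refine Finset.sum_congr rfl fun l hl => ?_
      have hl' : l < k + 1 := Finset.mem_range.1 hl
      have : k + 1 + 1 - l = (k + 1 - l) + 1 := by omega
      rw [this, pow_succ]
      ring
    rw [this]
    have h2 : k + 1 + 1 - (k + 1) = 1 := by omega
    rw [h2]
    ring

theorem LL_PG [CharZero K] (i : Fin n) (w : List (Fin n)) :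
    ((PP K n : K[X]) : PowerSeries K) * PowerSeries.derivative K (LL K (i :: w)) =
      ((GG K i : K[X]) : PowerSeries K) * LL K w := by
  rw [PP_eq i, GG, Polynomial.coe_mul, Polynomial.coe_mul]
  have h := LL_deriv (K := K) i w
  have e1 : ((1 - C (bb K i) * X : K[X]) : PowerSeries K) =
      1 - PowerSeries.C (bb K i) * PowerSeries.X := by
    rw [Polynomial.coe_sub, Polynomial.coe_mul, Polynomial.coe_one, Polynomial.coe_C,
      Polynomial.coe_X]
  have e2 : ((C (bb K i) : K[X]) : PowerSeries K) = PowerSeries.C (bb K i) := Polynomial.coe_C _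
  rw [e1, e2]
  calc _ = ((∏ j ∈ Finset.univ.erase i, (1 - C (bb K j) * X) : K[X]) : PowerSeries K) *
        ((1 - PowerSeries.C (bb K i) * PowerSeries.X) *
          PowerSeries.derivative K (LL K (i :: w))) := by ring
    _ = _ := by rw [h]; ring

/-- The evaluation `∑ r_w L_w`. -/
noncomputable def ev : (List (Fin n) →₀ K[X]) →ₗ[K[X]] PowerSeries K :=
  Finsupp.linearCombination K[X] (LL K)

theorem ev_single (w : List (Fin n)) (p : K[X]) :
    ev (Finsupp.single w p) = (p : PowerSeries K) * LL K w := by
  rw [ev, Finsupp.linearCombination_single, Algebra.smul_def]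
  rfl

theorem smul_eq (p : K[X]) (f : PowerSeries K) : p • f = (p : PowerSeries K) * f := by
  rw [Algebra.smul_def]
  rfl

theorem ev_DD [CharZero K] (r : List (Fin n) →₀ K[X]) :
    ev (DD r) = (PP K n : PowerSeries K) * PowerSeries.derivative K (ev r) := by
  induction r using Finsupp.induction_linear with
  | zero => simp [DD_zero]
  | add f g hf hg => rw [DD_add, map_add, hf, hg, map_add, map_add, mul_add]
  | single w p =>
    rw [DD, map_add, map_smul, map_sum, ev_single, Derivation.leibniz, smul_eq]
    have e1 : dX (Finsupp.single w p) = Finsupp.single w (derivative p) := by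
      ext1 v
      rw [dX_apply]
      by_cases h : w = v
      · subst h; simp
      · simp [Finsupp.single_apply, h]
    rw [e1, ev_single, PowerSeries.derivative_coe]
    cases w with
    | nil =>
      have e2 : ∀ i : Fin n, ev (GG K i • qt i (Finsupp.single [] p)) = (0 : PowerSeries K) := by
        intro i
        rw [qt_single_nil, smul_zero, map_zero]
      rw [Finset.sum_congr rfl fun i _ => e2 i, LL_nil]
      simp
    | cons j v =>
      have e2 : ∀ i : Fin n, ev (GG K i • qt i (Finsupp.single (j :: v) p)) =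
          if i = j then (GG K i : PowerSeries K) * ((p : PowerSeries K) * LL K v) else 0 := by
        intro i
        rw [qt_single_cons]
        split_ifs with h
        · rw [map_smul, smul_eq, ev_single]
        · rw [smul_zero, map_zero]
      rw [Finset.sum_congr rfl fun i _ => e2 i, Finset.sum_ite_eq' Finset.univ j]
      simp only [Finset.mem_univ, if_true, smul_eq_mul]
      have h := LL_PG (K := K) j v
      calc _ = (PP K n : PowerSeries K) * ((derivative p : K[X]) * LL K (j :: v)) +
            (p : PowerSeries K) * ((GG K j : PowerSeries K) * LL K v) := by ring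
        _ = _ := by rw [← h]; ring

end

end Pool.Agent.NCP
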