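import Mathlib
import Pool.Agent.NCP.Word

/-!
NCP: a nonzero saturated `DD`-stable submodule contains the constant word.
-/

namespace Pool.Agent.NCP

open Polynomial

variable {K : Type*} [Field K] [CharZero K] {n : ℕ}

theorem bb_ne (i : Fin n) : bb K i ≠ 0 := by
  have h : ((i : ℕ) : K) + 1 = (((i : ℕ) + 1 : ℕ) : K) := by push_cast; ring
  rw [bb, h]
  exact Nat.cast_ne_zero.2 (Nat.succ_ne_zero _)

theorem bb_inj {i j : Fin n} (h : bb K i = bb K j) : i = j := by
  have h1 : ((i : ℕ) : K) = ((j : ℕ) : K) := by
    simpa [bb] using h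
  exact Fin.ext (Nat.cast_injective h1)

/-- `P` has a simple zero at `1 / b_i`. -/
theorem PP_split (i : Fin n) : ∃ P0 : K[X], PP K n = (X - C (bb K i)⁻¹) * P0 ∧
    P0.eval (bb K i)⁻¹ ≠ 0 := by
  refine ⟨-C (bb K i) * ∏ j ∈ Finset.univ.erase i, (1 - C (bb K j) * X), ?_, ?_⟩
  · rw [PP_eq i, ← mul_assoc]
    congr 1
    have : C (bb K i)⁻¹ * C (bb K i) = (1 : K[X]) := by
      rw [← C_mul, inv_mul_cancel₀ (bb_ne i), C_1]
    linear_combination -this
  · rw [eval_mul, eval_neg, eval_C, eval_prod]
    refine mul_ne_zero (neg_ne_zero.2 (bb_ne i)) (Finset.prod_ne_zero_iff.2 fun j hj => ?_)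
    have hji : j ≠ i := (Finset.mem_erase.1 hj).1
    simp only [eval_sub, eval_one, eval_mul, eval_C, eval_X]
    intro h
    have h2 : bb K j = bb K i := by
      have h3 := bb_ne (K := K) i
      field_simp at h
      linear_combination -h
    exact hji (bb_inj h2)

theorem GG_eval_ne (i j : Fin n) (h : j ≠ i) : (GG K j).eval (bb K i)⁻¹ = 0 := by
  rw [GG, eval_mul, eval_prod]
  have : ∏ k ∈ Finset.univ.erase j, eval (bb K i)⁻¹ (1 - C (bb K k) * X) = 0 := by
    refine Finset.prod_eq_zero (Finset.mem_erase.2 ⟨fun h' => h h'.symm, Finset.mem_univ i⟩) ?_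
    simp [bb_ne]
  rw [this, mul_zero]

theorem GG_eval (i : Fin n) : (GG K i).eval (bb K i)⁻¹ ≠ 0 := by
  rw [GG, eval_mul, eval_C, eval_prod]
  refine mul_ne_zero (bb_ne i) (Finset.prod_ne_zero_iff.2 fun j hj => ?_)
  have hji : j ≠ i := (Finset.mem_erase.1 hj).1
  simp only [eval_sub, eval_one, eval_mul, eval_C, eval_X]
  intro h
  have h2 : bb K j = bb K i := by
    have h3 := bb_ne (K := K) i
    field_simp at h
    linear_combination -h
  exact hji (bb_inj h2)

theorem PP_ne : PP K n ≠ 0 := by
  rw [PP]
  refine Finset.prod_ne_zero_iff.2 fun j _ h => ?_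
  have := congrArg (eval 0) h
  simp at this

/-- The contradiction at the bottom of the minimal element argument. -/
theorem no_top (N : ℕ) (r : List (Fin n) →₀ K[X]) (i0 : Fin n) (ν : List (Fin n))
    (hν : ν.length = N) (hr : ∀ w, N + 1 < w.length → r w = 0) (hα : r (i0 :: ν) ≠ 0)
    (h0 : r (i0 :: ν) • DD r - (PP K n * derivative (r (i0 :: ν))) • r = 0) : False := by
  set α := r (i0 :: ν) with hαd
  have hw : ∀ w, α * DD r w - (PP K n * derivative α) * r w = 0 := by
    intro w
    have := DFunLike.congr_fun h0 w
    simpa [Finsupp.sub_apply, Finsupp.smul_apply] using this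
  -- the coefficients of the words `i :: ν`
  have hc : ∀ i : Fin n, ∃ c : K, r (i :: ν) = C c * α := by
    intro i
    have h1 := hw (i :: ν)
    rw [DD_apply] at h1
    have h2 : ∑ j, GG K j * r (j :: i :: ν) = 0 :=
      Finset.sum_eq_zero fun j _ => by
        rw [hr (j :: i :: ν) (by simp [hν]), mul_zero]
    rw [h2, add_zero] at h1
    refine const_of_wronskian α _ hα ?_
    have h3 : PP K n * (α * derivative (r (i :: ν)) - derivative α * r (i :: ν)) = 0 := by
      linear_combination h1
    rcases mul_eq_zero.1 h3 with h4 | h4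
    · exact absurd h4 PP_ne
    · exact sub_eq_zero.1 h4
  choose c hc using hc
  have hc0 : c i0 = 1 := by
    have h1 := hc i0
    rw [← hαd] at h1
    have h2 : (C (c i0) - 1) * α = 0 := by linear_combination -h1
    rcases mul_eq_zero.1 h2 with h3 | h3
    · have h4 : C (c i0) = C (1 : K) := by rw [C_1]; exact sub_eq_zero.1 h3
      exact C_injective h4
    · exact absurd h3 hα
  have h1 := hw ν
  rw [DD_apply] at h1
  have h2 : ∑ i, GG K i * r (i :: ν) = α * ∑ i, C (c i) * GG K i := by
    rw [Finset.mul_sum]
    refine Finset.sum_congr rfl fun i _ => ?_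
    rw [hc i]; ring
  rw [h2] at h1
  obtain ⟨P0, hP, hP0⟩ := PP_split (K := K) i0
  refine residue (bb K i0)⁻¹ (PP K n) P0 α (r ν) (∑ i, C (c i) * GG K i) hP hP0 hα ?_ ?_
  · rw [eval_finsetSum, Finset.sum_eq_single i0]
    · rw [eval_mul, eval_C, hc0, one_mul]
      exact GG_eval i0
    · intro j _ hj
      rw [eval_mul, GG_eval_ne i0 j hj, mul_zero]
    · intro h; exact absurd (Finset.mem_univ _) h
  · linear_combination h1

theorem key_aux (N : Submodule K[X] (List (Fin n) →₀ K[X])) (hD : ∀ r ∈ N, DD r ∈ N) :
    ∀ (m N0 : ℕ) (r : List (Fin n) →₀ K[X]), r ∈ N → r ≠ 0 →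
      (∀ w, m < w.length → r w = 0) →
      ((r.support.filter fun w => w.length = m).card ≤ N0) →
      ∃ q : K[X], q ≠ 0 ∧ Finsupp.single ([] : List (Fin n)) q ∈ N := by
  intro m
  induction m with
  | zero =>
    intro N0 r hr hr0 hlen _
    have h1 : r = Finsupp.single [] (r []) := by
      ext1 w
      by_cases hw : w = []
      · subst hw; simp
      · have : 0 < w.length := List.length_pos_iff.2 hw
        rw [hlen w this, Finsupp.single_apply, if_neg (fun h => hw h.symm)]
    refine ⟨r [], fun h => hr0 ?_, h1 ▸ hr⟩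
    rw [h1, h, Finsupp.single_zero]
  | succ m ihm =>
    intro N0
    induction N0 with
    | zero =>
      intro r hr hr0 hlen hcard
      refine ihm _ r hr hr0 (fun w hw => ?_) le_rfl
      by_contra hne
      rcases Nat.lt_or_ge (m + 1) w.length with h1 | h1
      · exact hne (hlen w h1)
      · have h2 : w ∈ r.support.filter fun w => w.length = m + 1 := by
          rw [Finset.mem_filter]
          exact ⟨Finsupp.mem_support_iff.2 hne, by omega⟩
        have h3 := Finset.card_pos.2 ⟨w, h2⟩
        omega
    | succ N0 ihN =>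
      intro r hr hr0 hlen hcard
      by_cases hex : ∃ w, w.length = m + 1 ∧ r w ≠ 0
      · obtain ⟨w0, hw0, hr1⟩ := hex
        obtain ⟨i0, ν, rfl⟩ : ∃ i ν, w0 = i :: ν := by
          cases w0 with
          | nil => simp at hw0
          | cons i ν => exact ⟨i, ν, rfl⟩
        have hν : ν.length = m := by simpa using hw0
        set rs : List (Fin n) →₀ K[X] := r (i0 :: ν) • DD r -
          (PP K n * derivative (r (i0 :: ν))) • r with hrs
        have hrsN : rs ∈ N := N.sub_mem (N.smul_mem _ (hD r hr)) (N.smul_mem _ hr)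
        by_cases h0 : rs = 0
        · exact (no_top m r i0 ν hν hlen hr1 h0).elim
        · have hval : ∀ w, m + 1 ≤ w.length → rs w =
              PP K n * (r (i0 :: ν) * derivative (r w) - derivative (r (i0 :: ν)) * r w) := by
            intro w hw
            rw [hrs, Finsupp.sub_apply, Finsupp.smul_apply, Finsupp.smul_apply, smul_eq_mul,
              smul_eq_mul, DD_apply]
            have h2 : ∑ j, GG K j * r (j :: w) = 0 :=
              Finset.sum_eq_zero fun j _ => by
                rw [hlen (j :: w) (by simp; omega), mul_zero]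
            rw [h2]
            ring
          refine ihN rs hrsN h0 (fun w hw => ?_) ?_
          · rw [hval w hw.le, hlen w hw]; simp
          · have hsub : (rs.support.filter fun w => w.length = m + 1) ⊆
                (r.support.filter fun w => w.length = m + 1).erase (i0 :: ν) := by
              intro w hw
              rw [Finset.mem_filter, Finsupp.mem_support_iff] at hw
              rw [Finset.mem_erase, Finset.mem_filter, Finsupp.mem_support_iff]
              have hv := hval w (by omega)
              refine ⟨fun h => hw.1 ?_, fun h => hw.1 ?_, hw.2⟩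
              · rw [hv, h]; ring
              · rw [hv, h]; simp
            have h3 := Finset.card_le_card hsub
            have h4 : (i0 :: ν) ∈ (r.support.filter fun w => w.length = m + 1) := by
              rw [Finset.mem_filter]
              exact ⟨Finsupp.mem_support_iff.2 hr1, hw0⟩
            rw [Finset.card_erase_of_mem h4] at h3
            omega
      · push Not at hex
        refine ihm _ r hr hr0 (fun w hw => ?_) le_rfl
        rcases Nat.lt_or_ge (m + 1) w.length with h1 | h1
        · exact hlen w h1
        · exact hex w (by omega)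

/-- A nonzero `DD`-stable submodule contains a nonzero multiple of the empty word. -/
theorem key (N : Submodule K[X] (List (Fin n) →₀ K[X])) (hD : ∀ r ∈ N, DD r ∈ N)
    (r : List (Fin n) →₀ K[X]) (hr : r ∈ N) (hr0 : r ≠ 0) :
    ∃ q : K[X], q ≠ 0 ∧ Finsupp.single ([] : List (Fin n)) q ∈ N := by
  refine key_aux N hD (r.support.sup List.length) _ r hr hr0 (fun w hw => ?_) le_rfl
  by_contra hne
  have := Finset.le_sup (f := List.length) (Finsupp.mem_support_iff.2 hne)
  omega

end Pool.Agent.NCP
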