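import Mathlib
import Pool.Agent.NCP.Key

/-!
NCP: the zero estimate. A nonzero element of a finite dimensional space of finitely
supported functions on words, closed under left quotients, has an evaluation of small order.
-/

namespace Pool.Agent.NCP

open Polynomial

variable {K : Type*} [Field K] [CharZero K] {n : ℕ}

/-- Constants. -/
noncomputable def cst (n : ℕ) (K : Type*) [Field K] :
    (List (Fin n) →₀ K) →ₗ[K] (List (Fin n) →₀ K[X]) :=
  Finsupp.mapRange.linearMap (Algebra.linearMap K K[X])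

omit [CharZero K] in
@[simp] theorem cst_apply (f : List (Fin n) →₀ K) (w : List (Fin n)) :
    cst n K f w = C (f w) := by
  simp [cst]

omit [CharZero K] in
theorem cst_ne {f : List (Fin n) →₀ K} (hf : f ≠ 0) : cst n K f ≠ 0 := by
  intro h
  apply hf
  ext1 w
  have := DFunLike.congr_fun h w
  simpa using this

/-- The iterates. -/
noncomputable def fk (f : List (Fin n) →₀ K) (k : ℕ) : List (Fin n) →₀ K[X] :=
  DD^[k] (cst n K f)

theorem fk_succ (f : List (Fin n) →₀ K) (k : ℕ) : fk f (k + 1) = DD (fk f k) := by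
  rw [fk, Function.iterate_succ_apply']
  rfl

theorem natDegree_PP : (PP K n).natDegree ≤ n := by
  rw [PP]
  refine (natDegree_prod_le _ _).trans ?_
  have : ∀ i ∈ (Finset.univ : Finset (Fin n)), (1 - C (bb K i) * X : K[X]).natDegree ≤ 1 := by
    intro i _
    refine (natDegree_sub_le _ _).trans ?_
    rw [natDegree_one, Nat.max_le]
    exact ⟨Nat.zero_le _, (natDegree_C_mul_le _ _).trans natDegree_X_le⟩
  refine (Finset.sum_le_sum this).trans ?_
  simp

theorem natDegree_GG (i : Fin n) : (GG K i).natDegree ≤ n - 1 := by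
  rw [GG]
  refine (natDegree_C_mul_le _ _).trans ((natDegree_prod_le _ _).trans ?_)
  have : ∀ j ∈ (Finset.univ.erase i : Finset (Fin n)),
      (1 - C (bb K j) * X : K[X]).natDegree ≤ 1 := by
    intro i _
    refine (natDegree_sub_le _ _).trans ?_
    rw [natDegree_one, Nat.max_le]
    exact ⟨Nat.zero_le _, (natDegree_C_mul_le _ _).trans natDegree_X_le⟩
  refine (Finset.sum_le_sum this).trans ?_
  simp

theorem natDegree_fk (f : List (Fin n) →₀ K) : ∀ (k : ℕ) (w : List (Fin n)),
    (fk f k w).natDegree ≤ k * (n - 1) := by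
  intro k
  induction k with
  | zero =>
    intro w
    simp [fk]
  | succ k ih =>
    intro w
    rw [fk_succ, DD_apply]
    refine (natDegree_add_le _ _).trans (Nat.max_le.2 ⟨?_, ?_⟩)
    · by_cases h0 : (fk f k w).natDegree = 0
      · rw [derivative_eq_zero.2 h0, mul_zero, natDegree_zero]
        exact Nat.zero_le _
      · refine natDegree_mul_le.trans ?_
        have h1 := natDegree_PP (K := K) (n := n)
        have h2 := natDegree_derivative_le (fk f k w)
        have h3 := ih w
        have h4 : (k + 1) * (n - 1) = k * (n - 1) + (n - 1) := by ring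
        rcases Nat.eq_zero_or_pos n with hn | hn
        · subst hn
          simp only [Nat.zero_sub, mul_zero] at h3
          omega
        · omega
    · refine natDegree_sum_le_of_forall_le _ _ fun i _ => ?_
      refine natDegree_mul_le.trans ?_
      have h1 := natDegree_GG (K := K) i
      have h3 := ih (i :: w)
      have h4 : (k + 1) * (n - 1) = k * (n - 1) + (n - 1) := by ring
      omega

/-- The space of polynomial combinations. -/
noncomputable def VX (V : Submodule K (List (Fin n) →₀ K)) : Submodule K[X] (List (Fin n) →₀ K[X]) :=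
  Submodule.span K[X] (cst n K '' (V : Set (List (Fin n) →₀ K)))

theorem DD_cst (f : List (Fin n) →₀ K) : DD (cst n K f) = ∑ i, GG K i • cst n K (qt i f) := by
  ext1 w
  rw [DD_apply]
  simp [Finsupp.finsetSum_apply]

theorem DD_mem (V : Submodule K (List (Fin n) →₀ K)) (hV : ∀ i, ∀ f ∈ V, qt i f ∈ V)
    (r : List (Fin n) →₀ K[X]) (hr : r ∈ VX V) : DD r ∈ VX V := by
  induction hr using Submodule.span_induction with
  | mem x hx =>
    obtain ⟨f, hf, rfl⟩ := hx
    rw [DD_cst]
    exact Submodule.sum_mem _ fun i _ =>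
      Submodule.smul_mem _ _ (Submodule.subset_span ⟨_, hV i f hf, rfl⟩)
  | zero => rw [DD_zero]; exact Submodule.zero_mem _
  | add x y _ _ hx hy => rw [DD_add]; exact Submodule.add_mem _ hx hy
  | smul a x hx hDx =>
    rw [DD_smul]
    exact Submodule.add_mem _ (Submodule.smul_mem _ _ hx) (Submodule.smul_mem _ _ hDx)

theorem fk_mem (V : Submodule K (List (Fin n) →₀ K)) (hV : ∀ i, ∀ f ∈ V, qt i f ∈ V)
    (f : List (Fin n) →₀ K) (hf : f ∈ V) (k : ℕ) : fk f k ∈ VX V := by
  induction k with
  | zero => exact Submodule.subset_span ⟨f, hf, rfl⟩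
  | succ k ih => rw [fk_succ]; exact DD_mem V hV _ ih

theorem card_le (V : Submodule K (List (Fin n) →₀ K)) [FiniteDimensional K V] (s : ℕ)
    (hs : Module.finrank K V ≤ s) (r : ℕ) (g : Fin r → (List (Fin n) →₀ K[X]))
    (hg : LinearIndependent K[X] g) (hV : ∀ k, g k ∈ VX V) : r ≤ s := by
  classical
  have : Module.Free K V := Module.Free.of_divisionRing K V
  let b := Module.finBasis K V
  let T : Finset (List (Fin n) →₀ K[X]) :=
    Finset.univ.image fun j => cst n K (b j : List (Fin n) →₀ K)
  have hT : VX V ≤ Submodule.span K[X] (T : Set (List (Fin n) →₀ K[X])) := by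
    rw [VX, Submodule.span_le]
    rintro _ ⟨v, hv, rfl⟩
    have h1 : v = ∑ j, b.repr ⟨v, hv⟩ j • (b j : List (Fin n) →₀ K) := by
      have := congrArg (Subtype.val) (b.sum_repr ⟨v, hv⟩)
      rw [Submodule.coe_sum] at this
      exact this.symm
    rw [h1, map_sum]
    refine Submodule.sum_mem _ fun j _ => ?_
    have h2 : cst n K (b.repr ⟨v, hv⟩ j • (b j : List (Fin n) →₀ K)) =
        (C (b.repr ⟨v, hv⟩ j) : K[X]) • cst n K (b j : List (Fin n) →₀ K) := by
      ext1 w
      simp
    rw [h2]
    exact Submodule.smul_mem _ _ (Submodule.subset_span (by simp [T]))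
  have h := linearIndependent_le_span' g hg (T : Set (List (Fin n) →₀ K[X])) (by
    rintro _ ⟨k, rfl⟩
    exact hT (hV k))
  have h2 : (Fintype.card (T : Set (List (Fin n) →₀ K[X]))) ≤ Module.finrank K V := by
    have h3 : Fintype.card (T : Set (List (Fin n) →₀ K[X])) = T.card := by
      simp
    rw [h3]
    refine Finset.card_image_le.trans ?_
    simp
  have h5 : r ≤ Fintype.card (T : Set (List (Fin n) →₀ K[X])) := by
    rw [Cardinal.mk_fin] at h
    exact_mod_cast h
  omega

/-- Cancelling nonzero polynomials. -/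
theorem smul_cancel (q : K[X]) (hq : q ≠ 0) (x y : List (Fin n) →₀ K[X]) (h : q • x = q • y) :
    x = y := by
  ext1 w
  have := DFunLike.congr_fun h w
  simp only [Finsupp.smul_apply, smul_eq_mul] at this
  exact mul_left_cancel₀ hq this

/-- The saturation of the span of the first `r` iterates. -/
noncomputable def Sat (f : List (Fin n) →₀ K) (r : ℕ) :
    Submodule K[X] (List (Fin n) →₀ K[X]) where
  carrier := {z | ∃ q : K[X], q ≠ 0 ∧ q • z ∈
    Submodule.span K[X] (Set.range fun k : Fin r => fk f (k : ℕ))}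
  zero_mem' := ⟨1, one_ne_zero, by rw [smul_zero]; exact Submodule.zero_mem _⟩
  add_mem' := by
    rintro a b ⟨q, hq, ha⟩ ⟨q', hq', hb⟩
    refine ⟨q * q', mul_ne_zero hq hq', ?_⟩
    rw [smul_add, mul_comm q q', mul_smul, mul_comm q' q, mul_smul]
    exact Submodule.add_mem _ (Submodule.smul_mem _ _ ha) (Submodule.smul_mem _ _ hb)
  smul_mem' := by
    rintro c x ⟨q, hq, hx⟩
    refine ⟨q, hq, ?_⟩
    rw [smul_comm]
    exact Submodule.smul_mem _ _ hx

theorem mem_Sat (f : List (Fin n) →₀ K) (r : ℕ) (z : List (Fin n) →₀ K[X]) :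
    z ∈ Sat f r ↔ ∃ q : K[X], q ≠ 0 ∧ q • z ∈
      Submodule.span K[X] (Set.range fun k : Fin r => fk f (k : ℕ)) := Iff.rfl

theorem Sat_of_smul (f : List (Fin n) →₀ K) (r : ℕ) (z : List (Fin n) →₀ K[X]) (q : K[X])
    (hq : q ≠ 0) (h : q • z ∈ Sat f r) : z ∈ Sat f r := by
  obtain ⟨q', hq', h'⟩ := h
  refine ⟨q' * q, mul_ne_zero hq' hq, ?_⟩
  rw [mul_smul]
  exact h'

theorem span_le_Sat (f : List (Fin n) →₀ K) (r : ℕ) :
    Submodule.span K[X] (Set.range fun k : Fin r => fk f (k : ℕ)) ≤ Sat f r := by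
  intro z hz
  exact ⟨1, one_ne_zero, by rwa [one_smul]⟩

theorem DD_Sat (f : List (Fin n) →₀ K) (r : ℕ) (hr : fk f r ∈ Sat f r)
    (z : List (Fin n) →₀ K[X]) (hz : z ∈ Sat f r) : DD z ∈ Sat f r := by
  have h1 : ∀ y ∈ Submodule.span K[X] (Set.range fun k : Fin r => fk f (k : ℕ)),
      DD y ∈ Sat f r := by
    intro y hy
    induction hy using Submodule.span_induction with
    | mem x hx =>
      obtain ⟨k, rfl⟩ := hx
      simp only
      rw [← fk_succ]
      by_cases hk : (k : ℕ) + 1 = r
      · rw [hk]; exact hr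
      · exact span_le_Sat f r (Submodule.subset_span ⟨⟨(k : ℕ) + 1, by omega⟩, rfl⟩)
    | zero => rw [DD_zero]; exact Submodule.zero_mem _
    | add x y _ _ hx hy => rw [DD_add]; exact Submodule.add_mem _ hx hy
    | smul a x hx hDx =>
      rw [DD_smul]
      exact Submodule.add_mem _ (Submodule.smul_mem _ _ (span_le_Sat f r hx))
        (Submodule.smul_mem _ _ hDx)
  obtain ⟨q, hq, hqz⟩ := hz
  have h2 := h1 _ hqz
  rw [DD_smul] at h2
  have h3 : (PP K n * derivative q) • z ∈ Sat f r := Submodule.smul_mem _ _ ⟨q, hq, hqz⟩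
  have h4 : q • DD z ∈ Sat f r := by
    have := Submodule.sub_mem _ h2 h3
    simpa using this
  exact Sat_of_smul f r _ q hq h4

/-- The first dependence. -/
theorem exists_rank (V : Submodule K (List (Fin n) →₀ K)) [FiniteDimensional K V] (s : ℕ)
    (hs : Module.finrank K V ≤ s) (hV : ∀ i, ∀ f ∈ V, qt i f ∈ V)
    (f : List (Fin n) →₀ K) (hf : f ∈ V) :
    ∃ r, r ≤ s ∧ LinearIndependent K[X] (fun k : Fin r => fk f (k : ℕ)) ∧
      fk f r ∈ Sat f r := by
  classical
  by_contra hcon
  push Not at hcon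
  have hall : ∀ r, r ≤ s + 1 → LinearIndependent K[X] (fun k : Fin r => fk f (k : ℕ)) := by
    intro r
    induction r with
    | zero => intro _; exact linearIndependent_empty_type
    | succ r ih =>
      intro hr
      have h1 := ih (by omega)
      have h2 := hcon r (by omega) h1
      rw [Fintype.linearIndependent_iff]
      intro c hc
      rw [Fin.sum_univ_castSucc] at hc
      have hlast : c (Fin.last r) = 0 := by
        by_contra hne
        apply h2
        refine ⟨c (Fin.last r), hne, ?_⟩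
        have h3 : c (Fin.last r) • fk f r = -∑ i : Fin r, c i.castSucc • fk f (i : ℕ) := by
          rw [eq_neg_iff_add_eq_zero, add_comm]
          exact hc
        rw [h3]
        exact Submodule.neg_mem _ (Submodule.sum_mem _ fun i _ =>
          Submodule.smul_mem _ _ (Submodule.subset_span ⟨i, rfl⟩))
      rw [hlast, zero_smul, add_zero] at hc
      have h4 := (Fintype.linearIndependent_iff.1 h1) (fun i => c i.castSucc) hc
      intro i
      induction i using Fin.lastCases with
      | last => exact hlast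
      | cast i => exact h4 i
  have := card_le V s hs (s + 1) _ (hall (s + 1) le_rfl) (fun k => fk_mem V hV f hf _)
  omega

/-- Cramer: a small polynomial multiple of the empty word is an integral combination. -/
theorem cramer (f : List (Fin n) →₀ K) (r : ℕ)
    (hli : LinearIndependent K[X] (fun k : Fin r => fk f (k : ℕ)))
    (h1 : ∃ q : K[X], q ≠ 0 ∧ Finsupp.single ([] : List (Fin n)) q ∈ Sat f r) :
    ∃ (Δ : K[X]) (c : Fin r → K[X]), Δ ≠ 0 ∧ Δ.natDegree ≤ r * ((r - 1) * (n - 1)) ∧
      ∑ k, c k • fk f (k : ℕ) = Finsupp.single ([] : List (Fin n)) Δ := by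
  classical
  -- rows as functions
  have hli2 : LinearIndependent K[X] (fun (k : Fin r) (w : List (Fin n)) => fk f (k : ℕ) w) := by
    rw [Fintype.linearIndependent_iff] at hli ⊢
    intro g hg
    refine hli g ?_
    ext1 w
    have := congrFun hg w
    simpa [Finsupp.finsetSum_apply, Finset.sum_apply] using this
  obtain ⟨J, hJ⟩ := exists_minor r _ hli2
  set A : Matrix (Fin r) (Fin r) K[X] := Matrix.of fun k j => fk f (k : ℕ) (J j) with hA
  obtain ⟨q, hq, q', hq', hmem⟩ := h1
  set e : List (Fin n) →₀ K[X] := Finsupp.single [] 1 with he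
  have hqe : Finsupp.single ([] : List (Fin n)) q = q • e := by
    rw [he, Finsupp.smul_single, smul_eq_mul, mul_one]
  rw [hqe, ← mul_smul] at hmem
  set Q := q' * q with hQ
  have hQ0 : Q ≠ 0 := mul_ne_zero hq' hq
  obtain ⟨c, hc⟩ := (Submodule.mem_span_range_iff_exists_fun K[X]).1 hmem
  -- Cramer coefficients
  set c' : Fin r → K[X] := fun l => ∑ j, e (J j) * A.adjugate j l with hc'
  have hcA : ∀ j, Q * e (J j) = ∑ k, c k * A k j := by
    intro j
    have := DFunLike.congr_fun hc (J j)
    simp only [Finsupp.finsetSum_apply, Finsupp.smul_apply, smul_eq_mul] at this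
    rw [← this]
    rfl
  have hkey : ∀ l, Q * c' l = A.det * c l := by
    intro l
    have h2 : Q * c' l = ∑ j, (Q * e (J j)) * A.adjugate j l := by
      rw [hc', Finset.mul_sum]
      refine Finset.sum_congr rfl fun j _ => by ring
    rw [h2]
    have h3 : ∑ j, (Q * e (J j)) * A.adjugate j l = ∑ k, c k * (A * A.adjugate) k l := by
      simp only [hcA, Finset.sum_mul, Matrix.mul_apply, Finset.mul_sum]
      rw [Finset.sum_comm]
      refine Finset.sum_congr rfl fun k _ => Finset.sum_congr rfl fun j _ => by ring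
    rw [h3, Matrix.mul_adjugate]
    simp [Matrix.smul_apply, Matrix.one_apply, mul_comm]
  refine ⟨A.det, c', hJ, ?_, ?_⟩
  · rw [Matrix.det_apply]
    refine natDegree_sum_le_of_forall_le _ _ fun σ _ => ?_
    refine (natDegree_smul_le _ _).trans ?_
    refine (natDegree_prod_le _ _).trans ?_
    have h4 : ∀ i ∈ (Finset.univ : Finset (Fin r)), (A (σ i) i).natDegree ≤
        (r - 1) * (n - 1) := by
      intro i _
      refine (natDegree_fk f _ _).trans (Nat.mul_le_mul_right _ ?_)
      have := (σ i).2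
      omega
    refine (Finset.sum_le_sum h4).trans ?_
    simp
  · have h5 : Finsupp.single ([] : List (Fin n)) A.det = A.det • e := by
      rw [he, Finsupp.smul_single, smul_eq_mul, mul_one]
    rw [h5]
    refine smul_cancel Q hQ0 _ _ ?_
    rw [Finset.smul_sum]
    have h6 : ∀ k ∈ (Finset.univ : Finset (Fin r)), Q • c' k • fk f (k : ℕ) =
        A.det • (c k • fk f (k : ℕ)) := by
      intro k _
      rw [← mul_smul, hkey, mul_smul]
    rw [Finset.sum_congr rfl h6, ← Finset.smul_sum, hc, ← mul_smul, ← mul_smul, mul_comm]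

/-- The derivative lowers the order by at most one. -/
theorem dvd_step (N : ℕ) (F : PowerSeries K) (h : PowerSeries.X ^ N ∣ F) :
    PowerSeries.X ^ (N - 1) ∣ (PP K n : PowerSeries K) * PowerSeries.derivative K F := by
  refine Dvd.dvd.mul_left ?_ _
  rw [PowerSeries.X_pow_dvd_iff] at h ⊢
  intro m hm
  rw [PowerSeries.coeff_derivative, h (m + 1) (by omega), zero_mul]

theorem dvd_fk (f : List (Fin n) →₀ K) (N : ℕ)
    (h : PowerSeries.X ^ N ∣ ev (cst n K f)) (k : ℕ) :
    PowerSeries.X ^ (N - k) ∣ ev (fk f k) := by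
  induction k with
  | zero => simpa [fk] using h
  | succ k ih =>
    rw [fk_succ, ev_DD]
    have := dvd_step (n := n) _ _ ih
    rwa [Nat.sub_sub] at this

/-- The zero estimate. -/
theorem zero_est (V : Submodule K (List (Fin n) →₀ K)) [FiniteDimensional K V] (s : ℕ)
    (hs : Module.finrank K V ≤ s) (hV : ∀ i, ∀ f ∈ V, qt i f ∈ V)
    (f : List (Fin n) →₀ K) (hf : f ∈ V) (hf0 : f ≠ 0) (hn : 0 < n) :
    ∃ m ≤ n * s ^ 2, PowerSeries.coeff m (ev (cst n K f)) ≠ 0 := by
  by_contra hcon
  push Not at hcon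
  have hdvd : PowerSeries.X ^ (n * s ^ 2 + 1) ∣ ev (cst n K f) := by
    rw [PowerSeries.X_pow_dvd_iff]
    intro m hm
    exact hcon m (by omega)
  obtain ⟨r, hrs, hli, hr⟩ := exists_rank V s hs hV f hf
  have hr0 : 0 < r := by
    by_contra h0
    have h0' : r = 0 := by omega
    subst h0'
    obtain ⟨q, hq, hmem⟩ := hr
    have h2 : (Set.range fun k : Fin 0 => fk f (k : ℕ)) = ∅ := Set.range_eq_empty _
    rw [h2, Submodule.span_empty, Submodule.mem_bot] at hmem
    have h3 : fk f 0 = 0 := by
      refine smul_cancel q hq _ _ ?_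
      rw [hmem, smul_zero]
    exact cst_ne hf0 h3
  have hf_mem : cst n K f ∈ Sat f r :=
    span_le_Sat f r (Submodule.subset_span ⟨⟨0, hr0⟩, rfl⟩)
  obtain ⟨Δ, c, hΔ, hdeg, hsum⟩ := cramer f r hli
    (key (Sat f r) (fun z hz => DD_Sat f r hr z hz) _ hf_mem (cst_ne hf0))
  have h1 := congrArg ev hsum
  rw [map_sum, ev_single, LL_nil, mul_one] at h1
  have h2 : PowerSeries.X ^ (n * s ^ 2 + 1 - (r - 1)) ∣ (Δ : PowerSeries K) := by
    rw [← h1]
    refine Finset.dvd_sum fun k _ => ?_
    rw [map_smul, smul_eq]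
    refine Dvd.dvd.mul_left ?_ _
    refine dvd_trans (pow_dvd_pow _ ?_) (dvd_fk f _ hdvd (k : ℕ))
    have := k.2
    omega
  rw [PowerSeries.X_pow_dvd_iff] at h2
  have h3 : Δ.natDegree < n * s ^ 2 + 1 - (r - 1) := by
    have h4 : r * ((r - 1) * (n - 1)) + (r - 1) ≤ n * s ^ 2 := by
      obtain ⟨a, rfl⟩ : ∃ a, r = a + 1 := ⟨r - 1, by omega⟩
      obtain ⟨b, rfl⟩ : ∃ b, n = b + 1 := ⟨n - 1, by omega⟩
      simp only [Nat.add_sub_cancel]
      have h5 : (b + 1) * (a + 1) ^ 2 ≤ (b + 1) * s ^ 2 :=
        Nat.mul_le_mul_left _ (Nat.pow_le_pow_left hrs 2)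
      nlinarith
    omega
  have h6 := h2 _ h3
  rw [Polynomial.coeff_coe] at h6
  exact hΔ (leadingCoeff_eq_zero.1 h6)

end Pool.Agent.NCP
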