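import Mathlib
import Pool.Agent.NCP.Zero

/-!
NCP: the explicit matrices, words of them, and noncommutative polynomials.
-/

namespace Pool.Agent.NCP

open Polynomial

/-- The explicit matrices: `hyp K M i` has the entry `(i + 1) ^ (m - l) / m` in row `m` and column
`l` if `l < m`, and `0` otherwise (`0 ≤ l, m ≤ M`). -/
noncomputable def hyp (K : Type*) [Field K] {n : ℕ} (M : ℕ) (i : Fin n) :
    Matrix (Fin (M + 1)) (Fin (M + 1)) K :=
  Matrix.of fun m l => if l < m then ((i : ℕ) + 1 : K) ^ ((m : ℕ) - (l : ℕ)) / ((m : ℕ) : K) else 0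

section

variable {K : Type*} [Field K] {n : ℕ}

theorem word_col (M : ℕ) (w : List (Fin n)) (m : Fin (M + 1)) :
    (w.map (hyp K M)).prod m 0 = Lc K w (m : ℕ) := by
  induction w generalizing m with
  | nil =>
    rw [List.map_nil, List.prod_nil, Matrix.one_apply]
    have hL : Lc K ([] : List (Fin n)) (m : ℕ) = if (m : ℕ) = 0 then 1 else 0 := rfl
    rw [hL]
    by_cases hm : m = 0
    · subst hm; simp
    · have hm' : (m : ℕ) ≠ 0 := fun h => hm (Fin.ext (by simpa using h))
      rw [if_neg hm, if_neg hm']
  | cons i w ih =>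
    have hL : Lc K (i :: w) (m : ℕ) =
        (∑ l ∈ Finset.range (m : ℕ), bb K i ^ ((m : ℕ) - l) * Lc K w l) / ((m : ℕ) : K) := rfl
    rw [List.map_cons, List.prod_cons, Matrix.mul_apply, hL, Finset.sum_div]
    simp only [ih, hyp, Matrix.of_apply, ite_mul, zero_mul]
    rw [← Finset.sum_filter]
    have h1 : ∑ l ∈ Finset.range (m : ℕ), bb K i ^ ((m : ℕ) - l) * Lc K w l / ((m : ℕ) : K) =
        ∑ l : Fin (m : ℕ), bb K i ^ ((m : ℕ) - (l : ℕ)) * Lc K w (l : ℕ) / ((m : ℕ) : K) :=
      (Fin.sum_univ_eq_sum_range
        (fun l => bb K i ^ ((m : ℕ) - l) * Lc K w l / ((m : ℕ) : K)) (m : ℕ)).symm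
    rw [h1]
    symm
    refine Finset.sum_bij (fun l _ => (⟨(l : ℕ), by have := l.2; have := m.2; omega⟩ : Fin (M + 1)))
      ?_ ?_ ?_ ?_
    · intro l _
      rw [Finset.mem_filter]
      exact ⟨Finset.mem_univ _, Fin.lt_def.2 l.2⟩
    · intro a _ b _ h
      have h' := congrArg (fun x : Fin (M + 1) => (x : ℕ)) h
      exact Fin.ext h'
    · intro b hb
      rw [Finset.mem_filter] at hb
      exact ⟨⟨(b : ℕ), Fin.lt_def.1 hb.2⟩, Finset.mem_univ _, rfl⟩
    · intro l _
      simp only [bb]
      ring

/-- Coefficients of a noncommutative polynomial. -/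
noncomputable def cf : FreeAlgebra K (Fin n) →ₗ[K] (List (Fin n) →₀ K) where
  toFun f := Finsupp.equivMapDomain FreeMonoid.toList
    (FreeAlgebra.equivMonoidAlgebraFreeMonoid f).coeff
  map_add' f g := by
    rw [map_add, MonoidAlgebra.coeff_add]
    ext w
    simp
  map_smul' c f := by
    rw [map_smul, MonoidAlgebra.coeff_smul]
    ext w
    simp

theorem cf_inj {f : FreeAlgebra K (Fin n)} (h : cf f = 0) : f = 0 := by
  have h1 : (FreeAlgebra.equivMonoidAlgebraFreeMonoid f).coeff = 0 := by
    ext w
    have := DFunLike.congr_fun h (FreeMonoid.toList w)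
    simpa [cf] using this
  have h2 : FreeAlgebra.equivMonoidAlgebraFreeMonoid f = 0 := MonoidAlgebra.coeff_eq_zero.1 h1
  exact (map_eq_zero_iff _ (AlgEquiv.injective _)).1 h2

theorem cf_word (w : List (Fin n)) :
    cf ((w.map (FreeAlgebra.ι K)).prod) = Finsupp.single w 1 := by
  have h1 : FreeAlgebra.equivMonoidAlgebraFreeMonoid ((w.map (FreeAlgebra.ι K)).prod) =
      MonoidAlgebra.of K (FreeMonoid (Fin n)) (FreeMonoid.ofList w) := by
    rw [map_list_prod, List.map_map]
    induction w with
    | nil => simp [MonoidAlgebra.one_def]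
    | cons i w ih =>
      rw [List.map_cons, List.prod_cons, ih, Function.comp_apply]
      have h2 : FreeAlgebra.equivMonoidAlgebraFreeMonoid (FreeAlgebra.ι K i) =
          MonoidAlgebra.of K (FreeMonoid (Fin n)) (FreeMonoid.of i) := by
        simp [FreeAlgebra.equivMonoidAlgebraFreeMonoid]
      rw [h2, ← map_mul]
      rfl
  ext v
  simp only [cf, LinearMap.coe_mk, AddHom.coe_mk, h1, MonoidAlgebra.of_apply,
    MonoidAlgebra.coeff_single, Finsupp.equivMapDomain_single]
  rfl

/-- The polynomial with given coefficients. -/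
noncomputable def fc : (List (Fin n) →₀ K) →ₗ[K] FreeAlgebra K (Fin n) :=
  Finsupp.linearCombination K fun w => (w.map (FreeAlgebra.ι K)).prod

theorem cf_fc (r : List (Fin n) →₀ K) : cf (fc r) = r := by
  induction r using Finsupp.induction_linear with
  | zero => simp
  | add f g hf hg => rw [map_add, map_add, hf, hg]
  | single w c =>
    rw [fc, Finsupp.linearCombination_single, map_smul, cf_word, Finsupp.smul_single, smul_eq_mul,
      mul_one]

theorem fc_cf (f : FreeAlgebra K (Fin n)) : fc (cf f) = f := by
  have h : cf (fc (cf f) - f) = 0 := by rw [map_sub, cf_fc, sub_self]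
  exact sub_eq_zero.1 (cf_inj h)

theorem cf_const (c : K) : cf (algebraMap K (FreeAlgebra K (Fin n)) c) = Finsupp.single [] c := by
  have : algebraMap K (FreeAlgebra K (Fin n)) c = fc (Finsupp.single [] c) := by
    rw [fc, Finsupp.linearCombination_single, List.map_nil, List.prod_nil,
      Algebra.algebraMap_eq_smul_one]
  rw [this, cf_fc]

theorem cf_iota_mul (i : Fin n) (g : FreeAlgebra K (Fin n)) :
    cf (FreeAlgebra.ι K i * g) = (cf g).mapDomain (List.cons i) := by
  have h : ∀ r : List (Fin n) →₀ K, FreeAlgebra.ι K i * fc r = fc (r.mapDomain (List.cons i)) := by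
    intro r
    induction r using Finsupp.induction_linear with
    | zero => simp
    | add f g hf hg => rw [map_add, mul_add, hf, hg, Finsupp.mapDomain_add, map_add]
    | single w c =>
      rw [Finsupp.mapDomain_single, fc, Finsupp.linearCombination_single,
        Finsupp.linearCombination_single, List.map_cons, List.prod_cons, mul_smul_comm]
  conv_lhs => rw [← fc_cf g, h, cf_fc]

theorem qt_cf_iota_mul (i j : Fin n) (g : FreeAlgebra K (Fin n)) :
    qt j (cf (FreeAlgebra.ι K i * g)) = if j = i then cf g else 0 := by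
  rw [cf_iota_mul]
  generalize cf g = r
  induction r using Finsupp.induction_linear with
  | zero => simp
  | add f g hf hg =>
    rw [Finsupp.mapDomain_add, map_add, hf, hg]
    split_ifs <;> simp
  | single w c => rw [Finsupp.mapDomain_single, qt_single_cons]

theorem qt_cf_const (j : Fin n) (c : K) :
    qt j (cf (algebraMap K (FreeAlgebra K (Fin n)) c)) = 0 := by
  rw [cf_const, qt_single_nil]

/-- The first column of the value at the explicit matrices. -/
theorem lift_col (M : ℕ) (f : FreeAlgebra K (Fin n)) (m : Fin (M + 1)) :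
    (FreeAlgebra.lift K (hyp K M) f) m 0 = PowerSeries.coeff (m : ℕ) (ev (cst n K (cf f))) := by
  rw [← fc_cf f, cf_fc]
  generalize cf f = r
  induction r using Finsupp.induction_linear with
  | zero => simp
  | add f g hf hg =>
    rw [map_add, map_add, Matrix.add_apply, hf, hg, map_add, map_add, map_add]
  | single w c =>
    rw [fc, Finsupp.linearCombination_single, map_smul, Matrix.smul_apply, map_list_prod,
      List.map_map]
    have h1 : (FreeAlgebra.lift K (hyp K M) ∘ FreeAlgebra.ι K : Fin n → _) = hyp K M := by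
      funext i
      simp
    have h2 : (⇑(FreeAlgebra.lift K (hyp K (n := n) M)) ∘ FreeAlgebra.ι K) = hyp K M := h1
    rw [h2, word_col]
    have h3 : cst n K (Finsupp.single w c) = Finsupp.single w (C c) := by
      ext1 v
      rw [cst_apply]
      by_cases hv : w = v
      · subst hv; simp
      · simp [Finsupp.single_apply, hv]
    rw [h3, ev_single, Polynomial.coe_C, PowerSeries.coeff_C_mul, LL, PowerSeries.coeff_mk,
      smul_eq_mul]

end

end Pool.Agent.NCP
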