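import Mathlib
import Pool.Agent.NCP.Mat

/-!
NCP: algebraic branching programs have a small space of left quotients.
-/

namespace Pool.Agent.NCP

variable {K : Type*} [Field K] {n : ℕ}

/-- The hitting property for polynomials of small rank. -/
theorem hit_of_space [CharZero K] (V : Submodule K (List (Fin n) →₀ K)) [FiniteDimensional K V]
    (s : ℕ) (hs : Module.finrank K V ≤ s) (hV : ∀ i, ∀ f ∈ V, qt i f ∈ V)
    (f : FreeAlgebra K (Fin n)) (hf : cf f ∈ V) (hf0 : f ≠ 0) (M : ℕ) (hM : n * s ^ 2 ≤ M) :
    ∃ m : Fin (M + 1), (FreeAlgebra.lift K (hyp K M) f) m 0 ≠ 0 := by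
  have hcf : cf f ≠ 0 := fun h => hf0 (cf_inj h)
  rcases Nat.eq_zero_or_pos n with hn | hn
  · subst hn
    refine ⟨0, ?_⟩
    rw [lift_col]
    have h1 : cf f = Finsupp.single [] (cf f []) := by
      refine Finsupp.ext fun w => ?_
      cases w with
      | nil => simp
      | cons i w => exact i.elim0
    have h2 : cf f [] ≠ 0 := by
      intro h
      rw [h, Finsupp.single_zero] at h1
      exact hcf h1
    have h3 : cst 0 K (cf f) = Finsupp.single [] (Polynomial.C (cf f [])) := by
      refine Finsupp.ext fun w => ?_
      cases w with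
      | nil => simp
      | cons i w => exact i.elim0
    rw [h3, ev_single, LL_nil, mul_one, Polynomial.coe_C]
    simpa using h2
  · obtain ⟨m, hm, hm2⟩ := zero_est V s hs hV (cf f) hf hcf hn
    refine ⟨⟨m, by omega⟩, ?_⟩
    rw [lift_col]
    exact hm2

/-- Affine linear forms. -/
def IsAffine (K : Type*) [Field K] {n : ℕ} (f : FreeAlgebra K (Fin n)) : Prop :=
  ∃ (c0 : K) (c : Fin n → K), f = algebraMap K _ c0 + ∑ i, c i • FreeAlgebra.ι K i

/-- Algebraic branching programs with `s` vertices. -/
def IsABP (K : Type*) [Field K] {n : ℕ} (s : ℕ) (f : FreeAlgebra K (Fin n)) : Prop :=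
  ∃ (L : Matrix (Fin s) (Fin s) (FreeAlgebra K (Fin n))) (a b : Fin s),
    (∀ i j, IsAffine K (L i j)) ∧ (∀ i j, j ≤ i → L i j = 0) ∧
      f = (∑ k ∈ Finset.range s, L ^ k) a b

theorem pow_tri {R : Type*} [Semiring R] {s : ℕ} (L : Matrix (Fin s) (Fin s) R)
    (hL : ∀ i j, j ≤ i → L i j = 0) : ∀ (k : ℕ) (i j : Fin s), (j : ℕ) < (i : ℕ) + k →
      (L ^ k) i j = 0 := by
  intro k
  induction k with
  | zero =>
    intro i j hij
    rw [pow_zero, Matrix.one_apply, if_neg]
    rintro rfl
    omega
  | succ k ih =>
    intro i j hij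
    rw [pow_succ', Matrix.mul_apply]
    refine Finset.sum_eq_zero fun l _ => ?_
    by_cases hl : l ≤ i
    · rw [hL i l hl, zero_mul]
    · have hl' : (i : ℕ) < (l : ℕ) := Fin.lt_def.1 (not_le.1 hl)
      rw [ih l j (by omega), mul_zero]

theorem abp_rec {R : Type*} [Ring R] {s : ℕ} (L : Matrix (Fin s) (Fin s) R)
    (hL : ∀ i j, j ≤ i → L i j = 0) :
    ∑ k ∈ Finset.range s, L ^ k = 1 + L * ∑ k ∈ Finset.range s, L ^ k := by
  have h0 : L ^ s = 0 := by
    ext i j
    exact pow_tri L hL s i j (by have := j.2; omega)
  have h1 : ∑ k ∈ Finset.range (s + 1), L ^ k = ∑ k ∈ Finset.range s, L ^ k := by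
    rw [Finset.sum_range_succ, h0, add_zero]
  have h2 : ∑ k ∈ Finset.range (s + 1), L ^ k = L * ∑ k ∈ Finset.range s, L ^ k + 1 := by
    rw [Finset.sum_range_succ', pow_zero, Finset.mul_sum]
    simp only [pow_succ']
  calc ∑ k ∈ Finset.range s, L ^ k = ∑ k ∈ Finset.range (s + 1), L ^ k := h1.symm
    _ = L * ∑ k ∈ Finset.range s, L ^ k + 1 := h2
    _ = 1 + L * ∑ k ∈ Finset.range s, L ^ k := add_comm _ _

theorem qt_affine_mul (f g : FreeAlgebra K (Fin n)) (c0 : K) (c : Fin n → K)
    (hf : f = algebraMap K _ c0 + ∑ i, c i • FreeAlgebra.ι K i) (j : Fin n) :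
    qt j (cf (f * g)) = c0 • qt j (cf g) + c j • cf g := by
  rw [hf, add_mul, map_add, map_add, Finset.sum_mul, map_sum, map_sum]
  congr 1
  · rw [← Algebra.smul_def, map_smul, map_smul]
  · have h : ∀ i ∈ (Finset.univ : Finset (Fin n)),
        qt j (cf (c i • FreeAlgebra.ι K i * g)) = if j = i then c i • cf g else 0 := by
      intro i _
      rw [smul_mul_assoc, map_smul, map_smul, qt_cf_iota_mul]
      split_ifs <;> simp
    rw [Finset.sum_congr rfl h, Finset.sum_ite_eq Finset.univ j]
    simp

/-- The space of an algebraic branching program. -/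
theorem abp_space (s : ℕ) (L : Matrix (Fin s) (Fin s) (FreeAlgebra K (Fin n))) (b : Fin s)
    (hA : ∀ i j, IsAffine K (L i j)) (hL : ∀ i j, j ≤ i → L i j = 0) :
    ∃ V : Submodule K (List (Fin n) →₀ K), FiniteDimensional K V ∧ Module.finrank K V ≤ s ∧
      (∀ i, ∀ f ∈ V, qt i f ∈ V) ∧
      ∀ a, cf ((∑ k ∈ Finset.range s, L ^ k) a b) ∈ V := by
  classical
  set G := ∑ k ∈ Finset.range s, L ^ k with hG
  have hrec := abp_rec L hL
  rw [← hG] at hrec
  let v : Fin s → (List (Fin n) →₀ K) := fun a => cf (G a b)
  refine ⟨Submodule.span K (Set.range v), ?_, ?_, ?_, fun a => Submodule.subset_span ⟨a, rfl⟩⟩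
  · exact FiniteDimensional.span_of_finite K (Set.finite_range v)
  · refine (finrank_range_le_card v).trans ?_
    simp
  · intro i f hf
    have hmain : ∀ a, qt i (v a) ∈ Submodule.span K (Set.range v) := by
      -- downward induction on `a`
      have hstep : ∀ d : ℕ, ∀ a : Fin s, s ≤ (a : ℕ) + d →
          qt i (v a) ∈ Submodule.span K (Set.range v) := by
        intro d
        induction d with
        | zero => intro a ha; have := a.2; omega
        | succ d ih =>
          intro a ha
          choose c0 c hc using hA a
          have h1 : G a b = (1 : Matrix (Fin s) (Fin s) (FreeAlgebra K (Fin n))) a b +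
              ∑ l, L a l * G l b := by
            have := congrFun (congrFun hrec a) b
            rw [Matrix.add_apply, Matrix.mul_apply] at this
            exact this
          have h2 : qt i (v a) = ∑ l, (c0 l • qt i (v l) + c l i • v l) := by
            show qt i (cf (G a b)) = _
            rw [h1, map_add, map_add]
            have h3 : qt i (cf ((1 : Matrix (Fin s) (Fin s) (FreeAlgebra K (Fin n))) a b)) =
                0 := by
              rw [Matrix.one_apply]
              split_ifs
              · have := qt_cf_const (K := K) (n := n) i 1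
                rwa [map_one] at this
              · simp
            rw [h3, zero_add, map_sum, map_sum]
            exact Finset.sum_congr rfl fun l _ => qt_affine_mul _ _ _ _ (hc l) i
          rw [h2]
          refine Submodule.sum_mem _ fun l _ => Submodule.add_mem _ ?_
            (Submodule.smul_mem _ _ (Submodule.subset_span ⟨l, rfl⟩))
          by_cases hl : l ≤ a
          · -- the constant term vanishes
            have h4 : c0 l = 0 := by
              have h5 := hc l
              rw [hL a l hl] at h5
              have h6 := congrArg (fun g => cf g []) h5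
              simp only [map_zero, map_add, map_sum, map_smul, Finsupp.add_apply,
                Finsupp.zero_apply, cf_const, Finsupp.single_eq_same, Finsupp.finsetSum_apply,
                Finsupp.smul_apply] at h6
              have h7 : ∀ j : Fin n, cf (FreeAlgebra.ι K j) ([] : List (Fin n)) = 0 := by
                intro j
                have h8 := cf_iota_mul (K := K) j 1
                rw [mul_one] at h8
                rw [h8]
                have h9 : cf (1 : FreeAlgebra K (Fin n)) = Finsupp.single [] 1 := by
                  have := cf_const (n := n) (1 : K)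
                  rwa [map_one] at this
                rw [h9, Finsupp.mapDomain_single]
                simp [Finsupp.single_apply]
              simp only [h7, smul_zero, Finset.sum_const_zero, add_zero] at h6
              exact h6.symm
            rw [h4, zero_smul]
            exact Submodule.zero_mem _
          · have hl' : (a : ℕ) < (l : ℕ) := Fin.lt_def.1 (not_le.1 hl)
            exact Submodule.smul_mem _ _ (ih l (by omega))
      intro a
      exact hstep s a (by omega)
    induction hf using Submodule.span_induction with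
    | mem x hx =>
      obtain ⟨a, rfl⟩ := hx
      exact hmain a
    | zero => rw [map_zero]; exact Submodule.zero_mem _
    | add x y _ _ hx hy => rw [map_add]; exact Submodule.add_mem _ hx hy
    | smul c x _ hx => rw [map_smul]; exact Submodule.smul_mem _ _ hx

/-- **The theorem for branching programs.** -/
theorem abp_hit [CharZero K] (s : ℕ) (f : FreeAlgebra K (Fin n)) (h : IsABP K s f)
    (hf : f ≠ 0) (M : ℕ) (hM : n * s ^ 2 ≤ M) :
    ∃ m : Fin (M + 1), (FreeAlgebra.lift K (hyp K M) f) m 0 ≠ 0 := by
  obtain ⟨L, a, b, hA, hL, rfl⟩ := h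
  obtain ⟨V, h1, h2, h3, h4⟩ := abp_space s L b hA hL
  exact hit_of_space V s h2 h3 _ (h4 a) hf M hM

end Pool.Agent.NCP
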