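import Mathlib
import Pool.Agent.NCP.Abp

/-!
NCP: noncommutative rational functions regular at the origin, given by linear pencils.
-/

namespace Pool.Agent.NCP

open Polynomial

section defs

variable {K : Type*} [Field K] {n s : ℕ}

/-- The linear pencil `A0 + ∑ A_i Y_i` with `s × s` coefficient matrices, at elements `Y_i` of a
`K`-algebra `R`. -/
noncomputable def pen {R : Type*} [Ring R] [Algebra K R] (A0 : Matrix (Fin s) (Fin s) K)
    (A : Fin n → Matrix (Fin s) (Fin s) K) (Y : Fin n → R) : Matrix (Fin s) (Fin s) R :=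
  Matrix.of fun a b => algebraMap K R (A0 a b) + ∑ i, A i a b • Y i

/-- The value of the rational function `u (A0 + ∑ A_i x_i)⁻¹ v` at `Y`. -/
noncomputable def val {R : Type*} [Ring R] [Algebra K R] (A0 : Matrix (Fin s) (Fin s) K)
    (A : Fin n → Matrix (Fin s) (Fin s) K) (u v : Fin s → K) (Y : Fin n → R) : R :=
  ∑ a, ∑ b, (u a * v b) • Ring.inverse (pen A0 A Y) a b

/-- The linear part of the pencil. -/
noncomputable def lin {R : Type*} [Ring R] [Algebra K R]
    (A : Fin n → Matrix (Fin s) (Fin s) K) (Y : Fin n → R) : Matrix (Fin s) (Fin s) R :=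
  Matrix.of fun a b => ∑ i, A i a b • Y i

/-- Constant matrices. -/
noncomputable def scal (R : Type*) [Ring R] [Algebra K R] (B : Matrix (Fin s) (Fin s) K) :
    Matrix (Fin s) (Fin s) R := B.map (algebraMap K R)

theorem pen_eq {R : Type*} [Ring R] [Algebra K R] (A0 : Matrix (Fin s) (Fin s) K)
    (A : Fin n → Matrix (Fin s) (Fin s) K) (Y : Fin n → R) :
    pen A0 A Y = scal R A0 + lin A Y := rfl

theorem scal_mul {R : Type*} [Ring R] [Algebra K R] (B C : Matrix (Fin s) (Fin s) K) :
    scal R (B * C) = scal R B * scal R C := by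
  rw [scal, scal, scal, Matrix.map_mul]

theorem scal_one {R : Type*} [Ring R] [Algebra K R] :
    scal R (1 : Matrix (Fin s) (Fin s) K) = 1 := by
  rw [scal, Matrix.map_one _ (map_zero _) (map_one _)]

/-- The homogeneous parts of the inverse of the pencil. -/
noncomputable def GR {R : Type*} [Ring R] [Algebra K R] (A0 : Matrix (Fin s) (Fin s) K)
    (A : Fin n → Matrix (Fin s) (Fin s) K) (Y : Fin n → R) : ℕ → Matrix (Fin s) (Fin s) R
  | 0 => scal R A0⁻¹
  | j + 1 => -(scal R A0⁻¹ * (lin A Y * GR A0 A Y j))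

variable (A0 : Matrix (Fin s) (Fin s) K) (A : Fin n → Matrix (Fin s) (Fin s) K)

theorem pen_mul_sum {R : Type*} [Ring R] [Algebra K R] (hA0 : IsUnit A0.det) (Y : Fin n → R)
    (J : ℕ) : pen A0 A Y * ∑ j ∈ Finset.range (J + 1), GR A0 A Y j =
      1 + lin A Y * GR A0 A Y J := by
  have hc : scal R A0 * scal R A0⁻¹ = (1 : Matrix (Fin s) (Fin s) R) := by
    rw [← scal_mul, Matrix.mul_nonsing_inv _ hA0, scal_one]
  rw [pen_eq]
  induction J with
  | zero =>
    rw [Finset.sum_range_one, add_mul]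
    congr 1
  | succ J ih =>
    rw [Finset.sum_range_succ, mul_add, ih]
    have h1 : (scal R A0 + lin A Y) * GR A0 A Y (J + 1) =
        -(lin A Y * GR A0 A Y J) + lin A Y * GR A0 A Y (J + 1) := by
      rw [add_mul]
      congr 1
      show scal R A0 * -(scal R A0⁻¹ * (lin A Y * GR A0 A Y J)) = _
      rw [mul_neg, ← mul_assoc, hc, one_mul]
    rw [h1]
    abel

theorem lin_smul {R : Type*} [Ring R] [Algebra K R] {S : Type*} [CommSemiring S] [Module S R]
    [SMulCommClass K S R] (c : S) (Y : Fin n → R) :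
    lin A (c • Y) = c • lin A Y := by
  ext a b
  simp only [lin, Matrix.of_apply, Matrix.smul_apply, Pi.smul_apply, Finset.smul_sum]
  exact Finset.sum_congr rfl fun i _ => smul_comm _ _ _

theorem GR_smul {R : Type*} [Ring R] [Algebra K R] {S : Type*} [CommSemiring S] [Module S R]
    [SMulCommClass K S R] [IsScalarTower S R R] [SMulCommClass S R R]
    (c : S) (Y : Fin n → R) (j : ℕ) :
    GR A0 A (c • Y) j = c ^ j • GR A0 A Y j := by
  induction j with
  | zero => simp [GR]
  | succ j ih =>
    simp only [GR, ih, lin_smul, smul_mul_assoc, mul_smul_comm, smul_smul, smul_neg, pow_succ',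
      mul_comm (c ^ j) c]

theorem lin_map {R S : Type*} [Ring R] [Algebra K R] [Ring S] [Algebra K S] (φ : R →ₐ[K] S)
    (Y : Fin n → R) : (lin A Y).map φ = lin A (fun i => φ (Y i)) := by
  ext a b
  simp [lin]

theorem GR_map {R S : Type*} [Ring R] [Algebra K R] [Ring S] [Algebra K S] (φ : R →ₐ[K] S)
    (Y : Fin n → R) (j : ℕ) : (GR A0 A Y j).map φ = GR A0 A (fun i => φ (Y i)) j := by
  induction j with
  | zero =>
    ext a b
    simp [GR, scal]
  | succ j ih =>
    rw [GR, GR, ← ih, ← lin_map A φ Y]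
    have h1 : (scal R A0⁻¹).map φ = scal S A0⁻¹ := by
      ext a b
      simp [scal]
    rw [← h1]
    have h2 : ∀ P Q : Matrix (Fin s) (Fin s) R, (P * Q).map φ = P.map φ * Q.map φ := fun P Q =>
      Matrix.map_mul (f := (φ : R →+* S))
    have h3 : ∀ P : Matrix (Fin s) (Fin s) R, (-P).map φ = -(P.map φ) := by
      intro P
      ext a b
      simp
    rw [h3, h2, h2]

/-- The homogeneous parts of the series, as noncommutative polynomials. -/
noncomputable def fp (u v : Fin s → K) (j : ℕ) : FreeAlgebra K (Fin n) :=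
  ∑ a, ∑ b, (u a * v b) • GR A0 A (FreeAlgebra.ι K) j a b

theorem lift_fp {R : Type*} [Ring R] [Algebra K R] (u v : Fin s → K) (Y : Fin n → R) (j : ℕ) :
    FreeAlgebra.lift K Y (fp A0 A u v j) = ∑ a, ∑ b, (u a * v b) • GR A0 A Y j a b := by
  rw [fp, map_sum]
  refine Finset.sum_congr rfl fun a _ => ?_
  rw [map_sum]
  refine Finset.sum_congr rfl fun b _ => ?_
  rw [map_smul]
  congr 1
  have h := GR_map A0 A (FreeAlgebra.lift K Y) (FreeAlgebra.ι K) j
  have h2 : (fun i => FreeAlgebra.lift K Y (FreeAlgebra.ι K i)) = Y := by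
    funext i
    simp
  rw [h2] at h
  rw [← h]
  rfl

/-- The vectors of the homogeneous parts span a space closed under left quotients. -/
theorem GR_nil (j : ℕ) (a b : Fin s) :
    cf (GR A0 A (FreeAlgebra.ι K) (j + 1) a b) [] = 0 := by
  have h7 : ∀ (i : Fin n) (g : FreeAlgebra K (Fin n)),
      cf (FreeAlgebra.ι K i * g) ([] : List (Fin n)) = 0 := by
    intro i g
    rw [cf_iota_mul, Finsupp.mapDomain_of_notMem_range]
    rintro ⟨w, hw⟩
    simp at hw
  rw [GR, Matrix.neg_apply, Matrix.mul_apply, map_neg, map_sum, Finsupp.neg_apply,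
    Finsupp.finsetSum_apply, neg_eq_zero]
  refine Finset.sum_eq_zero fun c _ => ?_
  rw [scal, Matrix.map_apply, ← Algebra.smul_def, map_smul, Finsupp.smul_apply, Matrix.mul_apply,
    map_sum, Finsupp.finsetSum_apply]
  rw [Finset.sum_eq_zero, smul_zero]
  intro d _
  rw [lin, Matrix.of_apply, Finset.sum_mul, map_sum, Finsupp.finsetSum_apply]
  refine Finset.sum_eq_zero fun i _ => ?_
  rw [smul_mul_assoc, map_smul, Finsupp.smul_apply, h7, smul_zero]

theorem qt_GR_zero (i : Fin n) (a b : Fin s) :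
    qt i (cf (GR A0 A (FreeAlgebra.ι K) 0 a b)) = 0 := by
  rw [GR, scal, Matrix.map_apply, qt_cf_const]

theorem qt_GR_succ (j : ℕ) (i : Fin n) (a b : Fin s) :
    qt i (cf (GR A0 A (FreeAlgebra.ι K) (j + 1) a b)) =
      ∑ d, (-(A0⁻¹ * A i) a d) • cf (GR A0 A (FreeAlgebra.ι K) j d b) := by
  have h1 : ∀ c : Fin s, qt i (cf ((lin A (FreeAlgebra.ι K) *
      GR A0 A (FreeAlgebra.ι K) j) c b)) = ∑ d, A i c d • cf (GR A0 A (FreeAlgebra.ι K) j d b) := by
    intro c
    rw [Matrix.mul_apply, map_sum, map_sum]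
    refine Finset.sum_congr rfl fun d _ => ?_
    rw [lin, Matrix.of_apply]
    have h2 : (∑ i, A i c d • FreeAlgebra.ι K i) = algebraMap K (FreeAlgebra K (Fin n)) 0 +
        ∑ i, A i c d • FreeAlgebra.ι K i := by rw [map_zero, zero_add]
    rw [qt_affine_mul _ _ 0 (fun i => A i c d) h2 i, zero_smul, zero_add]
  rw [GR, Matrix.neg_apply, Matrix.mul_apply, map_neg, map_sum, map_neg, map_sum]
  have h3 : ∀ c ∈ (Finset.univ : Finset (Fin s)), qt i (cf (scal (FreeAlgebra K (Fin n)) A0⁻¹ a c *
      (lin A (FreeAlgebra.ι K) * GR A0 A (FreeAlgebra.ι K) j) c b)) =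
      ∑ d, (A0⁻¹ a c * A i c d) • cf (GR A0 A (FreeAlgebra.ι K) j d b) := by
    intro c _
    rw [scal, Matrix.map_apply, ← Algebra.smul_def, map_smul, map_smul, h1, Finset.smul_sum]
    exact Finset.sum_congr rfl fun d _ => smul_smul _ _ _
  rw [Finset.sum_congr rfl h3, Finset.sum_comm, ← Finset.sum_neg_distrib]
  refine Finset.sum_congr rfl fun d _ => ?_
  rw [Matrix.mul_apply, neg_smul, Finset.sum_smul]

/-- The space for the homogeneous part of degree `k`. -/
theorem fp_space (u v : Fin s → K) (k : ℕ) :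
    ∃ V : Submodule K (List (Fin n) →₀ K), FiniteDimensional K V ∧
      Module.finrank K V ≤ s * (k + 1) ∧ (∀ i, ∀ f ∈ V, qt i f ∈ V) ∧ cf (fp A0 A u v k) ∈ V := by
  classical
  let g : Fin s × Fin (k + 1) → (List (Fin n) →₀ K) := fun p =>
    ∑ b, v b • cf (GR A0 A (FreeAlgebra.ι K) (p.2 : ℕ) p.1 b)
  refine ⟨Submodule.span K (Set.range g), FiniteDimensional.span_of_finite K (Set.finite_range g),
    (finrank_range_le_card g).trans (by simp), ?_, ?_⟩
  · intro i f hf
    induction hf using Submodule.span_induction with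
    | mem x hx =>
      obtain ⟨⟨a, j⟩, rfl⟩ := hx
      simp only [g, map_sum, map_smul]
      obtain ⟨j, hj⟩ := j
      cases j with
      | zero =>
        simp only [qt_GR_zero, smul_zero, Finset.sum_const_zero]
        exact Submodule.zero_mem _
      | succ j =>
        have h1 : ∑ b, v b • qt i (cf (GR A0 A (FreeAlgebra.ι K) (j + 1) a b)) =
            ∑ d, (-(A0⁻¹ * A i) a d) • g (d, ⟨j, by omega⟩) := by
          simp only [qt_GR_succ, g, Finset.smul_sum]
          rw [Finset.sum_comm]
          exact Finset.sum_congr rfl fun d _ => Finset.sum_congr rfl fun b _ => smul_comm _ _ _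
        rw [h1]
        exact Submodule.sum_mem _ fun d _ => Submodule.smul_mem _ _
          (Submodule.subset_span ⟨_, rfl⟩)
    | zero => rw [map_zero]; exact Submodule.zero_mem _
    | add x y _ _ hx hy => rw [map_add]; exact Submodule.add_mem _ hx hy
    | smul c x _ hx => rw [map_smul]; exact Submodule.smul_mem _ _ hx
  · have h1 : cf (fp A0 A u v k) = ∑ a, u a • g (a, ⟨k, by omega⟩) := by
      rw [fp, map_sum]
      refine Finset.sum_congr rfl fun a _ => ?_
      simp only [map_sum, g, Finset.smul_sum]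
      refine Finset.sum_congr rfl fun b _ => ?_
      rw [map_smul, smul_smul]
    rw [h1]
    exact Submodule.sum_mem _ fun a _ => Submodule.smul_mem _ _
      (Submodule.subset_span ⟨_, rfl⟩)

end defs

end Pool.Agent.NCP
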