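import Mathlib
import Pool.Agent.NCP.Ser

/-!
NCP: hitting sets for rational functions regular at the origin.
-/

namespace Pool.Agent.NCP

open Polynomial

variable {K : Type*} [Field K] {n s : ℕ}
variable (A0 : Matrix (Fin s) (Fin s) K) (A : Fin n → Matrix (Fin s) (Fin s) K)

/-- The vector of a word. -/
noncomputable def vec (v : Fin s → K) : List (Fin n) → (Fin s → K)
  | [] => A0⁻¹.mulVec v
  | i :: w => (-(A0⁻¹ * A i)).mulVec (vec v w)

theorem cf_GR (v : Fin s → K) (j : ℕ) (w : List (Fin n)) (a : Fin s) :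
    ∑ b, v b * cf (GR A0 A (FreeAlgebra.ι K) j a b) w =
      if w.length = j then vec A0 A v w a else 0 := by
  induction j generalizing w a with
  | zero =>
    have h1 : ∀ b, cf (GR A0 A (FreeAlgebra.ι K) 0 a b) = Finsupp.single [] (A0⁻¹ a b) := by
      intro b
      rw [GR, scal, Matrix.map_apply, cf_const]
    simp only [h1]
    cases w with
    | nil =>
      simp only [Finsupp.single_eq_same, List.length_nil, if_true, vec, Matrix.mulVec, dotProduct]
      exact Finset.sum_congr rfl fun b _ => mul_comm _ _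
    | cons i w => simp
  | succ j ih =>
    cases w with
    | nil =>
      simp only [GR_nil, mul_zero, Finset.sum_const_zero, List.length_nil]
      rw [if_neg (by omega)]
    | cons i w =>
      have h1 : ∀ b, cf (GR A0 A (FreeAlgebra.ι K) (j + 1) a b) (i :: w) =
          ∑ d, (-(A0⁻¹ * A i) a d) * cf (GR A0 A (FreeAlgebra.ι K) j d b) w := by
        intro b
        have := DFunLike.congr_fun (qt_GR_succ A0 A j i a b) w
        rw [qt_apply, Finsupp.finsetSum_apply] at this
        simpa only [Finsupp.smul_apply, smul_eq_mul] using this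
      simp only [h1, Finset.mul_sum]
      rw [Finset.sum_comm]
      have h2 : ∀ d ∈ (Finset.univ : Finset (Fin s)),
          ∑ b, v b * ((-(A0⁻¹ * A i) a d) * cf (GR A0 A (FreeAlgebra.ι K) j d b) w) =
          (-(A0⁻¹ * A i) a d) * (if w.length = j then vec A0 A v w d else 0) := by
        intro d _
        rw [← ih w d, Finset.mul_sum]
        exact Finset.sum_congr rfl fun b _ => by ring
      rw [Finset.sum_congr rfl h2]
      by_cases hw : w.length = j
      · rw [if_pos (by simp [hw])]
        simp only [if_pos hw, vec, Matrix.mulVec, dotProduct]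
        rfl
      · rw [if_neg (by simpa using hw)]
        simp [hw]

theorem cf_fp (u v : Fin s → K) (j : ℕ) (w : List (Fin n)) :
    cf (fp A0 A u v j) w = if w.length = j then ∑ a, u a * vec A0 A v w a else 0 := by
  have h1 : cf (fp A0 A u v j) w =
      ∑ a, u a * ∑ b, v b * cf (GR A0 A (FreeAlgebra.ι K) j a b) w := by
    rw [fp]
    simp only [map_sum, map_smul, Finsupp.finsetSum_apply, Finsupp.smul_apply, smul_eq_mul,
      Finset.mul_sum, mul_assoc]
  rw [h1]
  simp only [cf_GR]
  split_ifs with h
  · rfl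
  · simp

/-- The vectors of the words of length less than `s` span. -/
theorem vec_mem (v : Fin s → K) (w : List (Fin n)) :
    vec A0 A v w ∈ Submodule.span K {x | ∃ w' : List (Fin n), w'.length < s ∧
      x = vec A0 A v w'} := by
  let T : ℕ → Submodule K (Fin s → K) := fun j =>
    Submodule.span K {x | ∃ w' : List (Fin n), w'.length < j ∧ x = vec A0 A v w'}
  have hmono : ∀ j, T j ≤ T (j + 1) := by
    intro j
    refine Submodule.span_mono ?_
    rintro x ⟨w', hw', rfl⟩
    exact ⟨w', by omega, rfl⟩
  have hex : ∃ j ≤ s, T (j + 1) ≤ T j := by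
    by_contra hcon
    push Not at hcon
    have hrank : ∀ j, j ≤ s + 1 → j ≤ Module.finrank K (T j) := by
      intro j
      induction j with
      | zero => intro _; exact Nat.zero_le _
      | succ j ih =>
        intro hj
        have h1 := ih (by omega)
        have h2 : T j < T (j + 1) := lt_of_le_not_ge (hmono j) (hcon j (by omega))
        have h3 := Submodule.finrank_lt_finrank_of_lt h2
        omega
    have h4 := hrank (s + 1) le_rfl
    have h5 := Submodule.finrank_le (T (s + 1))
    rw [Module.finrank_fin_fun] at h5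
    omega
  obtain ⟨j, hj, hstab⟩ := hex
  have hall : ∀ w : List (Fin n), vec A0 A v w ∈ T j := by
    intro w
    induction w with
    | nil => exact hstab (Submodule.subset_span ⟨[], by simp, rfl⟩)
    | cons i w ih =>
      have h1 : ∀ x ∈ T j, (-(A0⁻¹ * A i)).mulVec x ∈ T j := by
        intro x hx
        induction hx using Submodule.span_induction with
        | mem x hx =>
          obtain ⟨w', hw', rfl⟩ := hx
          exact hstab (Submodule.subset_span ⟨i :: w', by simpa using hw', rfl⟩)
        | zero => rw [Matrix.mulVec_zero]; exact Submodule.zero_mem _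
        | add x y _ _ hx hy => rw [Matrix.mulVec_add]; exact Submodule.add_mem _ hx hy
        | smul c x _ hx => rw [Matrix.mulVec_smul]; exact Submodule.smul_mem _ _ hx
      exact h1 _ ih
  have hle : T j ≤ T s := by
    refine Submodule.span_mono ?_
    rintro x ⟨w', hw', rfl⟩
    exact ⟨w', by omega, rfl⟩
  exact hle (hall w)

/-- A nonzero series has a nonzero homogeneous part of degree less than `s`. -/
theorem exists_small (u v : Fin s → K) (h : ∃ k, fp A0 A u v k ≠ 0) :
    ∃ k < s, fp A0 A u v k ≠ 0 := by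
  by_contra hcon
  push Not at hcon
  obtain ⟨k, hk⟩ := h
  apply hk
  apply cf_inj
  ext w
  rw [cf_fp, Finsupp.zero_apply]
  split_ifs with hw
  swap
  · rfl
  have hlin : ∀ x ∈ Submodule.span K {x | ∃ w' : List (Fin n), w'.length < s ∧
      x = vec A0 A v w'}, ∑ a, u a * x a = 0 := by
    intro x hx
    induction hx using Submodule.span_induction with
    | mem x hx =>
      obtain ⟨w', hw', rfl⟩ := hx
      have := DFunLike.congr_fun (congrArg cf (hcon w'.length hw')) w'
      rw [cf_fp, if_pos rfl, map_zero, Finsupp.zero_apply] at this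
      exact this
    | zero => simp
    | add x y _ _ hx hy => simp only [Pi.add_apply, mul_add, Finset.sum_add_distrib, hx, hy, add_zero]
    | smul c x _ hx =>
      have : ∀ a, u a * (c • x) a = c * (u a * x a) := fun a => by
        rw [Pi.smul_apply, smul_eq_mul]; ring
      simp only [this, ← Finset.mul_sum, hx, mul_zero]
  exact hlin _ (vec_mem A0 A v w)

/-- Matrices with nonzero entries only `j` or more below the diagonal. -/
def Low (M j : ℕ) (Z : Matrix (Fin (M + 1)) (Fin (M + 1)) K) : Prop :=
  ∀ m l : Fin (M + 1), (m : ℕ) < (l : ℕ) + j → Z m l = 0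

theorem low_hyp (M : ℕ) (i : Fin n) : Low M 1 (hyp K M i) := by
  intro m l h
  rw [hyp, Matrix.of_apply, if_neg]
  rw [not_lt, Fin.le_def]
  omega

theorem Low.mul {M j : ℕ} {X Z : Matrix (Fin (M + 1)) (Fin (M + 1)) K} (hX : Low M 1 X)
    (hZ : Low M j Z) : Low M (j + 1) (X * Z) := by
  intro m l h
  rw [Matrix.mul_apply]
  refine Finset.sum_eq_zero fun k _ => ?_
  by_cases h1 : (m : ℕ) < (k : ℕ) + 1
  · rw [hX m k h1, zero_mul]
  · rw [hZ k l (by omega), mul_zero]

theorem Low.sum {M j : ℕ} {ι : Type*} (t : Finset ι)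
    (F : ι → Matrix (Fin (M + 1)) (Fin (M + 1)) K) (h : ∀ i ∈ t, Low M j (F i)) :
    Low M j (∑ i ∈ t, F i) := by
  intro m l hml
  rw [Matrix.sum_apply]
  exact Finset.sum_eq_zero fun i hi => h i hi m l hml

theorem Low.smul {M j : ℕ} (c : K) {X : Matrix (Fin (M + 1)) (Fin (M + 1)) K} (hX : Low M j X) :
    Low M j (c • X) := by
  intro m l hml
  rw [Matrix.smul_apply, hX m l hml, smul_zero]

theorem low_lin_GR (M j : ℕ) (hG : ∀ a b, Low M j (GR A0 A (hyp K M) j a b)) (a b : Fin s) :
    Low M (j + 1) ((lin A (hyp K M) * GR A0 A (hyp K M) j) a b) := by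
  rw [Matrix.mul_apply]
  refine Low.sum _ _ fun c _ => ?_
  rw [lin, Matrix.of_apply, Finset.sum_mul]
  refine Low.sum _ _ fun i _ => ?_
  rw [smul_mul_assoc]
  exact Low.smul _ (Low.mul (low_hyp M i) (hG c b))

theorem low_GR (M j : ℕ) (a b : Fin s) : Low M j (GR A0 A (hyp K M) j a b) := by
  induction j generalizing a b with
  | zero =>
    rw [GR, scal, Matrix.map_apply]
    intro m l h
    rw [Matrix.algebraMap_matrix_apply, if_neg]
    rintro rfl
    omega
  | succ j ih =>
    rw [GR, Matrix.neg_apply, Matrix.mul_apply, ← Finset.sum_neg_distrib]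
    refine Low.sum _ _ fun c _ => ?_
    rw [scal, Matrix.map_apply, ← Algebra.smul_def, ← neg_smul]
    exact Low.smul _ (low_lin_GR A0 A M j ih c b)

theorem lin_GR_zero (M : ℕ) : lin A (hyp K M) * GR A0 A (hyp K M) M = 0 := by
  ext a b m l
  exact low_lin_GR A0 A M M (fun a b => low_GR A0 A M M a b) a b m l (by have := m.2; omega)

theorem GR_zero (M j : ℕ) (hj : M < j) : GR A0 A (hyp K M) j = 0 := by
  ext a b m l
  exact low_GR A0 A M j a b m l (by have := m.2; omega)

/-- The inverse of the pencil at the explicit matrices. -/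
theorem pen_inv (hA0 : IsUnit A0.det) (M : ℕ) (c : K) :
    pen A0 A (c • hyp K M) * (∑ j ∈ Finset.range (M + 1), c ^ j • GR A0 A (hyp K M) j) = 1 := by
  have h := pen_mul_sum A0 A hA0 (c • hyp K (n := n) M) M
  simp only [GR_smul, lin_smul] at h
  rw [h, smul_mul_assoc, mul_smul_comm, lin_GR_zero, smul_zero, smul_zero, add_zero]

theorem pen_isUnit (hA0 : IsUnit A0.det) (M : ℕ) (c : K) :
    IsUnit (pen A0 A (c • hyp K M)) := by
  have h := pen_inv A0 A hA0 M c
  exact IsUnit.of_mul_eq_one _ h

theorem ring_inverse_pen (hA0 : IsUnit A0.det) (M : ℕ) (c : K) :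
    Ring.inverse (pen A0 A (c • hyp K M)) =
      ∑ j ∈ Finset.range (M + 1), c ^ j • GR A0 A (hyp K M) j := by
  have h := pen_inv A0 A hA0 M c
  have hu := pen_isUnit A0 A hA0 M c
  have h2 := Ring.inverse_mul_cancel _ hu
  calc Ring.inverse (pen A0 A (c • hyp K M)) =
      Ring.inverse (pen A0 A (c • hyp K M)) * (pen A0 A (c • hyp K M) *
        (∑ j ∈ Finset.range (M + 1), c ^ j • GR A0 A (hyp K M) j)) := by rw [h, mul_one]
    _ = _ := by rw [← mul_assoc, h2, one_mul]

theorem val_hyp (hA0 : IsUnit A0.det) (u v : Fin s → K) (M : ℕ) (c : K) :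
    val A0 A u v (c • hyp K M) =
      ∑ j ∈ Finset.range (M + 1), c ^ j • FreeAlgebra.lift K (hyp K M) (fp A0 A u v j) := by
  rw [val, ring_inverse_pen A0 A hA0]
  simp only [lift_fp, Matrix.sum_apply, Matrix.smul_apply, Finset.smul_sum]
  rw [Finset.sum_congr rfl fun a _ => Finset.sum_comm]
  rw [Finset.sum_comm]
  refine Finset.sum_congr rfl fun j _ => Finset.sum_congr rfl fun a _ =>
    Finset.sum_congr rfl fun b _ => smul_comm _ _ _

/-- A polynomial of degree at most `M` that vanishes at `0, ..., M` is zero. -/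
theorem poly_zero [CharZero K] (M : ℕ) (c : ℕ → K)
    (h : ∀ x : ℕ, x ≤ M → ∑ j ∈ Finset.range (M + 1), (x : K) ^ j * c j = 0) :
    ∀ j ≤ M, c j = 0 := by
  let p : K[X] := ∑ j ∈ Finset.range (M + 1), C (c j) * X ^ j
  have hp : p = 0 := by
    refine Polynomial.eq_zero_of_natDegree_lt_card_of_eval_eq_zero (ι := Fin (M + 1)) p
      (f := fun x => ((x : ℕ) : K)) ?_ ?_ ?_
    · intro x y hxy
      exact Fin.ext (Nat.cast_injective hxy)
    · intro x
      have h1 := h (x : ℕ) (by have := x.2; omega)
      rw [eval_finsetSum]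
      rw [← h1]
      refine Finset.sum_congr rfl fun j _ => ?_
      rw [eval_mul, eval_C, eval_pow, eval_X, mul_comm]
    · rw [Fintype.card_fin]
      refine lt_of_le_of_lt (natDegree_sum_le_of_forall_le (n := M) _ _ fun j hj => ?_)
        (Nat.lt_succ_self M)
      refine (natDegree_C_mul_X_pow_le _ _).trans ?_
      have := Finset.mem_range.1 hj
      omega
  intro j hj
  have h2 := congrArg (fun q : K[X] => q.coeff j) hp
  simp only [p, finsetSum_coeff, coeff_C_mul, coeff_X_pow, coeff_zero, mul_ite, mul_one,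
    mul_zero] at h2
  rw [Finset.sum_ite_eq (Finset.range (M + 1)) j] at h2
  rwa [if_pos (Finset.mem_range.2 (by omega))] at h2

/-- **Hitting**: the explicit matrices detect nonzero series. -/
theorem fp_zero_of_val [CharZero K] (hA0 : IsUnit A0.det) (u v : Fin s → K) (M : ℕ)
    (hM : n * s ^ 4 ≤ M)
    (h : ∀ x : ℕ, x ≤ M → val A0 A u v ((x : K) • hyp K (n := n) M) = 0) :
    ∀ k, fp A0 A u v k = 0 := by
  by_contra hcon
  push Not at hcon
  obtain ⟨k, hks, hk⟩ := exists_small A0 A u v hcon
  obtain ⟨V, h1, h2, h3, h4⟩ := fp_space A0 A u v k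
  have h5 : Module.finrank K V ≤ s ^ 2 := by
    refine h2.trans ?_
    rw [sq]
    exact Nat.mul_le_mul_left _ (by omega)
  obtain ⟨m, hm⟩ := hit_of_space V (s ^ 2) h5 h3 _ h4 hk M (by
    rw [← pow_mul]
    exact hM)
  have h6 := poly_zero M (fun j => (FreeAlgebra.lift K (hyp K M) (fp A0 A u v j)) m 0) (by
    intro x hx
    have h7 := congrFun (congrFun (h x hx) m) 0
    rw [val_hyp A0 A hA0, Matrix.sum_apply] at h7
    simpa [Matrix.smul_apply] using h7)
  by_cases hkM : k ≤ M
  · exact hm (h6 k hkM)
  · apply hm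
    rw [lift_fp, GR_zero A0 A M k (by omega)]
    simp

end Pool.Agent.NCP
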