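import Mathlib
import Pool.Agent.NCP.Hit

/-!
NCP: a rational function whose series vanishes, vanishes at all matrices at which it is defined.
-/

namespace Pool.Agent.NCP

open Polynomial

/-- The adjugate of a matrix of matrices. -/
noncomputable def adj2 {s N : ℕ} {S : Type*} [CommRing S]
    (P : Matrix (Fin s) (Fin s) (Matrix (Fin N) (Fin N) S)) :
    Matrix (Fin s) (Fin s) (Matrix (Fin N) (Fin N) S) :=
  (Matrix.compAlgEquiv (Fin s) (Fin N) S S).symm
    (Matrix.adjugate (Matrix.compAlgEquiv (Fin s) (Fin N) S S P))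

/-- The determinant of a matrix of matrices. -/
noncomputable def det2 {s N : ℕ} {S : Type*} [CommRing S]
    (P : Matrix (Fin s) (Fin s) (Matrix (Fin N) (Fin N) S)) : S :=
  (Matrix.compAlgEquiv (Fin s) (Fin N) S S P).det

theorem adj2_mul {s N : ℕ} {S : Type*} [CommRing S]
    (P : Matrix (Fin s) (Fin s) (Matrix (Fin N) (Fin N) S)) :
    adj2 P * P = det2 P • (1 : Matrix (Fin s) (Fin s) (Matrix (Fin N) (Fin N) S)) := by
  apply (Matrix.compAlgEquiv (Fin s) (Fin N) S S).injective
  rw [map_mul, adj2, AlgEquiv.apply_symm_apply, Matrix.adjugate_mul, map_smul, map_one]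
  rfl

theorem det2_unit {s N : ℕ} {S : Type*} [CommRing S]
    (P : Matrix (Fin s) (Fin s) (Matrix (Fin N) (Fin N) S)) (h : IsUnit P) : IsUnit (det2 P) := by
  have h1 : IsUnit (Matrix.compAlgEquiv (Fin s) (Fin N) S S P) := h.map _
  exact (Matrix.isUnit_iff_isUnit_det _).1 h1

/-- Evaluation at `1` of the entries. -/
noncomputable def ev1 (s N : ℕ) (K : Type*) [Field K] :
    Matrix (Fin s) (Fin s) (Matrix (Fin N) (Fin N) K[X]) →+*
      Matrix (Fin s) (Fin s) (Matrix (Fin N) (Fin N) K) :=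
  ((evalRingHom (1 : K)).mapMatrix).mapMatrix

theorem ev1_apply {s N : ℕ} {K : Type*} [Field K]
    (P : Matrix (Fin s) (Fin s) (Matrix (Fin N) (Fin N) K[X])) (a b : Fin s) (p q : Fin N) :
    ev1 s N K P a b p q = (P a b p q).eval 1 := rfl

theorem det2_ev1 {s N : ℕ} {K : Type*} [Field K]
    (P : Matrix (Fin s) (Fin s) (Matrix (Fin N) (Fin N) K[X])) :
    det2 (ev1 s N K P) = (det2 P).eval 1 := by
  have h : (Matrix.compAlgEquiv (Fin s) (Fin N) K K (ev1 s N K P)) =
      (evalRingHom (1 : K)).mapMatrix (Matrix.compAlgEquiv (Fin s) (Fin N) K[X] K[X] P) := by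
    ext ⟨a, p⟩ ⟨b, q⟩
    rfl
  rw [det2, h, ← RingHom.map_det]
  rfl

/-- The functional. -/
noncomputable def lam {s N : ℕ} {K : Type*} [Field K] (S : Type*) [CommRing S] [Algebra K S]
    (u v : Fin s → K) (p q : Fin N) :
    Matrix (Fin s) (Fin s) (Matrix (Fin N) (Fin N) S) →ₗ[S] S where
  toFun Z := ∑ a, ∑ b, algebraMap K S (u a * v b) * Z a b p q
  map_add' Z W := by
    simp only [Matrix.add_apply, mul_add, Finset.sum_add_distrib]
  map_smul' c Z := by
    simp only [Matrix.smul_apply, smul_eq_mul, RingHom.id_apply, Finset.mul_sum]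
    exact Finset.sum_congr rfl fun a _ => Finset.sum_congr rfl fun b _ => by ring

theorem lam_apply {s N : ℕ} {K : Type*} [Field K] (S : Type*) [CommRing S] [Algebra K S]
    (u v : Fin s → K) (p q : Fin N) (Z : Matrix (Fin s) (Fin s) (Matrix (Fin N) (Fin N) S)) :
    lam S u v p q Z = ∑ a, ∑ b, algebraMap K S (u a * v b) * Z a b p q := rfl

theorem lam_eq {s N : ℕ} {K : Type*} [Field K] (S : Type*) [CommRing S] [Algebra K S]
    (u v : Fin s → K) (p q : Fin N) (Z : Matrix (Fin s) (Fin s) (Matrix (Fin N) (Fin N) S)) :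
    lam S u v p q Z = (∑ a, ∑ b, (u a * v b) • Z a b) p q := by
  rw [lam_apply, Matrix.sum_apply]
  refine Finset.sum_congr rfl fun a _ => ?_
  rw [Matrix.sum_apply]
  refine Finset.sum_congr rfl fun b _ => ?_
  rw [Matrix.smul_apply, Algebra.smul_def]

theorem lam_ev1 {s N : ℕ} {K : Type*} [Field K] (u v : Fin s → K) (p q : Fin N)
    (Z : Matrix (Fin s) (Fin s) (Matrix (Fin N) (Fin N) K[X])) :
    lam K u v p q (ev1 s N K Z) = (lam K[X] u v p q Z).eval 1 := by
  rw [lam_apply, lam_apply, eval_finsetSum]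
  refine Finset.sum_congr rfl fun a _ => ?_
  rw [eval_finsetSum]
  refine Finset.sum_congr rfl fun b _ => ?_
  rw [eval_mul, ev1_apply]
  congr 1
  simp [Polynomial.algebraMap_eq]

variable {K : Type*} [Field K] {n s : ℕ}
variable (A0 : Matrix (Fin s) (Fin s) K) (A : Fin n → Matrix (Fin s) (Fin s) K)

theorem lam_adj (hA0 : IsUnit A0.det) (u v : Fin s → K) (h : ∀ k, fp A0 A u v k = 0) (N : ℕ)
    (Y1 : Fin n → Matrix (Fin N) (Fin N) K[X]) (p q : Fin N) :
    lam K[X] u v p q (adj2 (pen A0 A ((X : K[X]) • Y1))) = 0 := by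
  set Q := adj2 (pen A0 A ((X : K[X]) • Y1)) with hQ
  have hz : ∀ j, lam K[X] u v p q (GR A0 A Y1 j) = 0 := by
    intro j
    rw [lam_eq, ← lift_fp A0 A u v Y1 j, h j, map_zero, Matrix.zero_apply]
  have hdvd : ∀ J : ℕ, (X ^ (J + 1) : K[X]) ∣ lam K[X] u v p q Q := by
    intro J
    have h1 := pen_mul_sum A0 A hA0 ((X : K[X]) • Y1) J
    have h2 : Q * (pen A0 A ((X : K[X]) • Y1) *
        ∑ j ∈ Finset.range (J + 1), GR A0 A ((X : K[X]) • Y1) j) =
        det2 (pen A0 A ((X : K[X]) • Y1)) •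
          ∑ j ∈ Finset.range (J + 1), (X ^ j : K[X]) • GR A0 A Y1 j := by
      rw [← mul_assoc, hQ, adj2_mul, smul_mul_assoc, one_mul]
      simp only [GR_smul]
    rw [h1, mul_add, mul_one, GR_smul, lin_smul, smul_mul_assoc, mul_smul_comm, mul_smul_comm,
      mul_smul_comm, smul_smul] at h2
    have h3 := congrArg (lam K[X] u v p q) h2
    rw [map_add, map_smul, map_smul, map_sum] at h3
    have h4 : ∑ j ∈ Finset.range (J + 1), lam K[X] u v p q ((X ^ j : K[X]) • GR A0 A Y1 j) = 0 :=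
      Finset.sum_eq_zero fun j _ => by rw [map_smul, hz j, smul_zero]
    rw [h4, smul_zero] at h3
    refine ⟨-lam K[X] u v p q (Q * (lin A Y1 * GR A0 A Y1 J)), ?_⟩
    have h5 : lam K[X] u v p q Q = -((X * X ^ J : K[X]) •
        lam K[X] u v p q (Q * (lin A Y1 * GR A0 A Y1 J))) := eq_neg_of_add_eq_zero_left h3
    rw [h5, smul_eq_mul]
    ring
  by_contra hne
  obtain ⟨z, hz2⟩ := hdvd (lam K[X] u v p q Q).natDegree
  have hz0 : z ≠ 0 := by
    rintro rfl
    rw [mul_zero] at hz2
    exact hne hz2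
  have h1 := congrArg natDegree hz2
  rw [natDegree_mul (pow_ne_zero _ X_ne_zero) hz0, natDegree_X_pow] at h1
  omega

/-- If all homogeneous parts vanish, then the rational function vanishes wherever it is defined. -/
theorem val_zero (hA0 : IsUnit A0.det) (u v : Fin s → K) (h : ∀ k, fp A0 A u v k = 0) (N : ℕ)
    (Y : Fin n → Matrix (Fin N) (Fin N) K) (hY : IsUnit (pen A0 A Y)) :
    val A0 A u v Y = 0 := by
  classical
  let Y1 : Fin n → Matrix (Fin N) (Fin N) K[X] := fun i => (Y i).map C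
  set P := pen A0 A ((X : K[X]) • Y1) with hP
  have hev : ev1 s N K P = pen A0 A Y := by
    ext a b p q
    rw [ev1_apply, hP, pen, pen, Matrix.of_apply, Matrix.of_apply, Matrix.add_apply,
      Matrix.add_apply, Matrix.sum_apply, Matrix.sum_apply, eval_add, eval_finsetSum,
      Matrix.algebraMap_matrix_apply, Matrix.algebraMap_matrix_apply]
    congr 1
    · split_ifs
      · simp [Polynomial.algebraMap_eq]
      · simp
    · refine Finset.sum_congr rfl fun i _ => ?_
      rw [Matrix.smul_apply, Matrix.smul_apply, Pi.smul_apply, Matrix.smul_apply]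
      simp [Y1, Polynomial.smul_eq_C_mul]
  have hd : IsUnit (det2 (pen A0 A Y)) := det2_unit _ hY
  have h1 : ev1 s N K (adj2 P) * pen A0 A Y =
      det2 (pen A0 A Y) • (1 : Matrix (Fin s) (Fin s) (Matrix (Fin N) (Fin N) K)) := by
    rw [← hev, ← map_mul, adj2_mul, det2_ev1]
    ext a b p q
    rw [ev1_apply, Matrix.smul_apply, Matrix.smul_apply, Matrix.smul_apply, Matrix.smul_apply,
      smul_eq_mul, smul_eq_mul, eval_mul]
    congr 1
    rw [← ev1_apply, map_one]
  have h2 : ev1 s N K (adj2 P) = det2 (pen A0 A Y) • Ring.inverse (pen A0 A Y) := by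
    have h3 := congrArg (fun Z => Z * Ring.inverse (pen A0 A Y)) h1
    rw [mul_assoc, Ring.mul_inverse_cancel _ hY, mul_one, smul_mul_assoc, one_mul] at h3
    exact h3
  ext p q
  have h4 : lam K u v p q (Ring.inverse (pen A0 A Y)) = 0 := by
    have h5 := lam_ev1 u v p q (adj2 P)
    rw [lam_adj A0 A hA0 u v h N Y1 p q, eval_zero, h2, map_smul, smul_eq_mul] at h5
    rcases mul_eq_zero.1 h5 with h6 | h6
    · exact absurd h6 hd.ne_zero
    · exact h6
  rw [lam_eq] at h4
  exact h4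

end Pool.Agent.NCP
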