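import Mathlib
import Pool.Agent.NCP.Van

/-!
NCP: one explicit nilpotent tuple for all rational functions regular at the origin.
-/

namespace Pool.Agent.NCP

open Polynomial

/-- The nilpotent Jordan block. -/
def jor (K : Type*) [Field K] (t : ℕ) : Matrix (Fin t) (Fin t) K :=
  Matrix.of fun a b => if (a : ℕ) = (b : ℕ) + 1 then 1 else 0

/-- The explicit tuple: Kronecker product of `hyp K M i` and the nilpotent Jordan block of size
`t`. The entry in row `(m, a)` and column `(l, b)` is `(i + 1) ^ (m - l) / m` if `l < m` and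
`a = b + 1`, and `0` otherwise. -/
noncomputable def tup (K : Type*) [Field K] {n : ℕ} (M t : ℕ) (i : Fin n) :
    Matrix (Fin (M + 1) × Fin t) (Fin (M + 1) × Fin t) K :=
  Matrix.of fun p q => if q.1 < p.1 ∧ (p.2 : ℕ) = (q.2 : ℕ) + 1 then
    ((i : ℕ) + 1 : K) ^ ((p.1 : ℕ) - (q.1 : ℕ)) / ((p.1 : ℕ) : K) else 0

variable {K : Type*} [Field K] {n s : ℕ}

theorem tup_eq (M t : ℕ) (i : Fin n) :
    tup K M t i = Matrix.kronecker (hyp K M i) (jor K t) := by
  ext ⟨m, a⟩ ⟨l, b⟩
  rw [tup, Matrix.of_apply, Matrix.kronecker, Matrix.kroneckerMap_apply, hyp, jor,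
    Matrix.of_apply, Matrix.of_apply]
  by_cases h1 : l < m
  · by_cases h2 : (a : ℕ) = (b : ℕ) + 1
    · simp [h1, h2]
    · simp [h1, h2]
  · simp [h1]

theorem jor_pow (t k : ℕ) (a b : Fin t) :
    (jor K t ^ k) a b = if (a : ℕ) = (b : ℕ) + k then 1 else 0 := by
  induction k generalizing a b with
  | zero =>
    rw [pow_zero, Matrix.one_apply]
    by_cases h : a = b
    · subst h; simp
    · rw [if_neg h, if_neg]
      intro h'
      exact h (Fin.ext (by simpa using h'))
  | succ k ih =>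
    rw [pow_succ', Matrix.mul_apply]
    simp only [ih]
    by_cases h : (a : ℕ) = (b : ℕ) + (k + 1)
    · rw [if_pos h]
      have hlt : (b : ℕ) + k < t := by have := a.2; omega
      rw [Finset.sum_eq_single (⟨(b : ℕ) + k, hlt⟩ : Fin t)]
      · rw [jor, Matrix.of_apply, if_pos (by simp only []; omega), if_pos rfl, one_mul]
      · intro c _ hc
        rw [if_neg, mul_zero]
        intro h'
        exact hc (Fin.ext h')
      · intro h'; exact absurd (Finset.mem_univ _) h'
    · rw [if_neg h]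
      refine Finset.sum_eq_zero fun c _ => ?_
      rw [jor, Matrix.of_apply]
      by_cases h1 : (a : ℕ) = (c : ℕ) + 1
      · rw [if_neg (by omega : ¬ (c : ℕ) = (b : ℕ) + k), mul_zero]
      · rw [if_neg h1, zero_mul]

variable (A0 : Matrix (Fin s) (Fin s) K) (A : Fin n → Matrix (Fin s) (Fin s) K)

theorem lin_GR_tup (M t j : ℕ)
    (hG : ∀ a b, GR A0 A (tup K M t) j a b =
      Matrix.kronecker (GR A0 A (hyp K M) j a b) (jor K t ^ j)) (a b : Fin s) :
    (lin A (tup K M t) * GR A0 A (tup K M t) j) a b =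
      Matrix.kronecker ((lin A (hyp K M) * GR A0 A (hyp K M) j) a b) (jor K t ^ (j + 1)) := by
  rw [Matrix.mul_apply, Matrix.mul_apply]
  have h1 : ∀ c ∈ (Finset.univ : Finset (Fin s)), lin A (tup K M t) a c *
      GR A0 A (tup K M t) j c b = Matrix.kronecker (lin A (hyp K M) a c *
        GR A0 A (hyp K M) j c b) (jor K t ^ (j + 1)) := by
    intro c _
    rw [hG, lin, lin, Matrix.of_apply, Matrix.of_apply]
    have h2 : ∑ i, A i a c • tup K M t i =
        Matrix.kronecker (∑ i, A i a c • hyp K M i) (jor K t) := by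
      ext ⟨m, a'⟩ ⟨l, b'⟩
      simp only [Matrix.sum_apply, Matrix.smul_apply, tup_eq, Matrix.kronecker,
        Matrix.kroneckerMap_apply, smul_eq_mul, Finset.sum_mul, mul_assoc]
    rw [h2, pow_succ']
    exact (Matrix.mul_kronecker_mul _ _ _ _).symm
  rw [Finset.sum_congr rfl h1]
  ext ⟨m, a'⟩ ⟨l, b'⟩
  simp only [Matrix.sum_apply, Matrix.kronecker, Matrix.kroneckerMap_apply, Finset.sum_mul]

theorem GR_succ_apply {R : Type*} [Ring R] [Algebra K R] (Y : Fin n → R) (j : ℕ) (a b : Fin s) :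
    GR A0 A Y (j + 1) a b = -∑ c, A0⁻¹ a c • (lin A Y * GR A0 A Y j) c b := by
  rw [GR, Matrix.neg_apply, Matrix.mul_apply]
  congr 1
  refine Finset.sum_congr rfl fun c _ => ?_
  rw [scal, Matrix.map_apply, ← Algebra.smul_def]

theorem GR_tup (M t j : ℕ) (a b : Fin s) :
    GR A0 A (tup K M t) j a b =
      Matrix.kronecker (GR A0 A (hyp K M) j a b) (jor K t ^ j) := by
  induction j generalizing a b with
  | zero =>
    ext ⟨m, a'⟩ ⟨l, b'⟩
    rw [GR, GR, scal, scal, Matrix.map_apply, Matrix.map_apply, pow_zero, Matrix.kronecker,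
      Matrix.kroneckerMap_apply, Matrix.algebraMap_matrix_apply, Matrix.algebraMap_matrix_apply,
      Matrix.one_apply]
    by_cases h1 : m = l
    · by_cases h2 : a' = b'
      · simp [h1, h2]
      · simp [h1, h2]
    · simp [h1]
  | succ j ih =>
    have h := lin_GR_tup A0 A M t j ih
    ext ⟨m, a'⟩ ⟨l, b'⟩
    rw [GR_succ_apply, GR_succ_apply, Matrix.kronecker, Matrix.kroneckerMap_apply,
      Matrix.neg_apply, Matrix.neg_apply, Matrix.sum_apply, Matrix.sum_apply, neg_mul, neg_inj,
      Finset.sum_mul]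
    refine Finset.sum_congr rfl fun c _ => ?_
    rw [h, Matrix.smul_apply, Matrix.smul_apply, Matrix.kronecker,
      Matrix.kroneckerMap_apply, smul_eq_mul, smul_eq_mul, mul_assoc]

theorem pen_tup (hA0 : IsUnit A0.det) (M t : ℕ) :
    pen A0 A (tup K M t) * (∑ j ∈ Finset.range (M + 1), GR A0 A (tup K M t) j) = 1 := by
  have h := pen_mul_sum A0 A hA0 (tup K (n := n) M t) M
  rw [h]
  have h2 : lin A (tup K M t) * GR A0 A (tup K M t) M = 0 := by
    ext a b ⟨m, a'⟩ ⟨l, b'⟩
    rw [lin_GR_tup A0 A M t M (GR_tup A0 A M t M), lin_GR_zero]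
    simp [Matrix.kronecker]
  rw [h2, add_zero]

theorem val_tup (hA0 : IsUnit A0.det) (u v : Fin s → K) (M t : ℕ)
    (hu : IsUnit (pen A0 A (tup K M t))) (m l : Fin (M + 1)) (a' b' : Fin t) :
    val A0 A u v (tup K M t) (m, a') (l, b') =
      ∑ j ∈ Finset.range (M + 1), (FreeAlgebra.lift K (hyp K M) (fp A0 A u v j)) m l *
        (jor K t ^ j) a' b' := by
  have h0 := pen_tup A0 A hA0 M t
  have h2 := Ring.inverse_mul_cancel _ hu
  have h1 : Ring.inverse (pen A0 A (tup K M t)) =
      ∑ j ∈ Finset.range (M + 1), GR A0 A (tup K M t) j := by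
    calc Ring.inverse (pen A0 A (tup K M t)) =
        Ring.inverse (pen A0 A (tup K M t)) * (pen A0 A (tup K M t) *
          (∑ j ∈ Finset.range (M + 1), GR A0 A (tup K M t) j)) := by rw [h0, mul_one]
      _ = _ := by rw [← mul_assoc, h2, one_mul]
  rw [val, h1]
  simp only [lift_fp, Matrix.sum_apply, Matrix.smul_apply, GR_tup, Matrix.kronecker,
    Matrix.kroneckerMap_apply, Finset.smul_sum, Finset.sum_mul]
  rw [Finset.sum_congr rfl fun a _ => Finset.sum_comm]
  rw [Finset.sum_comm]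
  refine Finset.sum_congr rfl fun j _ => Finset.sum_congr rfl fun a _ =>
    Finset.sum_congr rfl fun b _ => ?_
  simp only [smul_eq_mul, mul_assoc]

/-- **One tuple detects all nonzero series of rank at most `t`.** -/
theorem fp_zero_of_tup [CharZero K] (hA0 : IsUnit A0.det) (u v : Fin s → K) (t M : ℕ)
    (hst : s ≤ t) (hM : n * t ^ 4 ≤ M) (hu : IsUnit (pen A0 A (tup K M t)))
    (h : val A0 A u v (tup K (n := n) M t) = 0) : ∀ k, fp A0 A u v k = 0 := by
  by_contra hcon
  push Not at hcon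
  obtain ⟨k, hks, hk⟩ := exists_small A0 A u v hcon
  obtain ⟨V, h1, h2, h3, h4⟩ := fp_space A0 A u v k
  have h5 : Module.finrank K V ≤ t ^ 2 := by
    refine h2.trans ?_
    rw [sq]
    exact Nat.mul_le_mul hst (by omega)
  obtain ⟨m, hm⟩ := hit_of_space V (t ^ 2) h5 h3 _ h4 hk M (by
    rw [← pow_mul]
    exact hM)
  apply hm
  have hkt : k < t := by omega
  have h6 := val_tup A0 A hA0 u v M t hu m 0 ⟨k, hkt⟩ ⟨0, by omega⟩
  rw [h] at h6
  simp only [jor_pow, Matrix.zero_apply, zero_add] at h6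
  by_cases hkM : k ≤ M
  · rw [Finset.sum_eq_single k] at h6
    · simpa using h6.symm
    · intro j _ hj
      rw [if_neg (fun h' => hj h'.symm), mul_zero]
    · intro h'
      exact absurd (Finset.mem_range.2 (by omega)) h'
  · rw [lift_fp, GR_zero A0 A M k (by omega)]
    simp

end Pool.Agent.NCP
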