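import Mathlib
import Pool.Agent.NCP.Tup

/-!
NCP: noncommutative rational formulas (with inversion gates) and their linearisation.
-/

namespace Pool.Agent.NCP

universe u

/-- Noncommutative rational formulas in `n` variables over `K`: leaves are constants and
variables, gates are sums, products and inversions. -/
inductive RExp (K : Type u) (n : ℕ) : Type u
  | const (c : K) : RExp K n
  | var (i : Fin n) : RExp K n
  | add (a b : RExp K n) : RExp K n
  | mul (a b : RExp K n) : RExp K n
  | inv (a : RExp K n) : RExp K n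

namespace RExp

variable {K : Type u} {n : ℕ}

/-- The number of leaves and gates. -/
def size : RExp K n → ℕ
  | const _ => 1
  | var _ => 1
  | add a b => a.size + b.size + 1
  | mul a b => a.size + b.size + 1
  | inv a => a.size + 1

/-- The value at elements `Y` of a `K`-algebra `R` (meaningful if the formula is defined). -/
noncomputable def eval [Field K] {R : Type*} [Ring R] [Algebra K R] (Y : Fin n → R) :
    RExp K n → R
  | const c => algebraMap K R c
  | var i => Y i
  | add a b => a.eval Y + b.eval Y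
  | mul a b => a.eval Y * b.eval Y
  | inv a => Ring.inverse (a.eval Y)

/-- The formula is defined at `Y`: all inverted values are invertible. -/
def Defined [Field K] {R : Type*} [Ring R] [Algebra K R] (Y : Fin n → R) : RExp K n → Prop
  | const _ => True
  | var _ => True
  | add a b => a.Defined Y ∧ b.Defined Y
  | mul a b => a.Defined Y ∧ b.Defined Y
  | inv a => a.Defined Y ∧ IsUnit (a.eval Y)

end RExp

variable {K : Type u} [Field K] {n : ℕ}

/-! ### Linearisation -/

/-- Pencils with arbitrary index type. -/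
noncomputable def penG {ι : Type} {R : Type*} [Ring R] [Algebra K R]
    (A0 : Matrix ι ι K) (A : Fin n → Matrix ι ι K) (Y : Fin n → R) : Matrix ι ι R :=
  Matrix.of fun a b => algebraMap K R (A0 a b) + ∑ i, A i a b • Y i

/-- Row vector. -/
noncomputable def rowM {ι : Type} (R : Type*) [Ring R] [Algebra K R] (u : ι → K) :
    Matrix Unit ι R := Matrix.of fun _ a => algebraMap K R (u a)

/-- Column vector. -/
noncomputable def colM {ι : Type} (R : Type*) [Ring R] [Algebra K R] (v : ι → K) :
    Matrix ι Unit R := Matrix.of fun a _ => algebraMap K R (v a)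

/-- One by one matrix. -/
def oneM {R : Type*} (x : R) : Matrix Unit Unit R := Matrix.of fun _ _ => x

/-- The pencil represents `x` at `Y`. -/
def Rep {ι : Type} [Fintype ι] [DecidableEq ι] {R : Type*} [Ring R] [Algebra K R]
    (A0 : Matrix ι ι K) (A : Fin n → Matrix ι ι K) (u v : ι → K) (Y : Fin n → R) (x : R) : Prop :=
  ∃ B : Matrix ι ι R, penG A0 A Y * B = 1 ∧ B * penG A0 A Y = 1 ∧
    rowM R u * B * colM R v = oneM x

theorem rep_const (c : K) {R : Type*} [Ring R] [Algebra K R] (Y : Fin n → R) :
    Rep (ι := Unit) (1 : Matrix Unit Unit K) (fun _ => 0) (fun _ => c) (fun _ => 1) Y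
      (algebraMap K R c) := by
  refine ⟨1, ?_, ?_, ?_⟩
  · ext a b
    simp [penG]
  · ext a b
    simp [penG]
  · ext a b
    simp [rowM, colM, oneM, Matrix.mul_apply]

theorem rep_var (i : Fin n) {R : Type*} [Ring R] [Algebra K R] (Y : Fin n → R) :
    Rep (ι := Fin 2) (1 : Matrix (Fin 2) (Fin 2) K)
      (fun j => if j = i then !![0, -1; 0, 0] else 0) ![1, 0] ![0, 1] Y (Y i) := by
  have hP : penG (1 : Matrix (Fin 2) (Fin 2) K)
      (fun j => if j = i then !![0, -1; 0, 0] else 0) Y = !![1, -Y i; 0, 1] := by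
    have h1 : ∀ a b : Fin 2, ∑ j, (if j = i then (!![0, -1; 0, 0] : Matrix (Fin 2) (Fin 2) K)
        else 0) a b • Y j = (!![0, -1; 0, 0] : Matrix (Fin 2) (Fin 2) K) a b • Y i := by
      intro a b
      rw [Finset.sum_eq_single i]
      · rw [if_pos rfl]
      · intro j _ hj
        rw [if_neg hj]
        simp
      · intro h; exact absurd (Finset.mem_univ _) h
    ext a b
    rw [penG, Matrix.of_apply, h1]
    fin_cases a <;> fin_cases b <;> simp
  refine ⟨!![1, Y i; 0, 1], ?_, ?_, ?_⟩
  · rw [hP]
    ext a b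
    fin_cases a <;> fin_cases b <;> simp [Matrix.mul_apply, Fin.sum_univ_two]
  · rw [hP]
    ext a b
    fin_cases a <;> fin_cases b <;> simp [Matrix.mul_apply, Fin.sum_univ_two]
  · ext a b
    simp [rowM, colM, oneM, Matrix.mul_apply, Fin.sum_univ_two]

section comb

variable {ι κ : Type} [Fintype ι] [DecidableEq ι] [Fintype κ] [DecidableEq κ]
variable {R : Type*} [Ring R] [Algebra K R]
variable (A0 : Matrix ι ι K) (A : Fin n → Matrix ι ι K) (u v : ι → K)
variable (B0 : Matrix κ κ K) (B : Fin n → Matrix κ κ K) (u' v' : κ → K)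

theorem penG_blocks (E : Matrix ι κ K) (F : Matrix κ ι K) (Y : Fin n → R) :
    penG (Matrix.fromBlocks A0 E F B0) (fun i => Matrix.fromBlocks (A i) 0 0 (B i)) Y =
      Matrix.fromBlocks (penG A0 A Y) (E.map (algebraMap K R)) (F.map (algebraMap K R))
        (penG B0 B Y) := by
  ext a b
  rcases a with a | a <;> rcases b with b | b <;> simp [penG]

theorem rep_add (Y : Fin n → R) (x y : R) (hx : Rep A0 A u v Y x) (hy : Rep B0 B u' v' Y y) :
    Rep (Matrix.fromBlocks A0 0 0 B0) (fun i => Matrix.fromBlocks (A i) 0 0 (B i))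
      (Sum.elim u u') (Sum.elim v v') Y (x + y) := by
  obtain ⟨P, hP1, hP2, hP3⟩ := hx
  obtain ⟨Q, hQ1, hQ2, hQ3⟩ := hy
  have h0 : (0 : Matrix ι κ K).map (algebraMap K R) = 0 := by ext; simp
  have h0' : (0 : Matrix κ ι K).map (algebraMap K R) = 0 := by ext; simp
  refine ⟨Matrix.fromBlocks P 0 0 Q, ?_, ?_, ?_⟩
  · rw [penG_blocks, Matrix.fromBlocks_multiply, h0, h0']
    simp [hP1, hQ1]
  · rw [penG_blocks, Matrix.fromBlocks_multiply, h0, h0']
    simp [hP2, hQ2]
  · have h3 := congrFun (congrFun hP3 ()) ()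
    have h4 := congrFun (congrFun hQ3 ()) ()
    ext a b
    simp only [oneM, Matrix.of_apply] at h3 h4 ⊢
    rw [← h3, ← h4]
    simp [rowM, colM, Matrix.mul_apply, Fintype.sum_sum_type]

theorem rep_mul (Y : Fin n → R) (x y : R) (hx : Rep A0 A u v Y x) (hy : Rep B0 B u' v' Y y) :
    Rep (Matrix.fromBlocks A0 (Matrix.of fun a b => -(v a * u' b)) 0 B0)
      (fun i => Matrix.fromBlocks (A i) 0 0 (B i))
      (Sum.elim u 0) (Sum.elim 0 v') Y (x * y) := by
  obtain ⟨P, hP1, hP2, hP3⟩ := hx
  obtain ⟨Q, hQ1, hQ2, hQ3⟩ := hy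
  have h0' : (0 : Matrix κ ι K).map (algebraMap K R) = 0 := by ext; simp
  have hE : (Matrix.of fun a b => -(v a * u' b) : Matrix ι κ K).map (algebraMap K R) =
      -(colM R v * rowM R u') := by
    ext a b
    simp [colM, rowM, Matrix.mul_apply]
  refine ⟨Matrix.fromBlocks P (P * (colM R v * rowM R u') * Q) 0 Q, ?_, ?_, ?_⟩
  · rw [penG_blocks, Matrix.fromBlocks_multiply, h0', hE]
    have e1 : penG A0 A Y * (P * (colM R v * rowM R u') * Q) +
        -(colM R v * rowM R u') * Q = 0 := by
      rw [← Matrix.mul_assoc, ← Matrix.mul_assoc, hP1, Matrix.one_mul, Matrix.neg_mul,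
        add_neg_cancel]
    rw [e1]
    simp [hP1, hQ1]
  · rw [penG_blocks, Matrix.fromBlocks_multiply, h0', hE]
    have e1 : P * -(colM R v * rowM R u') + P * (colM R v * rowM R u') * Q * penG B0 B Y = 0 := by
      rw [Matrix.mul_assoc _ Q, hQ2, Matrix.mul_one, Matrix.mul_neg, neg_add_cancel]
    rw [e1]
    simp [hP2, hQ2]
  · have h3 := congrFun (congrFun hP3 ()) ()
    have h4 := congrFun (congrFun hQ3 ()) ()
    have h5 : rowM R (Sum.elim u (0 : κ → K)) *
        Matrix.fromBlocks P (P * (colM R v * rowM R u') * Q) 0 Q *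
        colM R (Sum.elim (0 : ι → K) v') =
        (rowM R u * P * colM R v) * (rowM R u' * Q * colM R v') := by
      have e1 : (rowM R u * P * colM R v) * (rowM R u' * Q * colM R v') =
          rowM R u * (P * (colM R v * rowM R u') * Q) * colM R v' := by
        simp only [Matrix.mul_assoc]
      rw [e1]
      ext a b
      simp [rowM, colM, Matrix.mul_apply, Fintype.sum_sum_type]
    rw [h5, hP3, hQ3]
    ext a b
    simp [oneM, Matrix.mul_apply]

theorem rep_inv (Y : Fin n → R) (x y : R) (hx : Rep A0 A u v Y x) (hxy : x * y = 1)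
    (hyx : y * x = 1) :
    Rep (Matrix.fromBlocks A0 (Matrix.of fun a _ => v a) (Matrix.of fun _ a => u a)
        (0 : Matrix Unit Unit K))
      (fun i => Matrix.fromBlocks (A i) 0 0 0)
      (Sum.elim 0 (fun _ => -1)) (Sum.elim 0 (fun _ => 1)) Y y := by
  obtain ⟨P, hP1, hP2, hP3⟩ := hx
  have hE : (Matrix.of fun a _ => v a : Matrix ι Unit K).map (algebraMap K R) = colM R v := by
    ext a b; simp [colM]
  have hF : (Matrix.of fun _ a => u a : Matrix Unit ι K).map (algebraMap K R) = rowM R u := by
    ext a b; simp [rowM]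
  have h0 : penG (0 : Matrix Unit Unit K) (fun _ => 0) Y = 0 := by
    ext a b; simp [penG]
  have hb : penG (Matrix.fromBlocks A0 (Matrix.of fun a _ => v a) (Matrix.of fun _ a => u a)
        (0 : Matrix Unit Unit K)) (fun i => Matrix.fromBlocks (A i) 0 0 0) Y =
      Matrix.fromBlocks (penG A0 A Y) (colM R v) (rowM R u) 0 := by
    rw [← hE, ← hF, ← h0]
    exact penG_blocks A0 A (0 : Matrix Unit Unit K) (fun _ => 0) _ _ Y
  have hXY : oneM x * oneM y = (1 : Matrix Unit Unit R) := by
    ext a b; simp [oneM, Matrix.mul_apply, hxy]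
  have hYX : oneM y * oneM x = (1 : Matrix Unit Unit R) := by
    ext a b; simp [oneM, Matrix.mul_apply, hyx]
  set Z := oneM y with hZ
  refine ⟨Matrix.fromBlocks (P - P * colM R v * Z * (rowM R u * P)) (P * colM R v * Z)
    (Z * (rowM R u * P)) (-Z), ?_, ?_, ?_⟩
  · rw [hb, Matrix.fromBlocks_multiply, ← Matrix.fromBlocks_one]
    have e1 : penG A0 A Y * (P - P * colM R v * Z * (rowM R u * P)) +
        colM R v * (Z * (rowM R u * P)) = 1 := by
      rw [Matrix.mul_sub, hP1]
      have : penG A0 A Y * (P * colM R v * Z * (rowM R u * P)) =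
          (penG A0 A Y * P) * (colM R v * (Z * (rowM R u * P))) := by
        simp only [Matrix.mul_assoc]
      rw [this, hP1, Matrix.one_mul, sub_add_cancel]
    have e2 : penG A0 A Y * (P * colM R v * Z) + colM R v * -Z = 0 := by
      have : penG A0 A Y * (P * colM R v * Z) = (penG A0 A Y * P) * (colM R v * Z) := by
        simp only [Matrix.mul_assoc]
      rw [this, hP1, Matrix.one_mul, Matrix.mul_neg, add_neg_cancel]
    have e3 : rowM R u * (P - P * colM R v * Z * (rowM R u * P)) +
        (0 : Matrix Unit Unit R) * (Z * (rowM R u * P)) = 0 := by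
      rw [Matrix.mul_sub]
      have : rowM R u * (P * colM R v * Z * (rowM R u * P)) =
          (rowM R u * P * colM R v) * Z * (rowM R u * P) := by
        simp only [Matrix.mul_assoc]
      rw [this, hP3, hXY, Matrix.one_mul, sub_self, Matrix.zero_mul, add_zero]
    have e4 : rowM R u * (P * colM R v * Z) + (0 : Matrix Unit Unit R) * -Z = 1 := by
      have : rowM R u * (P * colM R v * Z) = (rowM R u * P * colM R v) * Z := by
        simp only [Matrix.mul_assoc]
      rw [this, hP3, hXY, Matrix.zero_mul, add_zero]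
    rw [e1, e2, e3, e4]
  · rw [hb, Matrix.fromBlocks_multiply, ← Matrix.fromBlocks_one]
    have e1 : (P - P * colM R v * Z * (rowM R u * P)) * penG A0 A Y +
        P * colM R v * Z * rowM R u = 1 := by
      rw [Matrix.sub_mul, hP2]
      have : P * colM R v * Z * (rowM R u * P) * penG A0 A Y =
          P * colM R v * Z * (rowM R u * (P * penG A0 A Y)) := by
        simp only [Matrix.mul_assoc]
      rw [this, hP2, Matrix.mul_one, sub_add_cancel]
    have e2 : (P - P * colM R v * Z * (rowM R u * P)) * colM R v +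
        P * colM R v * Z * (0 : Matrix Unit Unit R) = 0 := by
      rw [Matrix.sub_mul]
      have : P * colM R v * Z * (rowM R u * P) * colM R v =
          P * colM R v * (Z * (rowM R u * P * colM R v)) := by
        simp only [Matrix.mul_assoc]
      rw [this, hP3, hYX, Matrix.mul_one, sub_self, Matrix.mul_zero, add_zero]
    have e3 : Z * (rowM R u * P) * penG A0 A Y + -Z * rowM R u = 0 := by
      have : Z * (rowM R u * P) * penG A0 A Y = Z * (rowM R u * (P * penG A0 A Y)) := by
        simp only [Matrix.mul_assoc]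
      rw [this, hP2, Matrix.mul_one, Matrix.neg_mul, add_neg_cancel]
    have e4 : Z * (rowM R u * P) * colM R v + -Z * (0 : Matrix Unit Unit R) = 1 := by
      have : Z * (rowM R u * P) * colM R v = Z * (rowM R u * P * colM R v) := by
        simp only [Matrix.mul_assoc]
      rw [this, hP3, hYX, Matrix.mul_zero, add_zero]
    rw [e1, e2, e3, e4]
  · ext a b
    simp [rowM, colM, oneM, hZ, Matrix.mul_apply, Fintype.sum_sum_type]

end comb

end Pool.Agent.NCP
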