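import Mathlib
import Pool.Agent.NCP.RExp

/-!
NCP: rational formulas regular at the origin are detected by one explicit tuple.
-/

namespace Pool.Agent.NCP

universe u

variable {K : Type u} [Field K] {n : ℕ}

/-- Linearisation of a rational formula. -/
theorem linearise (φ : RExp K n) : ∃ (ι : Type) (_ : Fintype ι) (_ : DecidableEq ι)
    (A0 : Matrix ι ι K) (A : Fin n → Matrix ι ι K) (u v : ι → K),
    Fintype.card ι ≤ 2 * φ.size ∧ ∀ (R : Type u) [Ring R] [Algebra K R] (Y : Fin n → R),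
      φ.Defined Y → Rep A0 A u v Y (φ.eval Y) := by
  induction φ with
  | const c =>
    exact ⟨Unit, inferInstance, inferInstance, 1, fun _ => 0, fun _ => c, fun _ => 1,
      by simp [RExp.size], fun R _ _ Y _ => rep_const c Y⟩
  | var i =>
    exact ⟨Fin 2, inferInstance, inferInstance, 1,
      fun j => if j = i then !![0, -1; 0, 0] else 0, ![1, 0], ![0, 1],
      by simp [RExp.size], fun R _ _ Y _ => rep_var i Y⟩
  | add a b iha ihb =>
    obtain ⟨ι, i1, i2, A0, A, u, v, hc, hA⟩ := iha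
    obtain ⟨κ, k1, k2, B0, B, u', v', hc', hB⟩ := ihb
    refine ⟨ι ⊕ κ, inferInstance, inferInstance, Matrix.fromBlocks A0 0 0 B0,
      fun i => Matrix.fromBlocks (A i) 0 0 (B i), Sum.elim u u', Sum.elim v v', ?_, ?_⟩
    · rw [Fintype.card_sum, RExp.size]; omega
    · intro R _ _ Y hY
      exact rep_add A0 A u v B0 B u' v' Y _ _ (hA R Y hY.1) (hB R Y hY.2)
  | mul a b iha ihb =>
    obtain ⟨ι, i1, i2, A0, A, u, v, hc, hA⟩ := iha
    obtain ⟨κ, k1, k2, B0, B, u', v', hc', hB⟩ := ihb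
    refine ⟨ι ⊕ κ, inferInstance, inferInstance,
      Matrix.fromBlocks A0 (Matrix.of fun a b => -(v a * u' b)) 0 B0,
      fun i => Matrix.fromBlocks (A i) 0 0 (B i), Sum.elim u 0, Sum.elim 0 v', ?_, ?_⟩
    · rw [Fintype.card_sum, RExp.size]; omega
    · intro R _ _ Y hY
      exact rep_mul A0 A u v B0 B u' v' Y _ _ (hA R Y hY.1) (hB R Y hY.2)
  | inv a iha =>
    obtain ⟨ι, i1, i2, A0, A, u, v, hc, hA⟩ := iha
    refine ⟨ι ⊕ Unit, inferInstance, inferInstance,
      Matrix.fromBlocks A0 (Matrix.of fun a _ => v a) (Matrix.of fun _ a => u a)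
        (0 : Matrix Unit Unit K),
      fun i => Matrix.fromBlocks (A i) 0 0 0, Sum.elim 0 (fun _ => -1), Sum.elim 0 (fun _ => 1),
      ?_, ?_⟩
    · rw [Fintype.card_sum, RExp.size, Fintype.card_unit]; omega
    · intro R _ _ Y hY
      exact rep_inv A0 A u v Y _ _ (hA R Y hY.1) (Ring.mul_inverse_cancel _ hY.2)
        (Ring.inverse_mul_cancel _ hY.2)

/-- Passing to the index type `Fin s`. -/
theorem rep_fin {ι : Type} [Fintype ι] [DecidableEq ι] {R : Type*} [Ring R] [Algebra K R]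
    (A0 : Matrix ι ι K) (A : Fin n → Matrix ι ι K) (u v : ι → K) (Y : Fin n → R) (x : R)
    (h : Rep A0 A u v Y x) (s : ℕ) (e : ι ≃ Fin s) :
    IsUnit (pen (A0.submatrix e.symm e.symm) (fun i => (A i).submatrix e.symm e.symm) Y) ∧
      val (A0.submatrix e.symm e.symm) (fun i => (A i).submatrix e.symm e.symm)
        (u ∘ e.symm) (v ∘ e.symm) Y = x := by
  obtain ⟨B, h1, h2, h3⟩ := h
  have hp : pen (A0.submatrix e.symm e.symm) (fun i => (A i).submatrix e.symm e.symm) Y =
      (penG A0 A Y).submatrix e.symm e.symm := by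
    ext a b
    rfl
  have e1 : pen (A0.submatrix e.symm e.symm) (fun i => (A i).submatrix e.symm e.symm) Y *
      B.submatrix e.symm e.symm = 1 := by
    rw [hp, Matrix.submatrix_mul_equiv, h1, Matrix.submatrix_one_equiv]
  have e2 : B.submatrix e.symm e.symm *
      pen (A0.submatrix e.symm e.symm) (fun i => (A i).submatrix e.symm e.symm) Y = 1 := by
    rw [hp, Matrix.submatrix_mul_equiv, h2, Matrix.submatrix_one_equiv]
  have hu : IsUnit (pen (A0.submatrix e.symm e.symm)
      (fun i => (A i).submatrix e.symm e.symm) Y) := ⟨⟨_, _, e1, e2⟩, rfl⟩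
  refine ⟨hu, ?_⟩
  have hinv : Ring.inverse (pen (A0.submatrix e.symm e.symm)
      (fun i => (A i).submatrix e.symm e.symm) Y) = B.submatrix e.symm e.symm := by
    calc Ring.inverse (pen (A0.submatrix e.symm e.symm)
          (fun i => (A i).submatrix e.symm e.symm) Y) =
        Ring.inverse (pen (A0.submatrix e.symm e.symm)
          (fun i => (A i).submatrix e.symm e.symm) Y) *
          (pen (A0.submatrix e.symm e.symm) (fun i => (A i).submatrix e.symm e.symm) Y *
            B.submatrix e.symm e.symm) := by rw [e1, mul_one]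
      _ = _ := by rw [← mul_assoc, Ring.inverse_mul_cancel _ hu, one_mul]
  rw [val, hinv]
  have h4 := congrFun (congrFun h3 ()) ()
  simp only [oneM, Matrix.of_apply] at h4
  rw [← h4]
  simp only [Matrix.mul_apply, rowM, colM, Matrix.of_apply, Finset.sum_mul,
    Matrix.submatrix_apply, Function.comp_apply]
  rw [Finset.sum_comm]
  rw [← Equiv.sum_comp e]
  refine Finset.sum_congr rfl fun b _ => ?_
  rw [← Equiv.sum_comp e]
  refine Finset.sum_congr rfl fun a _ => ?_
  rw [Equiv.symm_apply_apply, Equiv.symm_apply_apply, Algebra.smul_def, map_mul, mul_assoc,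
    mul_assoc, Algebra.commutes (v b) (B a b)]

/-! ### Triangular matrices -/

/-- `Z` has constant diagonal `c` and its other nonzero entries are strictly below the diagonal in
the first coordinate. -/
def Tri {M t : ℕ} (c : K) (Z : Matrix (Fin (M + 1) × Fin t) (Fin (M + 1) × Fin t) K) : Prop :=
  ∀ p q, ¬ q.1 < p.1 → Z p q = if p = q then c else 0

variable {M t : ℕ}

theorem Tri.add {c c' : K} {Z W : Matrix (Fin (M + 1) × Fin t) (Fin (M + 1) × Fin t) K}
    (hZ : Tri c Z) (hW : Tri c' W) : Tri (c + c') (Z + W) := by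
  intro p q h
  rw [Matrix.add_apply, hZ p q h, hW p q h]
  split_ifs <;> simp

theorem Tri.mul {c c' : K} {Z W : Matrix (Fin (M + 1) × Fin t) (Fin (M + 1) × Fin t) K}
    (hZ : Tri c Z) (hW : Tri c' W) : Tri (c * c') (Z * W) := by
  intro p q h
  rw [Matrix.mul_apply, Finset.sum_eq_single p]
  · rw [hZ p p (lt_irrefl _), if_pos rfl, hW p q h]
    split_ifs <;> simp
  · intro k _ hk
    by_cases h1 : k.1 < p.1
    · have h2 : ¬ q.1 < k.1 := fun h3 => h (h3.trans h1)
      rw [hW k q h2]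
      have h3 : k ≠ q := by
        rintro rfl
        exact h h1
      rw [if_neg h3, mul_zero]
    · rw [hZ p k h1, if_neg (fun h' => hk h'.symm), zero_mul]
  · intro h'; exact absurd (Finset.mem_univ _) h'

theorem tri_const (c : K) :
    Tri c (algebraMap K (Matrix (Fin (M + 1) × Fin t) (Fin (M + 1) × Fin t) K) c) := by
  intro p q _
  rw [Matrix.algebraMap_matrix_apply]
  split_ifs <;> simp

theorem tri_tup (i : Fin n) : Tri 0 (tup K M t i) := by
  intro p q h
  rw [tup, Matrix.of_apply, if_neg (fun h' => h h'.1)]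
  split_ifs <;> rfl

theorem Tri.smul {c : K} (d : K) {Z : Matrix (Fin (M + 1) × Fin t) (Fin (M + 1) × Fin t) K}
    (hZ : Tri c Z) : Tri (d * c) (d • Z) := by
  intro p q h
  rw [Matrix.smul_apply, hZ p q h]
  split_ifs <;> simp

theorem Tri.pow {c : K} {Z : Matrix (Fin (M + 1) × Fin t) (Fin (M + 1) × Fin t) K}
    (hZ : Tri c Z) (k : ℕ) : Tri (c ^ k) (Z ^ k) := by
  induction k with
  | zero =>
    rw [pow_zero, pow_zero]
    have := tri_const (K := K) (M := M) (t := t) 1
    rwa [map_one] at this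
  | succ k ih => rw [pow_succ, pow_succ]; exact ih.mul hZ

theorem Tri.pow_low {Z : Matrix (Fin (M + 1) × Fin t) (Fin (M + 1) × Fin t) K}
    (hZ : Tri 0 Z) (k : ℕ) : ∀ p q : Fin (M + 1) × Fin t, (p.1 : ℕ) < (q.1 : ℕ) + k →
      (Z ^ k) p q = 0 := by
  induction k with
  | zero =>
    intro p q h
    rw [pow_zero, Matrix.one_apply, if_neg]
    rintro rfl
    omega
  | succ k ih =>
    intro p q h
    rw [pow_succ', Matrix.mul_apply]
    refine Finset.sum_eq_zero fun l _ => ?_
    by_cases h1 : l.1 < p.1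
    · have h2 : (l.1 : ℕ) < (p.1 : ℕ) := Fin.lt_def.1 h1
      rw [ih l q (by omega), mul_zero]
    · rw [hZ p l h1]
      simp

theorem Tri.inv {c : K} (hc : c ≠ 0)
    {Z : Matrix (Fin (M + 1) × Fin t) (Fin (M + 1) × Fin t) K} (hZ : Tri c Z) :
    IsUnit Z ∧ Tri c⁻¹ (Ring.inverse Z) := by
  set W := algebraMap K (Matrix (Fin (M + 1) × Fin t) (Fin (M + 1) × Fin t) K) 1 +
    (-c⁻¹) • Z with hW
  have hWt : Tri 0 W := by
    have h1 := (tri_const (K := K) (M := M) (t := t) 1).add (hZ.smul (-c⁻¹))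
    have h2 : (1 : K) + -c⁻¹ * c = 0 := by field_simp; ring
    rwa [h2] at h1
  have hW0 : W ^ (M + 1) = 0 := by
    ext p q
    exact hWt.pow_low (M + 1) p q (by have := p.1.2; omega)
  have hZW : Z = c • (1 - W) := by
    rw [hW, map_one, sub_add_eq_sub_sub, sub_self, zero_sub, neg_smul, neg_neg, smul_smul,
      mul_inv_cancel₀ hc, one_smul]
  set V := c⁻¹ • ∑ k ∈ Finset.range (M + 1), W ^ k with hV
  have hZV : Z * V = 1 := by
    rw [hZW, hV, smul_mul_assoc, mul_smul_comm, smul_smul, mul_inv_cancel₀ hc, one_smul,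
      mul_neg_geom_sum, hW0, sub_zero]
  have hVt : Tri c⁻¹ V := by
    have h1 : ∀ N : ℕ, Tri (∑ k ∈ Finset.range N, (0 : K) ^ k)
        (∑ k ∈ Finset.range N, W ^ k) := by
      intro N
      induction N with
      | zero =>
        intro p q _
        simp
      | succ N ih =>
        rw [Finset.sum_range_succ, Finset.sum_range_succ]
        exact ih.add (hWt.pow N)
    have h2 := (h1 (M + 1)).smul c⁻¹
    have h3 : ∑ k ∈ Finset.range (M + 1), (0 : K) ^ k = 1 := by
      rw [Finset.sum_range_succ']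
      simp
    rwa [h3, mul_one] at h2
  have hu : IsUnit Z := IsUnit.of_mul_eq_one _ hZV
  refine ⟨hu, ?_⟩
  have h5 : Ring.inverse Z = V := by
    calc Ring.inverse Z = Ring.inverse Z * (Z * V) := by rw [hZV, mul_one]
      _ = V := by rw [← mul_assoc, Ring.inverse_mul_cancel _ hu, one_mul]
  rw [h5]
  exact hVt

/-- A formula regular at the origin is defined at the explicit tuple. -/
theorem defined_tup (φ : RExp K n) (h : φ.Defined (0 : Fin n → K)) (M t : ℕ) :
    φ.Defined (tup K M t) ∧ Tri (φ.eval (0 : Fin n → K)) (φ.eval (tup K M t)) := by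
  induction φ with
  | const c => exact ⟨trivial, tri_const c⟩
  | var i => exact ⟨trivial, tri_tup i⟩
  | add a b iha ihb =>
    obtain ⟨a1, a2⟩ := iha h.1
    obtain ⟨b1, b2⟩ := ihb h.2
    exact ⟨⟨a1, b1⟩, a2.add b2⟩
  | mul a b iha ihb =>
    obtain ⟨a1, a2⟩ := iha h.1
    obtain ⟨b1, b2⟩ := ihb h.2
    exact ⟨⟨a1, b1⟩, a2.mul b2⟩
  | inv a iha =>
    obtain ⟨a1, a2⟩ := iha h.1
    obtain ⟨h1, h2⟩ := Tri.inv h.2.ne_zero a2
    refine ⟨⟨a1, h1⟩, ?_⟩
    show Tri (Ring.inverse (a.eval (0 : Fin n → K))) (Ring.inverse (a.eval (tup K M t)))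
    rw [Ring.inverse_eq_inv']
    exact h2

/-- **One tuple detects all rational formulas of size at most `s` regular at the origin.** -/
theorem formula_hit [CharZero K] (s : ℕ) (φ : RExp K n) (hs : φ.size ≤ s)
    (h : φ.Defined (0 : Fin n → K)) (M : ℕ) (hM : n * (2 * s) ^ 4 ≤ M) :
    φ.Defined (tup K M (2 * s)) ∧ (φ.eval (tup K M (2 * s)) = 0 →
      ∀ (N : ℕ) (Y : Fin n → Matrix (Fin N) (Fin N) K), φ.Defined Y → φ.eval Y = 0) := by
  classical
  obtain ⟨hd, -⟩ := defined_tup φ h M (2 * s)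
  refine ⟨hd, fun h0 N Y hY => ?_⟩
  obtain ⟨ι, i1, i2, A0, A, u, v, hc, hA⟩ := linearise φ
  let e : ι ≃ Fin (Fintype.card ι) := Fintype.equivFin ι
  have hdet : IsUnit (A0.submatrix e.symm e.symm).det := by
    obtain ⟨h1, -⟩ := rep_fin A0 A u v _ _ (hA K 0 h) _ e
    have h2 : pen (A0.submatrix e.symm e.symm) (fun i => (A i).submatrix e.symm e.symm)
        (0 : Fin n → K) = A0.submatrix e.symm e.symm := by
      ext a b
      simp [pen]
    rw [h2] at h1
    exact (Matrix.isUnit_iff_isUnit_det _).1 h1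
  obtain ⟨h1, h2⟩ := rep_fin A0 A u v _ _ (hA _ _ hd) _ e
  rw [h0] at h2
  have hfp := fp_zero_of_tup _ _ hdet (u ∘ e.symm) (v ∘ e.symm) (2 * s) M (by omega) hM h1 h2
  obtain ⟨h3, h4⟩ := rep_fin A0 A u v _ _ (hA _ Y hY) _ e
  rw [← h4]
  exact val_zero _ _ hdet _ _ hfp N Y h3

end Pool.Agent.NCP
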