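import Mathlib
import Pool.Agent.NCP.Tup

/-!
NCP: the explicit invariants of tuples of matrices under simultaneous conjugation.
-/

namespace Pool.Agent.NCP

open Polynomial

/-- The explicit invariants: the entry in row `p` and column `0` of the partial trace
`(Tr ⊗ 1) ((∑ A_i ⊗ X_i) ^ l)`, where `X_i = hyp K M i`. -/
noncomputable def trinv (K : Type*) [Field K] {R : Type*} [CommRing R] [Algebra K R] {n m : ℕ}
    (A : Fin n → Matrix (Fin m) (Fin m) R) (M l : ℕ) (p : Fin (M + 1)) : R :=
  ∑ a, ((∑ i, Matrix.kronecker (A i) ((hyp K M i).map (algebraMap K R))) ^ l) (a, p) (a, 0)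

theorem pow_kron {R : Type*} [CommRing R] {n m N : ℕ} (A : Fin n → Matrix (Fin m) (Fin m) R)
    (Y : Fin n → Matrix (Fin N) (Fin N) R) (l : ℕ) :
    (∑ i, Matrix.kronecker (A i) (Y i)) ^ l =
      ∑ g : Fin l → Fin n, Matrix.kronecker ((List.ofFn g).map A).prod
        ((List.ofFn g).map Y).prod := by
  induction l with
  | zero =>
    rw [pow_zero, Fintype.sum_unique]
    simp only [List.ofFn_zero, List.map_nil, List.prod_nil]
    exact Matrix.one_kronecker_one.symm
  | succ l ih =>
    rw [pow_succ', ih, Finset.sum_mul_sum]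
    rw [← Fintype.sum_equiv (Fin.consEquiv (fun _ : Fin (l + 1) => Fin n))
      (fun q : Fin n × (Fin l → Fin n) => Matrix.kronecker ((List.ofFn (Fin.cons q.1 q.2 :
        Fin (l + 1) → Fin n)).map A).prod ((List.ofFn (Fin.cons q.1 q.2 :
        Fin (l + 1) → Fin n)).map Y).prod) _ (fun q => rfl)]
    rw [Fintype.sum_prod_type]
    refine Finset.sum_congr rfl fun i _ => Finset.sum_congr rfl fun g _ => ?_
    simp only [List.ofFn_cons, List.map_cons, List.prod_cons]
    exact (Matrix.mul_kronecker_mul _ _ _ _).symm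

theorem trinv_eq (K : Type*) [Field K] {R : Type*} [CommRing R] [Algebra K R] {n m : ℕ}
    (A : Fin n → Matrix (Fin m) (Fin m) R) (M l : ℕ) (p : Fin (M + 1)) :
    trinv K A M l p = ∑ g : Fin l → Fin n,
      ((List.ofFn g).map A).prod.trace * algebraMap K R (Lc K (List.ofFn g) (p : ℕ)) := by
  have h1 : ∀ w : List (Fin n), (w.map fun i => (hyp K M i).map (algebraMap K R)).prod =
      ((w.map (hyp K M)).prod).map (algebraMap K R) := by
    intro w
    have h2 := map_list_prod ((algebraMap K R).mapMatrix (m := Fin (M + 1))) (w.map (hyp K M))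
    rw [List.map_map] at h2
    exact h2.symm
  rw [trinv, pow_kron]
  simp only [Matrix.sum_apply, Matrix.kronecker, Matrix.kroneckerMap_apply]
  rw [Finset.sum_comm]
  refine Finset.sum_congr rfl fun g _ => ?_
  rw [Matrix.trace, Finset.sum_mul]
  refine Finset.sum_congr rfl fun a _ => ?_
  rw [h1, Matrix.map_apply, word_col]
  rfl

theorem Lc_map {K k : Type*} [Field K] [Field k] (f : K →+* k) {n : ℕ} (w : List (Fin n))
    (p : ℕ) : f (Lc K w p) = Lc k w p := by
  induction w generalizing p with
  | nil =>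
    have h1 : Lc K ([] : List (Fin n)) p = if p = 0 then 1 else 0 := rfl
    have h2 : Lc k ([] : List (Fin n)) p = if p = 0 then 1 else 0 := rfl
    rw [h1, h2]
    split_ifs <;> simp
  | cons i w ih =>
    have h1 : Lc K (i :: w) p =
      (∑ l ∈ Finset.range p, bb K i ^ (p - l) * Lc K w l) / (p : K) := rfl
    have h2 : Lc k (i :: w) p =
      (∑ l ∈ Finset.range p, bb k i ^ (p - l) * Lc k w l) / (p : k) := rfl
    rw [h1, h2, map_div₀, map_natCast, map_sum]
    congr 1
    refine Finset.sum_congr rfl fun l _ => ?_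
    rw [map_mul, map_pow, ih, bb, bb, map_add, map_natCast, map_one]

end Pool.Agent.NCP
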