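import Mathlib
import Pool.Agent.NCP.Tri

/-!
NCP: series with small Hankel rank (given by the vanishing of minors) are detected by finitely
many explicit numbers.
-/

namespace Pool.Agent.NCP

open Polynomial

variable {k : Type*} [Field k]

/-- If all minors of size `r + 1` vanish then the span of the rows has dimension at most `r`. -/
theorem finrank_of_minor {ι κ : Type*} (v : ι → (κ → k)) (r : ℕ)
    (h : ∀ (U : Fin (r + 1) → ι) (W : Fin (r + 1) → κ),
      (Matrix.of fun a b => v (U a) (W b)).det = 0) :
    FiniteDimensional k (Submodule.span k (Set.range v)) ∧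
      Module.finrank k (Submodule.span k (Set.range v)) ≤ r := by
  obtain ⟨b, hb, hspan, hli⟩ := exists_linearIndependent k (Set.range v)
  have hcard : ∀ f : Fin (r + 1) → b, ¬ Function.Injective f := by
    intro f hf
    have h1 : LinearIndependent k (fun a => ((f a : b) : κ → k)) := hli.comp f hf
    obtain ⟨W, hW⟩ := exists_minor (r + 1) _ h1
    choose U hU using fun a => hb (f a).2
    apply hW
    have h2 := h U W
    rw [← h2]
    congr 1
    ext a c
    simp only [Matrix.of_apply, hU a]
  have hfin : Finite b := by
    by_contra hinf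
    rw [not_finite_iff_infinite] at hinf
    exact hcard (fun a => Infinite.natEmbedding b (a : ℕ))
      ((Infinite.natEmbedding b).injective.comp Fin.val_injective)
  have := Fintype.ofFinite b
  have hc : Fintype.card b ≤ r := by
    by_contra hlt
    push Not at hlt
    have e : Fin (Fintype.card b) ≃ b := (Fintype.equivFin b).symm
    exact hcard (fun a => e ⟨(a : ℕ), by have := a.2; omega⟩) (by
      intro x y hxy
      have := congrArg Fin.val (e.injective hxy)
      exact Fin.ext this)
  rw [← hspan]
  refine ⟨FiniteDimensional.span_of_finite k (Set.toFinite b), ?_⟩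
  have h3 := finrank_span_eq_card hli
  rw [Subtype.range_coe] at h3
  rw [h3]
  exact hc

/-- Dimension of a sum of spaces. -/
theorem finrank_sup_range {E : Type*} [AddCommGroup E] [Module k E] (W : ℕ → Submodule k E)
    (r : ℕ) (h : ∀ j, FiniteDimensional k (W j) ∧ Module.finrank k (W j) ≤ r) (N : ℕ) :
    FiniteDimensional k ((Finset.range N).sup W : Submodule k E) ∧
      Module.finrank k ((Finset.range N).sup W : Submodule k E) ≤ r * N := by
  induction N with
  | zero =>
    rw [Finset.range_zero, Finset.sup_empty]
    exact ⟨inferInstance, by simp⟩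
  | succ N ih =>
    rw [Finset.range_add_one, Finset.sup_insert]
    have h1 := (h N).1
    have h2 := ih.1
    refine ⟨inferInstance, ?_⟩
    have h3 := Submodule.finrank_add_le_finrank_add_finrank (W N) ((Finset.range N).sup W)
    have h4 := (h N).2
    have h5 := ih.2
    have h6 : r * (N + 1) = r + r * N := by ring
    omega

variable {n : ℕ}

/-- The homogeneous part of degree `l` of the series with coefficients `τ`. -/
noncomputable def hom (τ : List (Fin n) → k) (l : ℕ) : List (Fin n) →₀ k :=
  ∑ g : Fin l → Fin n, Finsupp.single (List.ofFn g) (τ (List.ofFn g))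

theorem hom_apply (τ : List (Fin n) → k) (l : ℕ) (w : List (Fin n)) :
    hom τ l w = if w.length = l then τ w else 0 := by
  classical
  rw [hom, Finsupp.finsetSum_apply]
  split_ifs with h
  · subst h
    rw [Finset.sum_eq_single (w.get : Fin w.length → Fin n)]
    · rw [List.ofFn_get, Finsupp.single_eq_same]
    · intro g _ hg
      rw [Finsupp.single_apply, if_neg]
      intro h'
      apply hg
      have h2 : List.ofFn g = List.ofFn w.get := by rw [h', List.ofFn_get]
      exact List.ofFn_injective h2
    · intro h'; exact absurd (Finset.mem_univ _) h'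
  · refine Finset.sum_eq_zero fun g _ => ?_
    rw [Finsupp.single_apply, if_neg]
    intro h'
    apply h
    rw [← h', List.length_ofFn]

theorem qt_hom_zero (τ : List (Fin n) → k) (i : Fin n) : qt i (hom τ 0) = 0 := by
  ext w
  rw [qt_apply, hom_apply, Finsupp.zero_apply, if_neg (by simp)]

theorem qt_hom_succ (τ : List (Fin n) → k) (i : Fin n) (l : ℕ) :
    qt i (hom τ (l + 1)) = hom (fun w => τ (i :: w)) l := by
  ext w
  rw [qt_apply, hom_apply, hom_apply]
  simp

/-- The space of a homogeneous part. -/
theorem hom_space (τ : List (Fin n) → k) (r l : ℕ)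
    (hmin : ∀ U W : Fin (r + 1) → List (Fin n), (Matrix.of fun a b => τ (U a ++ W b)).det = 0) :
    ∃ V : Submodule k (List (Fin n) →₀ k), FiniteDimensional k V ∧
      Module.finrank k V ≤ r * (l + 1) ∧ (∀ i, ∀ f ∈ V, qt i f ∈ V) ∧ hom τ l ∈ V := by
  classical
  let W : ℕ → Submodule k (List (Fin n) →₀ k) := fun j =>
    Submodule.span k (Set.range fun u : List (Fin n) => hom (fun w => τ (u ++ w)) j)
  have hW : ∀ j, FiniteDimensional k (W j) ∧ Module.finrank k (W j) ≤ r := by
    intro j
    let c : (List (Fin n) →₀ k) →ₗ[k] (List (Fin n) → k) := Finsupp.lcoeFun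
    have hc : Function.Injective c := DFunLike.coe_injective
    have h1 := finrank_of_minor (fun (u : List (Fin n)) (w : List (Fin n)) =>
      hom (fun w => τ (u ++ w)) j w) r (by
        intro U V
        by_cases hV : ∀ b, (V b).length = j
        · rw [← hmin U V]
          congr 1
          ext a b
          simp only [Matrix.of_apply, hom_apply, hV b, if_true]
        · push Not at hV
          obtain ⟨b, hb⟩ := hV
          refine Matrix.det_eq_zero_of_column_eq_zero b fun a => ?_
          simp only [Matrix.of_apply, hom_apply, if_neg hb])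
    have h2 : Submodule.span k (Set.range fun (u : List (Fin n)) (w : List (Fin n)) =>
        hom (fun w => τ (u ++ w)) j w) = (W j).map c := by
      rw [Submodule.map_span, ← Set.range_comp]
      rfl
    rw [h2] at h1
    have e : (W j) ≃ₗ[k] ((W j).map c) := Submodule.equivMapOfInjective c hc (W j)
    have h3 := h1.1
    refine ⟨Module.Finite.equiv e.symm, ?_⟩
    rw [e.finrank_eq]
    exact h1.2
  obtain ⟨h1, h2⟩ := finrank_sup_range W r hW (l + 1)
  refine ⟨_, h1, h2, ?_, ?_⟩
  · intro i f hf
    have hle : (Finset.range (l + 1)).sup W ≤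
        ((Finset.range (l + 1)).sup W).comap (qt i) := by
      refine Finset.sup_le fun j hj => ?_
      rw [Submodule.span_le]
      rintro _ ⟨u, rfl⟩
      rw [Finset.mem_range] at hj
      simp only [SetLike.mem_coe, Submodule.mem_comap]
      cases j with
      | zero => rw [qt_hom_zero]; exact Submodule.zero_mem _
      | succ j =>
        rw [qt_hom_succ]
        have h3 : W j ≤ (Finset.range (l + 1)).sup W :=
          Finset.le_sup (Finset.mem_range.2 (by omega))
        refine h3 (Submodule.subset_span ⟨u ++ [i], ?_⟩)
        simp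
    exact hle hf
  · have h3 : W l ≤ (Finset.range (l + 1)).sup W :=
      Finset.le_sup (Finset.mem_range.2 (by omega))
    exact h3 (Submodule.subset_span ⟨[], by simp⟩)

/-- A series of Hankel rank at most `r` which vanishes on the words of length less than `r`. -/
theorem small_words (τ : List (Fin n) → k) (r : ℕ)
    (hmin : ∀ U W : Fin (r + 1) → List (Fin n), (Matrix.of fun a b => τ (U a ++ W b)).det = 0)
    (h0 : ∀ w : List (Fin n), w.length < r → τ w = 0) : ∀ w, τ w = 0 := by
  let h : List (Fin n) → (List (Fin n) → k) := fun w u => τ (u ++ w)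
  let T : ℕ → Submodule k (List (Fin n) → k) := fun j =>
    Submodule.span k {x | ∃ w : List (Fin n), w.length < j ∧ x = h w}
  have hfd := finrank_of_minor h r (by
    intro U W
    rw [← Matrix.det_transpose, ← hmin W U]
    rfl)
  have hTle : ∀ j, T j ≤ Submodule.span k (Set.range h) := by
    intro j
    refine Submodule.span_mono ?_
    rintro x ⟨w, -, rfl⟩
    exact ⟨w, rfl⟩
  have := hfd.1
  have hTf : ∀ j, FiniteDimensional k (T j) := fun j =>
    Submodule.finiteDimensional_of_le (hTle j)
  have hmono : ∀ j, T j ≤ T (j + 1) := by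
    intro j
    refine Submodule.span_mono ?_
    rintro x ⟨w', hw', rfl⟩
    exact ⟨w', by omega, rfl⟩
  have hex : ∃ j ≤ r, T (j + 1) ≤ T j := by
    by_contra hcon
    push Not at hcon
    have hrank : ∀ j, j ≤ r + 1 → j ≤ Module.finrank k (T j) := by
      intro j
      induction j with
      | zero => intro _; exact Nat.zero_le _
      | succ j ih =>
        intro hj
        have h1 := ih (by omega)
        have h2 : T j < T (j + 1) := lt_of_le_not_ge (hmono j) (hcon j (by omega))
        have h3 := Submodule.finrank_lt_finrank_of_lt h2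
        omega
    have h4 := hrank (r + 1) le_rfl
    have h5 := Submodule.finrank_mono (hTle (r + 1))
    have h6 := hfd.2
    omega
  obtain ⟨j, hj, hstab⟩ := hex
  have hall : ∀ w : List (Fin n), h w ∈ T j := by
    intro w
    induction w with
    | nil => exact hstab (Submodule.subset_span ⟨[], by simp, rfl⟩)
    | cons i w ih =>
      let S : (List (Fin n) → k) →ₗ[k] (List (Fin n) → k) :=
        LinearMap.funLeft k k (fun u => u ++ [i])
      have hS : ∀ w, S (h w) = h (i :: w) := by
        intro w
        funext u
        simp [S, h, LinearMap.funLeft_apply]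
      have hle : T j ≤ (T j).comap S := by
        rw [Submodule.span_le]
        rintro _ ⟨w', hw', rfl⟩
        simp only [SetLike.mem_coe, Submodule.mem_comap, hS]
        exact hstab (Submodule.subset_span ⟨i :: w', by simpa using hw', rfl⟩)
      rw [← hS]
      exact hle ih
  have hz : T j ≤ LinearMap.ker (LinearMap.proj (R := k) (φ := fun _ : List (Fin n) => k)
      ([] : List (Fin n))) := by
    rw [Submodule.span_le]
    rintro _ ⟨w', hw', rfl⟩
    simp only [SetLike.mem_coe, LinearMap.mem_ker, LinearMap.proj_apply]
    exact h0 w' (by omega)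
  intro w
  have h7 := hz (hall w)
  rw [LinearMap.mem_ker, LinearMap.proj_apply] at h7
  exact h7

theorem cst_hom_coeff (τ : List (Fin n) → k) (l m : ℕ) :
    PowerSeries.coeff m (ev (cst n k (hom τ l))) =
      ∑ g : Fin l → Fin n, τ (List.ofFn g) * Lc k (List.ofFn g) m := by
  rw [hom, map_sum, map_sum, map_sum]
  refine Finset.sum_congr rfl fun g _ => ?_
  have h3 : cst n k (Finsupp.single (List.ofFn g) (τ (List.ofFn g))) =
      Finsupp.single (List.ofFn g) (C (τ (List.ofFn g))) := by
    ext1 v
    rw [cst_apply]
    by_cases hv : List.ofFn g = v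
    · rw [← hv]; simp
    · simp [Finsupp.single_apply, hv]
  rw [h3, ev_single, Polynomial.coe_C, PowerSeries.coeff_C_mul, LL, PowerSeries.coeff_mk]

/-- **Series of small Hankel rank are detected by explicit numbers.** -/
theorem noe_main [CharZero k] (τ : List (Fin n) → k) (r : ℕ)
    (hmin : ∀ U W : Fin (r + 1) → List (Fin n), (Matrix.of fun a b => τ (U a ++ W b)).det = 0)
    (M : ℕ) (hM : n * r ^ 4 ≤ M)
    (h : ∀ l < r, ∀ p : Fin (M + 1),
      ∑ g : Fin l → Fin n, τ (List.ofFn g) * Lc k (List.ofFn g) (p : ℕ) = 0) :
    ∀ w, τ w = 0 := by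
  refine small_words τ r hmin fun w hw => ?_
  by_contra hne
  have hhom : hom τ w.length ≠ 0 := by
    intro h0
    have h1 := DFunLike.congr_fun h0 w
    rw [hom_apply, if_pos rfl, Finsupp.zero_apply] at h1
    exact hne h1
  rcases Nat.eq_zero_or_pos n with hn | hn
  · subst hn
    have hw0 : w = [] := by
      cases w with
      | nil => rfl
      | cons i w => exact i.elim0
    subst hw0
    have h1 := h 0 hw 0
    rw [Fintype.sum_unique] at h1
    simp only [List.ofFn_zero] at h1
    have h2 : Lc k ([] : List (Fin 0)) ((0 : Fin (M + 1)) : ℕ) = 1 := by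
      have : Lc k ([] : List (Fin 0)) ((0 : Fin (M + 1)) : ℕ) =
        if ((0 : Fin (M + 1)) : ℕ) = 0 then 1 else 0 := rfl
      rw [this]
      simp
    rw [h2, mul_one] at h1
    exact hne h1
  · obtain ⟨V, h1, h2, h3, h4⟩ := hom_space τ r w.length hmin
    have h5 : Module.finrank k V ≤ r ^ 2 := by
      refine h2.trans ?_
      rw [sq]
      exact Nat.mul_le_mul_left _ (by omega)
    obtain ⟨m, hm, hm2⟩ := zero_est V (r ^ 2) h5 h3 _ h4 hhom hn
    apply hm2
    rw [cst_hom_coeff]
    have h6 : m ≤ M := by
      refine hm.trans (le_trans (le_of_eq ?_) hM)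
      ring
    exact h w.length hw ⟨m, by omega⟩

end Pool.Agent.NCP
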