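import Mathlib
import Pool.Agent.NCP.Noe

/-!
NCP: the explicit invariants separate.
-/

namespace Pool.Agent.NCP

open Polynomial

theorem det_factor {F : Type*} [Field F] {κ : Type*} [Fintype κ] (r : ℕ)
    (hr : Fintype.card κ ≤ r) (P : Matrix (Fin (r + 1)) κ F) (Q : Matrix κ (Fin (r + 1)) F) :
    (P * Q).det = 0 := by
  by_contra hne
  have h1 : IsUnit (P * Q) := (Matrix.isUnit_iff_isUnit_det _).2 (isUnit_iff_ne_zero.2 hne)
  have h2 := Matrix.rank_of_isUnit _ h1
  have h3 := Matrix.rank_mul_le_left P Q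
  have h4 := Matrix.rank_le_card_width P
  rw [h2, Fintype.card_fin] at h3
  omega

theorem trace_append {R : Type*} [CommRing R] {n m : ℕ} (A : Fin n → Matrix (Fin m) (Fin m) R)
    (u w : List (Fin n)) : (((u ++ w).map A).prod).trace =
      ∑ c : Fin m × Fin m, ((u.map A).prod) c.1 c.2 * ((w.map A).prod) c.2 c.1 := by
  rw [List.map_append, List.prod_append, Matrix.trace, Fintype.sum_prod_type]
  refine Finset.sum_congr rfl fun a _ => ?_
  rw [Matrix.diag_apply, Matrix.mul_apply]

/-- **The explicit invariants separate.** -/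
theorem trinv_separate (K : Type*) [Field K] [CharZero K] {n m : ℕ}
    (A B : Fin n → Matrix (Fin m) (Fin m) K)
    (h : ∀ (l : ℕ) (p : Fin (n * (2 * m ^ 2) ^ 4 + 1)), 1 ≤ l → l < 2 * m ^ 2 →
      trinv K A (n * (2 * m ^ 2) ^ 4) l p = trinv K B (n * (2 * m ^ 2) ^ 4) l p)
    (w : List (Fin n)) : ((w.map A).prod).trace = ((w.map B).prod).trace := by
  have h1 := noe_main (fun w : List (Fin n) => ((w.map A).prod).trace - ((w.map B).prod).trace)
    (2 * m ^ 2) (by
      intro U W
      let P : Matrix (Fin (2 * m ^ 2 + 1)) (Fin m × Fin m ⊕ Fin m × Fin m) K := fun a c =>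
        Sum.elim (fun c => (((U a).map A).prod) c.1 c.2) (fun c => (((U a).map B).prod) c.1 c.2) c
      let Q : Matrix (Fin m × Fin m ⊕ Fin m × Fin m) (Fin (2 * m ^ 2 + 1)) K := fun c b =>
        Sum.elim (fun c => (((W b).map A).prod) c.2 c.1)
          (fun c => -(((W b).map B).prod) c.2 c.1) c
      rw [← det_factor (2 * m ^ 2) (le_of_eq (by simp; ring)) P Q]
      congr 1
      ext a b
      simp only [Matrix.of_apply, Matrix.mul_apply, P, Q, Fintype.sum_sum_type, Sum.elim_inl,
        Sum.elim_inr, trace_append, mul_neg, Finset.sum_neg_distrib, sub_eq_add_neg])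
    (n * (2 * m ^ 2) ^ 4) le_rfl (by
      intro l hl p
      rcases Nat.eq_zero_or_pos l with h0 | h0
      · subst h0
        rw [Fintype.sum_unique]
        simp
      · have h2 := h l p h0 hl
        rw [trinv_eq, trinv_eq, ← sub_eq_zero, ← Finset.sum_sub_distrib] at h2
        rw [← h2]
        refine Finset.sum_congr rfl fun g _ => ?_
        simp only [Algebra.algebraMap_self, RingHom.id_apply]
        ring) w
  exact sub_eq_zero.1 h1

end Pool.Agent.NCP
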