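import Mathlib
import Pool.Agent.Helper17.Sign.Traces

/-!
NCP: the coefficients of the characteristic polynomial in terms of the traces of powers.
-/

namespace Pool.Agent.NCP

open Polynomial

theorem esymm_mem {E : Type*} [Field E] [CharZero E] {m : ℕ} (μ : Fin m → E)
    (W : Submodule ℚ E) (hW : ∀ x ∈ W, ∀ y ∈ W, x * y ∈ W)
    (hp : ∀ i, 1 ≤ i → ∑ j, μ j ^ i ∈ W) :
    ∀ k, 1 ≤ k → MvPolynomial.aeval μ (MvPolynomial.esymm (Fin m) ℚ k) ∈ W := by
  have hsgn : ∀ (j : ℕ) (x : E), x ∈ W → (-1) ^ j * x ∈ W := by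
    intro j x hx
    rcases neg_one_pow_eq_or E j with h | h
    · rw [h, one_mul]; exact hx
    · rw [h, neg_one_mul]; exact Submodule.neg_mem _ hx
  intro k
  induction k using Nat.strong_induction_on with
  | _ k ih =>
    intro hk
    have h1 := congrArg (MvPolynomial.aeval μ) (MvPolynomial.mul_esymm_eq_sum (Fin m) ℚ k)
    rw [map_mul, map_natCast, map_mul, map_sum, map_pow, map_neg, map_one] at h1
    have h2 : (k : E) * MvPolynomial.aeval μ (MvPolynomial.esymm (Fin m) ℚ k) ∈ W := by
      rw [h1]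
      refine hsgn _ _ (Submodule.sum_mem _ fun a ha => ?_)
      rw [Finset.mem_filter, Finset.HasAntidiagonal.mem_antidiagonal] at ha
      rw [map_mul, map_mul, map_pow, map_neg, map_one, mul_assoc]
      refine hsgn _ _ ?_
      have h3 : MvPolynomial.aeval μ (MvPolynomial.psum (Fin m) ℚ a.2) ∈ W := by
        rw [MvPolynomial.psum, map_sum]
        simp only [map_pow, MvPolynomial.aeval_X]
        exact hp a.2 (by omega)
      rcases Nat.eq_zero_or_pos a.1 with h0 | h0
      · rw [h0, MvPolynomial.esymm_zero, map_one, one_mul]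
        exact h3
      · exact hW _ (ih a.1 ha.2 h0) _ h3
    have h3 : MvPolynomial.aeval μ (MvPolynomial.esymm (Fin m) ℚ k) =
        ((k : ℚ)⁻¹) • ((k : E) * MvPolynomial.aeval μ (MvPolynomial.esymm (Fin m) ℚ k)) := by
      rw [Algebra.smul_def, map_inv₀, map_natCast, ← mul_assoc, inv_mul_cancel₀, one_mul]
      exact Nat.cast_ne_zero.2 (by omega)
    rw [h3]
    exact Submodule.smul_mem _ _ h2

/-- Newton: coefficients of the characteristic polynomial. -/
theorem coeff_charpoly_mem {D : Type*} [CommRing D] [IsDomain D] [Algebra ℚ D] {m : ℕ}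
    (X : Matrix (Fin m) (Fin m) D) (W : Submodule ℚ D) (hW : ∀ x ∈ W, ∀ y ∈ W, x * y ∈ W)
    (ht : ∀ i, 1 ≤ i → (X ^ i).trace ∈ W) (k : ℕ) (hk : k < m) : X.charpoly.coeff k ∈ W := by
  classical
  have hcz : CharZero D := algebraRat.charZero D
  let F := FractionRing D
  have hcF : CharZero F := charZero_of_injective_algebraMap (IsFractionRing.injective D F)
  let E := AlgebraicClosure F
  have hcE : CharZero E := charZero_of_injective_algebraMap (algebraMap F E).injective
  let j : D →+* E := (algebraMap F E).comp (algebraMap D F)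
  have hj : Function.Injective j :=
    (algebraMap F E).injective.comp (IsFractionRing.injective D F)
  let jq : D →ₐ[ℚ] E := j.toRatAlgHom
  -- eigenvalues
  let Y : Matrix (Fin m) (Fin m) E := X.map j
  have hYc : Y.charpoly = X.charpoly.map j := Matrix.charpoly_map X j
  have hcard : Y.charpoly.roots.card = m := by
    have hs := IsAlgClosed.splits Y.charpoly
    rw [← hs.natDegree_eq_card_roots, Matrix.charpoly_natDegree_eq_dim, Fintype.card_fin]
  obtain ⟨μ, hμ⟩ : ∃ μ : Fin m → E, Finset.univ.val.map μ = Y.charpoly.roots := by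
    have h1 : (Y.charpoly.roots.toList : Multiset E) = Y.charpoly.roots := Multiset.coe_toList _
    have h2 : Y.charpoly.roots.toList.length = m := by rw [Multiset.length_toList, hcard]
    have h3 : ∀ (L : List E) (h : L.length = m), ∃ μ : Fin m → E,
        Finset.univ.val.map μ = (L : Multiset E) := by
      intro L h
      subst h
      exact ⟨L.get, by rw [Fin.univ_val_map, List.ofFn_get]⟩
    obtain ⟨μ, hμ⟩ := h3 _ h2
    exact ⟨μ, hμ.trans h1⟩
  have hp : ∀ i, ∑ a, μ a ^ i = (Y ^ i).trace := by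
    intro i
    have h1 := Pool.Agent.Helper17.Sign.trace_pow_closed (Matrix.toLin' Y) i
    rw [← Matrix.toLin'_pow, Matrix.trace_toLin'_eq, Matrix.charpoly_toLin', ← hμ] at h1
    rw [h1, Multiset.map_map]
    rfl
  have hmem := esymm_mem μ (W.map jq.toLinearMap) (by
    rintro _ ⟨x, hx, rfl⟩ _ ⟨y, hy, rfl⟩
    exact ⟨x * y, hW x hx y hy, map_mul jq x y⟩) (by
    intro i hi
    rw [hp]
    refine ⟨_, ht i hi, ?_⟩
    show j ((X ^ i).trace) = _
    have h5 : Y ^ i = (X ^ i).map j := (map_pow j.mapMatrix X i).symm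
    rw [h5, Matrix.trace, Matrix.trace, map_sum]
    rfl) (m - k) (by omega)
  have hco : Y.charpoly.coeff k = (-1) ^ (m - k) *
      MvPolynomial.aeval μ (MvPolynomial.esymm (Fin m) ℚ (m - k)) := by
    have hs := IsAlgClosed.splits Y.charpoly
    have h1 := hs.eq_prod_roots_of_monic (Matrix.charpoly_monic Y)
    have h2 := Multiset.prod_X_sub_C_coeff Y.charpoly.roots (k := k) (by omega)
    rw [← h1, hcard] at h2
    rw [h2, MvPolynomial.aeval_esymm_eq_multiset_esymm, hμ]
  have hsgn : (-1 : E) ^ (m - k) * MvPolynomial.aeval μ (MvPolynomial.esymm (Fin m) ℚ (m - k)) ∈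
      W.map jq.toLinearMap := by
    rcases neg_one_pow_eq_or E (m - k) with h | h
    · rw [h, one_mul]; exact hmem
    · rw [h, neg_one_mul]; exact Submodule.neg_mem _ hmem
  rw [← hco, hYc, coeff_map] at hsgn
  obtain ⟨x, hx, hxe⟩ := hsgn
  have h3 : x = X.charpoly.coeff k := hj hxe
  rw [← h3]
  exact hx

end Pool.Agent.NCP
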