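import Mathlib
import Pool.Agent.NCP.GenA
import Pool.Agent.VCR.NHB

/-!
NCP: the traces of all words are generated by the traces of the words of length less than `2 ^ m`
(Nagata, Higman, Procesi).
-/

namespace Pool.Agent.NCP

open Polynomial

section

variable {F : Type*} [Field F] [CharZero F] {n m : ℕ}

/-- The tuple `T A_i` over `F[T]`. -/
noncomputable def tA (A : Fin n → Matrix (Fin m) (Fin m) F) (i : Fin n) :
    Matrix (Fin m) (Fin m) F[X] := (X : F[X]) • (A i).map C

theorem tA_word (A : Fin n → Matrix (Fin m) (Fin m) F) (w : List (Fin n)) :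
    (w.map (tA A)).prod = (X ^ w.length : F[X]) • ((w.map A).prod).map C := by
  induction w with
  | nil =>
    rw [List.map_nil, List.prod_nil, List.map_nil, List.prod_nil, List.length_nil, pow_zero,
      one_smul]
    exact (Matrix.map_one _ C_0 C_1).symm
  | cons i w ih =>
    rw [List.map_cons, List.prod_cons, ih, tA, smul_mul_smul_comm, List.map_cons, List.prod_cons,
      List.length_cons, pow_succ']
    congr 1
    exact (Matrix.map_mul (f := (C : F →+* F[X]))).symm

theorem trace_tA (A : Fin n → Matrix (Fin m) (Fin m) F) (w : List (Fin n)) :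
    ((w.map (tA A)).prod).trace = X ^ w.length * C (((w.map A).prod).trace) := by
  rw [tA_word, Matrix.trace_smul, smul_eq_mul]
  congr 1
  rw [Matrix.trace, Matrix.trace, map_sum]
  rfl

/-- The trace ring over `F[T]`. -/
noncomputable def RR (A : Fin n → Matrix (Fin m) (Fin m) F) : Subalgebra ℚ F[X] :=
  Algebra.adjoin ℚ {r | ∃ w : List (Fin n), w ≠ [] ∧ r = ((w.map (tA A)).prod).trace}

/-- The algebra generated by the matrices over the trace ring. -/
noncomputable def CC (A : Fin n → Matrix (Fin m) (Fin m) F) :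
    Subalgebra (RR A) (Matrix (Fin m) (Fin m) F[X]) :=
  Algebra.adjoin (RR A) (Set.range (tA A))

theorem smul_RR (A : Fin n → Matrix (Fin m) (Fin m) F) (r : RR A)
    (Z : Matrix (Fin m) (Fin m) F[X]) : r • Z = (r : F[X]) • Z := rfl

theorem word_mem (A : Fin n → Matrix (Fin m) (Fin m) F) (w : List (Fin n)) :
    (w.map (tA A)).prod ∈ CC A := by
  induction w with
  | nil => exact Subalgebra.one_mem _
  | cons i w ih =>
    rw [List.map_cons, List.prod_cons]
    exact Subalgebra.mul_mem _ (Algebra.subset_adjoin ⟨i, rfl⟩) ih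

theorem trace_word_mem (A : Fin n → Matrix (Fin m) (Fin m) F) (w : List (Fin n)) :
    ((w.map (tA A)).prod).trace ∈ RR A := by
  by_cases hw : w = []
  · subst hw
    rw [List.map_nil, List.prod_nil, Matrix.trace_one, Fintype.card_fin]
    exact natCast_mem _ _
  · exact Algebra.subset_adjoin ⟨w, hw, rfl⟩

theorem trace_mem (A : Fin n → Matrix (Fin m) (Fin m) F) (Z : Matrix (Fin m) (Fin m) F[X])
    (hZ : Z ∈ CC A) : Z.trace ∈ RR A := by
  have h1 : Z ∈ Submodule.span (RR A) (Submonoid.closure (Set.range (tA A)) :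
      Set (Matrix (Fin m) (Fin m) F[X])) := by
    rw [← Algebra.adjoin_eq_span]
    exact hZ
  clear hZ
  induction h1 using Submodule.span_induction with
  | mem x hx =>
    have h2 : ∃ w : List (Fin n), x = (w.map (tA A)).prod := by
      induction hx using Submonoid.closure_induction with
      | mem x hx =>
        obtain ⟨i, rfl⟩ := hx
        exact ⟨[i], by simp⟩
      | one => exact ⟨[], by simp⟩
      | mul x y _ _ hx hy =>
        obtain ⟨u, rfl⟩ := hx
        obtain ⟨w, rfl⟩ := hy
        exact ⟨u ++ w, by simp⟩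
    obtain ⟨w, rfl⟩ := h2
    exact trace_word_mem A w
  | zero => rw [Matrix.trace_zero]; exact Subalgebra.zero_mem _
  | add x y _ _ hx hy => rw [Matrix.trace_add]; exact Subalgebra.add_mem _ hx hy
  | smul c x _ hx =>
    rw [smul_RR, Matrix.trace_smul, smul_eq_mul]
    exact Subalgebra.mul_mem _ c.2 hx

/-- The value at `T = 0`. -/
noncomputable def ev0 (m : ℕ) (F : Type*) [Field F] :
    Matrix (Fin m) (Fin m) F[X] →+* Matrix (Fin m) (Fin m) F :=
  (constantCoeff : F[X] →+* F).mapMatrix

theorem ev0_tA (A : Fin n → Matrix (Fin m) (Fin m) F) (i : Fin n) : ev0 m F (tA A i) = 0 := by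
  ext a b
  simp [ev0, tA]

theorem trace_ev0 (Z : Matrix (Fin m) (Fin m) F[X]) : (ev0 m F Z).trace = Z.trace.coeff 0 := by
  rw [Matrix.trace, Matrix.trace, finsetSum_coeff]
  rfl

/-- The augmentation ideal of the trace ring, as a `ℚ`-space. -/
noncomputable def WW (A : Fin n → Matrix (Fin m) (Fin m) F) : Submodule ℚ F[X] where
  carrier := {r | r ∈ RR A ∧ r.coeff 0 = 0}
  zero_mem' := ⟨Subalgebra.zero_mem _, by simp⟩
  add_mem' := by
    rintro a b ⟨ha, ha0⟩ ⟨hb, hb0⟩
    exact ⟨Subalgebra.add_mem _ ha hb, by rw [coeff_add, ha0, hb0, add_zero]⟩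
  smul_mem' := by
    rintro c a ⟨ha, ha0⟩
    refine ⟨Subalgebra.smul_mem _ ha c, ?_⟩
    rw [coeff_smul, ha0, smul_zero]

theorem mem_WW (A : Fin n → Matrix (Fin m) (Fin m) F) (r : F[X]) :
    r ∈ WW A ↔ r ∈ RR A ∧ r.coeff 0 = 0 := Iff.rfl

theorem WW_mul (A : Fin n → Matrix (Fin m) (Fin m) F) (r s : F[X]) (hr : r ∈ RR A)
    (hs : s ∈ WW A) : r * s ∈ WW A := by
  refine ⟨Subalgebra.mul_mem _ hr hs.1, ?_⟩
  rw [mul_coeff_zero, hs.2, mul_zero]

/-- The augmentation ideal. -/
noncomputable def II (A : Fin n → Matrix (Fin m) (Fin m) F) : Ideal (RR A) where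
  carrier := {r | (r : F[X]).coeff 0 = 0}
  zero_mem' := by simp
  add_mem' := by
    intro a b ha hb
    simp only [Set.mem_ofPred_eq, Subalgebra.coe_add, coeff_add] at ha hb ⊢
    rw [ha, hb, add_zero]
  smul_mem' := by
    intro c a ha
    simp only [Set.mem_ofPred_eq, smul_eq_mul, Subalgebra.coe_mul, mul_coeff_zero] at ha ⊢
    rw [ha, mul_zero]

theorem mem_II (A : Fin n → Matrix (Fin m) (Fin m) F) (r : RR A) :
    r ∈ II A ↔ (r : F[X]).coeff 0 = 0 := Iff.rfl

/-- The ideal generated by the augmentation ideal. -/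
noncomputable def JJ (A : Fin n → Matrix (Fin m) (Fin m) F) : Submodule (RR A) (CC A) :=
  II A • (⊤ : Submodule (RR A) (CC A))

theorem JJ_idl (A : Fin n → Matrix (Fin m) (Fin m) F) :
    VCR.IsIdl {x : CC A | x ∈ JJ A} := by
  refine ⟨Submodule.zero_mem (JJ A), fun a ha b hb => Submodule.add_mem (JJ A) ha hb, ?_, ?_⟩
  · intro r a ha
    simp only [Set.mem_ofPred_eq] at ha ⊢
    refine Submodule.smul_induction_on ha ?_ ?_
    · intro p hp c _
      rw [mul_smul_comm]
      exact Submodule.smul_mem_smul hp Submodule.mem_top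
    · intro x y hx hy
      rw [mul_add]
      exact Submodule.add_mem _ hx hy
  · intro r a ha
    simp only [Set.mem_ofPred_eq] at ha ⊢
    refine Submodule.smul_induction_on ha ?_ ?_
    · intro p hp c _
      rw [smul_mul_assoc]
      exact Submodule.smul_mem_smul hp Submodule.mem_top
    · intro x y hx hy
      rw [add_mul]
      exact Submodule.add_mem _ hx hy

theorem ker_idl (A : Fin n → Matrix (Fin m) (Fin m) F) :
    VCR.IsIdl {x : CC A | ev0 m F (x : Matrix (Fin m) (Fin m) F[X]) = 0} := by
  refine ⟨?_, ?_, ?_, ?_⟩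
  · simp
  · intro a ha b hb
    simp only [Set.mem_ofPred_eq, Subalgebra.coe_add, map_add] at ha hb ⊢
    rw [ha, hb, add_zero]
  · intro r a ha
    simp only [Set.mem_ofPred_eq, Subalgebra.coe_mul, map_mul] at ha ⊢
    rw [ha, mul_zero]
  · intro r a ha
    simp only [Set.mem_ofPred_eq, Subalgebra.coe_mul, map_mul] at ha ⊢
    rw [ha, zero_mul]

theorem pow_mem_JJ (A : Fin n → Matrix (Fin m) (Fin m) F) (x : CC A)
    (hx : ev0 m F (x : Matrix (Fin m) (Fin m) F[X]) = 0) : x ^ m ∈ JJ A := by
  set Z : Matrix (Fin m) (Fin m) F[X] := (x : Matrix (Fin m) (Fin m) F[X]) with hZ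
  have hc : ∀ k < m, Z.charpoly.coeff k ∈ WW A := by
    intro k hk
    refine coeff_charpoly_mem Z (WW A) (fun x hx y hy => WW_mul A x y hx.1 hy) ?_ k hk
    intro i hi
    refine ⟨?_, ?_⟩
    · have h1 : ((x ^ i : CC A) : Matrix (Fin m) (Fin m) F[X]) = Z ^ i := by
        rw [Subalgebra.coe_pow]
      rw [← h1]
      exact trace_mem A _ (x ^ i : CC A).2
    · rw [← trace_ev0, map_pow, hx, zero_pow (by omega), Matrix.trace_zero]
  have hCH := Matrix.aeval_self_charpoly Z
  rw [aeval_eq_sum_range, Matrix.charpoly_natDegree_eq_dim, Fintype.card_fin,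
    Finset.sum_range_succ] at hCH
  have hlead : Z.charpoly.coeff m = 1 := by
    have h1 := Matrix.charpoly_monic Z
    have h2 := Matrix.charpoly_natDegree_eq_dim Z
    rw [Fintype.card_fin] at h2
    rw [Monic, leadingCoeff, h2] at h1
    exact h1
  rw [hlead, one_smul] at hCH
  let cc : Fin m → RR A := fun k => ⟨Z.charpoly.coeff k, ((mem_WW A _).1 (hc k k.2)).1⟩
  have hcc : ∀ k, cc k ∈ II A := fun k => ((mem_WW A _).1 (hc k k.2)).2
  have hsum : ∑ k : Fin m, cc k • x ^ (k : ℕ) ∈ JJ A :=
    Submodule.sum_mem (JJ A) fun k _ => Submodule.smul_mem_smul (hcc k) Submodule.mem_top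
  have hcoe : ((∑ k : Fin m, cc k • x ^ (k : ℕ) : CC A) : Matrix (Fin m) (Fin m) F[X]) =
      ∑ k : Fin m, Z.charpoly.coeff k • Z ^ (k : ℕ) := by
    rw [AddSubmonoidClass.coe_finsetSum]
    rfl
  have hx2 : x ^ m = (-1) * ∑ k : Fin m, cc k • x ^ (k : ℕ) := by
    apply Subtype.ext
    rw [Subalgebra.coe_pow, Subalgebra.coe_mul, hcoe, ← hZ]
    have h1 : ((-1 : CC A) : Matrix (Fin m) (Fin m) F[X]) = -1 := rfl
    rw [h1, neg_one_mul, eq_neg_iff_add_eq_zero, add_comm, ← hCH,
      ← Fin.sum_univ_eq_sum_range (fun i => Z.charpoly.coeff i • Z ^ i) m]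
  rw [hx2]
  exact (JJ_idl A).left (-1) _ hsum

theorem natCast_isUnit (A : Fin n → Matrix (Fin m) (Fin m) F) (q : ℕ) (hq : q ≠ 0) :
    IsUnit (q : CC A) := by
  have h1 : IsUnit ((q : ℚ)) := isUnit_iff_ne_zero.2 (Nat.cast_ne_zero.2 hq)
  have h2 := (h1.map (algebraMap ℚ (RR A))).map (algebraMap (RR A) (CC A))
  rw [map_natCast, map_natCast] at h2
  exact h2

theorem long_word_mem (A : Fin n → Matrix (Fin m) (Fin m) F) (w : List (Fin n))
    (hw : w.length = 2 ^ m - 1) :
    (⟨(w.map (tA A)).prod, word_mem A w⟩ : CC A) ∈ JJ A := by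
  have h1 := VCR.nagata_higman (natCast_isUnit A) (ker_idl A) m {x : CC A | x ∈ JJ A} (JJ_idl A)
    (fun x hx => pow_mem_JJ A x hx)
    (w.map fun i => (⟨tA A i, Algebra.subset_adjoin ⟨i, rfl⟩⟩ : CC A)) (by
      intro a ha
      obtain ⟨i, -, rfl⟩ := List.mem_map.1 ha
      exact ev0_tA A i) (by rw [List.length_map, hw])
  have h2 : (w.map fun i => (⟨tA A i, Algebra.subset_adjoin ⟨i, rfl⟩⟩ : CC A)).prod =
      (⟨(w.map (tA A)).prod, word_mem A w⟩ : CC A) := by
    apply Subtype.ext
    have h3 := map_list_prod (CC A).val (w.map fun i =>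
      (⟨tA A i, Algebra.subset_adjoin ⟨i, rfl⟩⟩ : CC A))
    rw [List.map_map] at h3
    exact h3
  rw [h2] at h1
  exact h1

theorem trace_mem_sq (A : Fin n → Matrix (Fin m) (Fin m) F) (x : CC A) (hx : x ∈ JJ A)
    (y : CC A) (hy : ev0 m F (y : Matrix (Fin m) (Fin m) F[X]) = 0) :
    ((x * y : CC A) : Matrix (Fin m) (Fin m) F[X]).trace ∈ WW A * WW A := by
  refine Submodule.smul_induction_on hx ?_ ?_
  · intro p hp c _
    have h1 : (((p • c) * y : CC A) : Matrix (Fin m) (Fin m) F[X]) =
        (p : F[X]) • (c * y : CC A) := by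
      rw [smul_mul_assoc]
      rfl
    rw [h1, Matrix.trace_smul, smul_eq_mul]
    refine Submodule.mul_mem_mul ⟨p.2, hp⟩ ⟨trace_mem A _ (c * y).2, ?_⟩
    rw [← trace_ev0, Subalgebra.coe_mul, map_mul, hy, mul_zero, Matrix.trace_zero]
  · intro x z hx hz
    rw [add_mul, Subalgebra.coe_add, Matrix.trace_add]
    exact Submodule.add_mem _ hx hz

/-- **Generation of the traces.** -/
theorem gen (A : Fin n → Matrix (Fin m) (Fin m) F) (V : Subring F)
    (hV : ∀ q : ℚ, algebraMap ℚ F q ∈ V)
    (h : ∀ w : List (Fin n), w ≠ [] → w.length < 2 ^ m → ((w.map A).prod).trace ∈ V)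
    (w : List (Fin n)) : ((w.map A).prod).trace ∈ V := by
  have hmain : ∀ d : ℕ, ∀ w : List (Fin n), w.length = d → ((w.map A).prod).trace ∈ V := by
    intro d
    induction d using Nat.strong_induction_on with
    | _ d ih =>
      intro w hw
      by_cases hw0 : w = []
      · subst hw0
        rw [List.map_nil, List.prod_nil, Matrix.trace_one, Fintype.card_fin]
        exact natCast_mem _ _
      by_cases hd : d < 2 ^ m
      · exact h w hw0 (by omega)
      -- coefficients
      have hR : ∀ r ∈ RR A, ∀ a < d, r.coeff a ∈ V := by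
        intro r hr
        induction hr using Algebra.adjoin_induction with
        | mem x hx =>
          obtain ⟨u, hu, rfl⟩ := hx
          intro a ha
          rw [trace_tA, mul_comm, coeff_C_mul, coeff_X_pow]
          split_ifs with h1
          · rw [mul_one]
            exact ih a ha u h1.symm
          · rw [mul_zero]
            exact V.zero_mem
        | algebraMap q =>
          intro a _
          rw [Polynomial.algebraMap_apply, coeff_C]
          split_ifs
          · exact hV q
          · exact V.zero_mem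
        | add x y _ _ hx hy =>
          intro a ha
          rw [coeff_add]
          exact V.add_mem (hx a ha) (hy a ha)
        | mul x y _ _ hx hy =>
          intro a ha
          rw [coeff_mul]
          refine V.sum_mem fun c hc => ?_
          rw [Finset.HasAntidiagonal.mem_antidiagonal] at hc
          exact V.mul_mem (hx _ (by omega)) (hy _ (by omega))
      have hsq : ∀ r ∈ WW A * WW A, r.coeff d ∈ V := by
        intro r hr
        refine Submodule.mul_induction_on hr ?_ ?_
        · intro x hx y hy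
          rw [coeff_mul]
          refine V.sum_mem fun c hc => ?_
          rw [Finset.HasAntidiagonal.mem_antidiagonal] at hc
          rcases Nat.eq_zero_or_pos c.1 with h1 | h1
          · rw [h1, hx.2, zero_mul]; exact V.zero_mem
          rcases Nat.eq_zero_or_pos c.2 with h2 | h2
          · rw [h2, hy.2, mul_zero]; exact V.zero_mem
          exact V.mul_mem (hR x hx.1 _ (by omega)) (hR y hy.1 _ (by omega))
        · intro x y hx hy
          rw [coeff_add]
          exact V.add_mem hx hy
      -- split the word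
      have hp : 1 ≤ 2 ^ m := Nat.one_le_two_pow
      have h1 : w = w.take (2 ^ m - 1) ++ w.drop (2 ^ m - 1) := (List.take_append_drop _ _).symm
      have hl1 : (w.take (2 ^ m - 1)).length = 2 ^ m - 1 := by
        rw [List.length_take, hw]; omega
      obtain ⟨i, v, hiv⟩ : ∃ i v, w.drop (2 ^ m - 1) = i :: v := by
        cases hd : w.drop (2 ^ m - 1) with
        | nil =>
          have h2 : (w.drop (2 ^ m - 1)).length = d - (2 ^ m - 1) := by
            rw [List.length_drop, hw]
          rw [hd, List.length_nil] at h2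
          omega
        | cons i v => exact ⟨i, v, rfl⟩
      have h2 := trace_mem_sq A _ (long_word_mem A _ hl1)
        (⟨((i :: v).map (tA A)).prod, word_mem A _⟩ : CC A) (by
          show ev0 m F (((i :: v).map (tA A)).prod) = 0
          rw [List.map_cons, List.prod_cons, map_mul, ev0_tA, zero_mul])
      have h3 : (((⟨((w.take (2 ^ m - 1)).map (tA A)).prod, word_mem A _⟩ : CC A) *
          (⟨((i :: v).map (tA A)).prod, word_mem A _⟩ : CC A) : CC A) :
            Matrix (Fin m) (Fin m) F[X]) = (w.map (tA A)).prod := by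
        rw [Subalgebra.coe_mul]
        show ((w.take (2 ^ m - 1)).map (tA A)).prod * ((i :: v).map (tA A)).prod = _
        rw [← List.prod_append, ← List.map_append, ← hiv, ← h1]
      rw [h3, trace_tA, hw] at h2
      have h4 := hsq _ h2
      rw [mul_comm, coeff_C_mul, coeff_X_pow, if_pos rfl, mul_one] at h4
      exact h4
  exact hmain _ w rfl

end

end Pool.Agent.NCP
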