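import Mathlib
import Pool.Agent.NCP.GenB

/-!
NCP: a tuple of matrices over a valued field all of whose traces are integral is conjugate to a
tuple of matrices with integral entries.
-/

namespace Pool.Agent.NCP

open Polynomial

section

variable {F : Type*} [Field F] [CharZero F] {n m : ℕ}

/-- The span of the words of length less than `N` over a valuation ring. -/
def spw (A : Fin n → Matrix (Fin m) (Fin m) F) (V : ValuationSubring F) (N : ℕ) :
    Submodule V (Matrix (Fin m) (Fin m) F) :=
  Submodule.span V {x | ∃ u : List (Fin n), u.length < N ∧ x = (u.map A).prod}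

theorem spw_mono (A : Fin n → Matrix (Fin m) (Fin m) F) (V : ValuationSubring F) {N N' : ℕ}
    (h : N ≤ N') : spw A V N ≤ spw A V N' := by
  refine Submodule.span_mono ?_
  rintro x ⟨u, hu, rfl⟩
  exact ⟨u, by omega, rfl⟩

theorem word_mem_spw (A : Fin n → Matrix (Fin m) (Fin m) F) (V : ValuationSubring F) {N : ℕ}
    (u : List (Fin n)) (hu : u.length < N) : (u.map A).prod ∈ spw A V N :=
  Submodule.subset_span ⟨u, hu, rfl⟩

/-- The coefficient of `T ^ b` of a matrix of polynomials. -/
noncomputable def mc (b : ℕ) (Z : Matrix (Fin m) (Fin m) F[X]) : Matrix (Fin m) (Fin m) F :=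
  Z.map fun q => q.coeff b

theorem mc_add (b : ℕ) (Y Z : Matrix (Fin m) (Fin m) F[X]) : mc b (Y + Z) = mc b Y + mc b Z := by
  ext i j
  simp [mc]

theorem mc_zero (b : ℕ) : mc b (0 : Matrix (Fin m) (Fin m) F[X]) = 0 := by
  ext i j
  simp [mc]

theorem mc_smul (b : ℕ) (r : F[X]) (Z : Matrix (Fin m) (Fin m) F[X]) :
    mc b (r • Z) = ∑ a ∈ Finset.HasAntidiagonal.antidiagonal b, r.coeff a.1 • mc a.2 Z := by
  ext i j
  simp only [mc, Matrix.map_apply, Matrix.smul_apply, smul_eq_mul, coeff_mul, Matrix.sum_apply]

theorem mc_word (A : Fin n → Matrix (Fin m) (Fin m) F) (w : List (Fin n)) (b : ℕ) :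
    mc b ((w.map (tA A)).prod) = if b = w.length then (w.map A).prod else 0 := by
  rw [tA_word]
  ext i j
  simp only [mc, Matrix.map_apply, Matrix.smul_apply, smul_eq_mul]
  rw [mul_comm, coeff_C_mul, coeff_X_pow]
  split_ifs <;> simp

variable (A : Fin n → Matrix (Fin m) (Fin m) F) (V : ValuationSubring F)
  (hV : ∀ q : ℚ, algebraMap ℚ F q ∈ V) (ht : ∀ w : List (Fin n), ((w.map A).prod).trace ∈ V)

include hV ht in
theorem coeff_RR (r : F[X]) (hr : r ∈ RR A) : ∀ a, r.coeff a ∈ V := by
  induction hr using Algebra.adjoin_induction with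
  | mem x hx =>
    obtain ⟨u, hu, rfl⟩ := hx
    intro a
    rw [trace_tA, mul_comm, coeff_C_mul, coeff_X_pow]
    split_ifs with h1
    · rw [mul_one]
      exact ht u
    · rw [mul_zero]
      exact V.zero_mem
  | algebraMap q =>
    intro a
    rw [Polynomial.algebraMap_apply, coeff_C]
    split_ifs
    · exact hV q
    · exact V.zero_mem
  | add x y _ _ hx hy =>
    intro a
    rw [coeff_add]
    exact V.add_mem _ _ (hx a) (hy a)
  | mul x y _ _ hx hy =>
    intro a
    rw [coeff_mul]
    exact V.toSubring.sum_mem fun c _ => V.mul_mem _ _ (hx _) (hy _)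

theorem smul_mem_spw (N : ℕ) (c : F) (hc : c ∈ V) (x : Matrix (Fin m) (Fin m) F)
    (hx : x ∈ spw A V N) : c • x ∈ spw A V N :=
  Submodule.smul_mem (spw A V N) (⟨c, hc⟩ : V) hx

include hV ht in
theorem mc_CC (Z : Matrix (Fin m) (Fin m) F[X]) (hZ : Z ∈ CC A) (b : ℕ) :
    mc b Z ∈ spw A V (b + 1) := by
  have h1 : Z ∈ Submodule.span (RR A) (Submonoid.closure (Set.range (tA A)) :
      Set (Matrix (Fin m) (Fin m) F[X])) := by
    rw [← Algebra.adjoin_eq_span]
    exact hZ
  clear hZ
  induction h1 using Submodule.span_induction generalizing b with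
  | mem x hx =>
    have h2 : ∃ w : List (Fin n), x = (w.map (tA A)).prod := by
      induction hx using Submonoid.closure_induction with
      | mem x hx =>
        obtain ⟨i, rfl⟩ := hx
        exact ⟨[i], by simp⟩
      | one => exact ⟨[], by simp⟩
      | mul x y _ _ hx hy =>
        obtain ⟨u, rfl⟩ := hx
        obtain ⟨w, rfl⟩ := hy
        exact ⟨u ++ w, by simp⟩
    obtain ⟨w, rfl⟩ := h2
    rw [mc_word]
    split_ifs with h
    · exact word_mem_spw A V w (by omega)
    · exact Submodule.zero_mem _
  | zero => rw [mc_zero]; exact Submodule.zero_mem _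
  | add x y _ _ hx hy => rw [mc_add]; exact Submodule.add_mem _ (hx b) (hy b)
  | smul c x _ hx =>
    rw [smul_RR, mc_smul]
    refine Submodule.sum_mem _ fun a ha => ?_
    rw [Finset.HasAntidiagonal.mem_antidiagonal] at ha
    exact smul_mem_spw A V _ _ (coeff_RR A V hV ht _ c.2 _) _
      (spw_mono A V (by omega) (hx a.2))

include hV ht in
theorem mc_JJ (x : CC A) (hx : x ∈ JJ A) (N : ℕ) :
    mc N (x : Matrix (Fin m) (Fin m) F[X]) ∈ spw A V N := by
  refine Submodule.smul_induction_on hx ?_ ?_
  · intro p hp c _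
    have h1 : ((p • c : CC A) : Matrix (Fin m) (Fin m) F[X]) =
        (p : F[X]) • (c : Matrix (Fin m) (Fin m) F[X]) := rfl
    rw [h1, mc_smul]
    refine Submodule.sum_mem _ fun a ha => ?_
    rw [Finset.HasAntidiagonal.mem_antidiagonal] at ha
    rcases Nat.eq_zero_or_pos a.1 with h0 | h0
    · rw [h0, (mem_II A p).1 hp, zero_smul]
      exact Submodule.zero_mem _
    · exact smul_mem_spw A V _ _ (coeff_RR A V hV ht _ p.2 _) _
        (spw_mono A V (by omega) (mc_CC A V hV ht _ c.2 a.2))
  · intro x y hx hy
    rw [Subalgebra.coe_add, mc_add]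
    exact Submodule.add_mem _ hx hy

include hV ht in
theorem long_spw (w : List (Fin n)) (hw : w.length = 2 ^ m - 1) :
    (w.map A).prod ∈ spw A V (2 ^ m - 1) := by
  have h1 := mc_JJ A V hV ht _ (long_word_mem A w hw) (2 ^ m - 1)
  have h2 : mc (2 ^ m - 1) (((⟨(w.map (tA A)).prod, word_mem A w⟩ : CC A) :
      Matrix (Fin m) (Fin m) F[X])) = (w.map A).prod := by
    show mc (2 ^ m - 1) ((w.map (tA A)).prod) = _
    rw [mc_word, if_pos hw.symm]
  rw [h2] at h1
  exact h1

include hV ht in
theorem all_spw (w : List (Fin n)) : (w.map A).prod ∈ spw A V (2 ^ m - 1) := by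
  have hshort : ∀ u : List (Fin n), u.length ≤ 2 ^ m - 1 →
      (u.map A).prod ∈ spw A V (2 ^ m - 1) := by
    intro u hu
    rcases Nat.lt_or_ge u.length (2 ^ m - 1) with h | h
    · exact word_mem_spw A V u h
    · exact long_spw A V hV ht u (by omega)
  induction w with
  | nil => exact hshort [] (by simp)
  | cons i w ih =>
    rw [List.map_cons, List.prod_cons]
    have hle : spw A V (2 ^ m - 1) ≤
        (spw A V (2 ^ m - 1)).comap (LinearMap.mulLeft V (A i)) := by
      rw [spw, Submodule.span_le]
      rintro _ ⟨u, hu, rfl⟩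
      simp only [SetLike.mem_coe, Submodule.mem_comap, LinearMap.mulLeft_apply]
      have h1 : A i * (u.map A).prod = (((i :: u)).map A).prod := by
        rw [List.map_cons, List.prod_cons]
      rw [h1]
      exact hshort (i :: u) (by rw [List.length_cons]; omega)
    exact hle ih

include hV ht in
/-- **The lattice.** -/
theorem exists_conj : ∃ (g g' : Matrix (Fin m) (Fin m) F) (a : Fin n → Matrix (Fin m) (Fin m) F),
    g * g' = 1 ∧ (∀ i, g' * A i * g = a i) ∧ ∀ i p q, a i p q ∈ V := by
  classical
  -- the lattice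
  let S0 : Set (Fin m → F) := {x | ∃ (u : List (Fin n)) (j : Fin m), u.length < 2 ^ m - 1 ∧
    x = ((u.map A).prod).mulVec (Pi.single j 1)}
  have hS0 : S0.Finite := by
    have h1 : ({u : List (Fin n) | u.length < 2 ^ m - 1} ×ˢ (Set.univ : Set (Fin m))).Finite :=
      (List.finite_length_lt (Fin n) _).prod Set.finite_univ
    refine (h1.image fun q => ((q.1.map A).prod).mulVec (Pi.single q.2 1)).subset ?_
    rintro x ⟨u, j, hu, rfl⟩
    exact ⟨(u, j), ⟨hu, Set.mem_univ _⟩, rfl⟩
  let L : Submodule V (Fin m → F) := Submodule.span V S0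
  have hev : ∀ (j : Fin m) (Z : Matrix (Fin m) (Fin m) F), Z ∈ spw A V (2 ^ m - 1) →
      Z.mulVec (Pi.single j 1) ∈ L := by
    intro j Z hZ
    induction hZ using Submodule.span_induction with
    | mem x hx =>
      obtain ⟨u, hu, rfl⟩ := hx
      exact Submodule.subset_span ⟨u, j, hu, rfl⟩
    | zero => rw [Matrix.zero_mulVec]; exact Submodule.zero_mem _
    | add x y _ _ hx hy => rw [Matrix.add_mulVec]; exact Submodule.add_mem _ hx hy
    | smul c x _ hx =>
      have h1 : (c • x).mulVec (Pi.single j 1) = c • (x.mulVec (Pi.single j 1)) := by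
        have h2 : c • x = (c : F) • x := rfl
        have h3 : c • (x.mulVec (Pi.single j 1)) = (c : F) • (x.mulVec (Pi.single j 1)) := rfl
        rw [h2, h3, Matrix.smul_mulVec]
      rw [h1]
      exact Submodule.smul_mem _ _ hx
  have he : ∀ j : Fin m, (Pi.single j 1 : Fin m → F) ∈ L := by
    intro j
    have h1 := hev j _ (all_spw A V hV ht [])
    rw [List.map_nil, List.prod_nil, Matrix.one_mulVec] at h1
    exact h1
  have hstab : ∀ (i : Fin n) (x : Fin m → F), x ∈ L → (A i).mulVec x ∈ L := by
    intro i x hx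
    induction hx using Submodule.span_induction with
    | mem x hx =>
      obtain ⟨u, j, hu, rfl⟩ := hx
      rw [Matrix.mulVec_mulVec]
      have h1 : A i * (u.map A).prod = (((i :: u)).map A).prod := by
        rw [List.map_cons, List.prod_cons]
      rw [h1]
      exact hev j _ (all_spw A V hV ht _)
    | zero => rw [Matrix.mulVec_zero]; exact Submodule.zero_mem _
    | add x y _ _ hx hy => rw [Matrix.mulVec_add]; exact Submodule.add_mem _ hx hy
    | smul c x _ hx =>
      have h1 : (A i).mulVec (c • x) = c • (A i).mulVec x := by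
        have h2 : c • x = (c : F) • x := rfl
        have h3 : c • (A i).mulVec x = (c : F) • (A i).mulVec x := rfl
        rw [h2, h3, Matrix.mulVec_smul]
      rw [h1]
      exact Submodule.smul_mem _ _ hx
  have hlat : Submodule.IsLattice F L := by
    refine ⟨Submodule.fg_span hS0, ?_⟩
    rw [eq_top_iff, ← (Pi.basisFun F (Fin m)).span_eq, Submodule.span_le]
    rintro _ ⟨j, rfl⟩
    rw [Pi.basisFun_apply]
    exact Submodule.subset_span (he j)
  have hfin : Module.Finite V L := Submodule.IsLattice.finite F L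
  have htf : Submodule.torsion V L = ⊥ := by
    rw [eq_bot_iff]
    rintro x ⟨c, hc⟩
    have hc0 : (((c : V) : F)) ≠ 0 := by
      intro h
      have h1 : (c : V) = 0 := Subtype.ext h
      exact nonZeroDivisors.ne_zero c.2 h1
    have h1 : ((c : V) : F) • (x : Fin m → F) = 0 := by
      have := congrArg (fun y : L => (y : Fin m → F)) hc
      exact this
    rw [smul_eq_zero] at h1
    rcases h1 with h1 | h1
    · exact absurd h1 hc0
    · exact (Submodule.mem_bot V).2 (Subtype.ext h1)
  have hflat : Module.Flat V L := Module.Flat.flat_iff_torsion_eq_bot_of_isBezout.2 htf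
  have hfree : Module.Free V L := Module.free_of_flat_of_isLocalRing
  let b0 := Module.Free.chooseBasis V L
  let B0 := b0.extendOfIsLattice F
  have hcard : Fintype.card (Module.Free.ChooseBasisIndex V L) = Fintype.card (Fin m) := by
    rw [← Module.finrank_eq_card_basis B0, Module.finrank_fin_fun, Fintype.card_fin]
  let e : Module.Free.ChooseBasisIndex V L ≃ Fin m := Fintype.equivOfCardEq hcard
  let b := b0.reindex e
  let B := B0.reindex e
  have hB : ∀ j, B j = ((b j : L) : Fin m → F) := by
    intro j
    simp only [B, b, Module.Basis.reindex_apply]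
    exact b0.extendOfIsLattice_apply F _
  -- the matrices
  let g : Matrix (Fin m) (Fin m) F := Matrix.of fun p q => B q p
  let a : Fin n → Matrix (Fin m) (Fin m) F := fun i => Matrix.of fun p q =>
    ((b.repr ⟨(A i).mulVec (b q : L), hstab i _ (b q).2⟩ p : V) : F)
  have hg : g = (Pi.basisFun F (Fin m)).toMatrix B := by
    ext p q
    rfl
  let g' : Matrix (Fin m) (Fin m) F := B.toMatrix (Pi.basisFun F (Fin m))
  have hgg : g * g' = 1 := by
    rw [hg]
    exact Module.Basis.toMatrix_mul_toMatrix_flip _ _
  have hgg' : g' * g = 1 := by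
    rw [hg]
    exact Module.Basis.toMatrix_mul_toMatrix_flip _ _
  have hAg : ∀ i, A i * g = g * a i := by
    intro i
    ext p q
    rw [Matrix.mul_apply, Matrix.mul_apply]
    have h1 := b.sum_repr ⟨(A i).mulVec (b q : L), hstab i _ (b q).2⟩
    have h2 := congrArg (fun y : L => (y : Fin m → F) p) h1
    simp only [AddSubmonoidClass.coe_finsetSum, Finset.sum_apply] at h2
    calc ∑ j, A i p j * g j q = (A i).mulVec (b q : L) p := by
          simp only [g, Matrix.of_apply, hB]
          rfl
      _ = ∑ j, g p j * a i j q := by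
          rw [← h2]
          refine Finset.sum_congr rfl fun j _ => ?_
          simp only [g, a, Matrix.of_apply, hB]
          rw [mul_comm]
          rfl
  refine ⟨g, g', a, hgg, fun i => ?_, fun i p q => ?_⟩
  · rw [mul_assoc, hAg, ← mul_assoc, hgg', one_mul]
  · exact (b.repr _ p : V).2

end

end Pool.Agent.NCP
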