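import Mathlib
import Pool.Agent.NCP.Sep
import Pool.Agent.NCP.GenB

/-!
NCP: the traces of all words are integral over the ring generated by the explicit invariants.
-/

namespace Pool.Agent.NCP

open Polynomial

/-- The set of the explicit invariants of a tuple of matrices. -/
def trset (K : Type*) [Field K] {R : Type*} [CommRing R] [Algebra K R] {n m : ℕ}
    (A : Fin n → Matrix (Fin m) (Fin m) R) : Set R :=
  {x | ∃ (l : ℕ) (p : Fin (n * (2 * m ^ 2) ^ 4 + 1)), 1 ≤ l ∧ l < 2 * m ^ 2 ∧
    x = trinv K A (n * (2 * m ^ 2) ^ 4) l p}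

theorem map_word_trace {R S : Type*} [CommRing R] [CommRing S] (φ : R →+* S) {n m : ℕ}
    (A : Fin n → Matrix (Fin m) (Fin m) R) (w : List (Fin n)) :
    φ ((w.map A).prod.trace) = ((w.map fun i => (A i).map φ).prod).trace := by
  have h2 := map_list_prod (φ.mapMatrix (m := Fin m)) (w.map A)
  rw [List.map_map] at h2
  have h3 : (w.map fun i => (A i).map φ).prod = ((w.map A).prod).map φ := h2.symm
  rw [h3, Matrix.trace, Matrix.trace, map_sum]
  rfl

theorem map_trinv {K : Type*} [Field K] {R S : Type*} [CommRing R] [Algebra K R] [CommRing S]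
    [Algebra K S] (φ : R →ₐ[K] S) {n m : ℕ} (A : Fin n → Matrix (Fin m) (Fin m) R) (M l : ℕ)
    (p : Fin (M + 1)) :
    φ (trinv K A M l p) = trinv K (fun i => (A i).map φ) M l p := by
  rw [trinv_eq, trinv_eq, map_sum]
  refine Finset.sum_congr rfl fun g _ => ?_
  rw [map_mul, AlgHom.commutes]
  congr 1
  exact map_word_trace (φ : R →+* S) A _

theorem smul_word {R : Type*} [CommRing R] {n m : ℕ} (c : R)
    (A : Fin n → Matrix (Fin m) (Fin m) R) (w : List (Fin n)) :
    ((w.map fun i => c • A i).prod) = c ^ w.length • ((w.map A).prod) := by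
  induction w with
  | nil => simp
  | cons i w ih =>
    rw [List.map_cons, List.prod_cons, ih, List.map_cons, List.prod_cons, List.length_cons,
      smul_mul_smul_comm, pow_succ']

theorem smul_trinv (K : Type*) [Field K] {R : Type*} [CommRing R] [Algebra K R] {n m : ℕ}
    (c : R) (A : Fin n → Matrix (Fin m) (Fin m) R) (M l : ℕ) (p : Fin (M + 1)) :
    ∑ g : Fin l → Fin n, ((List.ofFn g).map fun i => c • A i).prod.trace *
      algebraMap K R (Lc K (List.ofFn g) (p : ℕ)) = c ^ l * trinv K A M l p := by
  rw [trinv_eq, Finset.mul_sum]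
  refine Finset.sum_congr rfl fun g _ => ?_
  rw [smul_word, Matrix.trace_smul, smul_eq_mul, List.length_ofFn]
  ring

/-- The valuation argument. -/
theorem int_core {K F : Type*} [Field K] [CharZero K] [Field F] [Algebra K F] [IsAlgClosed F]
    {n m : ℕ} (B : Fin n → Matrix (Fin m) (Fin m) F) (V : ValuationSubring F)
    (hK : ∀ c : K, algebraMap K F c ∈ V) (hS : ∀ x ∈ trset K B, x ∈ V) (w : List (Fin n)) :
    ((w.map B).prod).trace ∈ V := by
  classical
  by_contra hx
  have hcz : CharZero F := charZero_of_injective_algebraMap (algebraMap K F).injective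
  have hQ : ∀ q : ℚ, algebraMap ℚ F q ∈ V.toSubring := by
    intro q
    have h1 : algebraMap ℚ F q = algebraMap K F (algebraMap ℚ K q) := by
      simp
    rw [h1]
    exact hK _
  have hm : 0 < m := by
    rcases Nat.eq_zero_or_pos m with h | h
    · exfalso
      subst h
      apply hx
      rw [Matrix.trace, Finset.univ_eq_empty, Finset.sum_empty]
      exact V.zero_mem
    · exact h
  set t : List (Fin n) → F := fun w => ((w.map B).prod).trace with ht
  obtain ⟨u0, hu0, hu1, hu2⟩ : ∃ u : List (Fin n), u ≠ [] ∧ u.length < 2 ^ m ∧ t u ∉ V := by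
    by_contra hcon
    push Not at hcon
    exact hx (gen B V.toSubring hQ (fun w h1 h2 => hcon w h1 h2) w)
  set Wd : Set (List (Fin n)) := {u | u ≠ [] ∧ u.length < 2 ^ m} with hWd
  have hfin : Wd.Finite := (List.finite_length_lt (Fin n) (2 ^ m)).subset fun u hu => hu.2
  set N := (2 ^ m).factorial with hN
  set v := V.valuation with hv
  have hdvd : ∀ u ∈ Wd, u.length * (N / u.length) = N := by
    intro u hu
    refine Nat.mul_div_cancel' (Nat.dvd_factorial (List.length_pos_iff.2 hu.1) hu.2.le)
  have hN0 : N ≠ 0 := Nat.factorial_ne_zero _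
  have hquot : ∀ u ∈ Wd, N / u.length ≠ 0 := by
    intro u hu h0
    have := hdvd u hu
    rw [h0, mul_zero] at this
    exact hN0 this.symm
  obtain ⟨w0, hw0, hmax⟩ := Set.exists_max_image Wd (fun u => v (t u) ^ (N / u.length)) hfin
    ⟨u0, hu0, hu1⟩
  have hbig : 1 < v (t w0) ^ (N / w0.length) := by
    refine lt_of_lt_of_le ?_ (hmax u0 ⟨hu0, hu1⟩)
    refine one_lt_pow₀ ?_ (hquot u0 ⟨hu0, hu1⟩)
    rw [← not_le]
    intro h
    exact hu2 ((V.valuation_le_one_iff _).1 h)
  have ht0 : t w0 ≠ 0 := by
    intro h
    rw [h, map_zero, zero_pow (hquot w0 hw0)] at hbig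
    exact absurd hbig (not_lt.2 zero_le_one)
  have hl0 : 0 < w0.length := List.length_pos_iff.2 hw0.1
  obtain ⟨c, hc⟩ := IsAlgClosed.exists_pow_nat_eq (t w0)⁻¹ hl0
  have hcN : v c ^ N = (v (t w0) ^ (N / w0.length))⁻¹ := by
    rw [← hdvd w0 hw0, pow_mul, ← map_pow, hc, map_inv₀, inv_pow, hdvd w0 hw0]
  have hc1 : v c < 1 := by
    by_contra hcon
    push Not at hcon
    have h1 : 1 ≤ v c ^ N := one_le_pow₀ hcon
    rw [hcN] at h1
    have h2 := inv_lt_one_of_one_lt₀ hbig
    exact absurd h1 (not_le.2 h2)
  -- the scaled tuple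
  set A : Fin n → Matrix (Fin m) (Fin m) F := fun i => c • B i with hA
  have hAt : ∀ w : List (Fin n), ((w.map A).prod).trace = c ^ w.length * t w := by
    intro w
    rw [hA, smul_word, Matrix.trace_smul, smul_eq_mul]
  have hall : ∀ w : List (Fin n), ((w.map A).prod).trace ∈ V := by
    intro w
    refine gen A V.toSubring hQ (fun u h1 h2 => ?_) w
    have hu : u ∈ Wd := ⟨h1, h2⟩
    rw [hAt]
    show _ ∈ V
    rw [← V.valuation_le_one_iff, ← hv, map_mul, map_pow]
    by_contra hcon
    push Not at hcon
    have h3 := one_lt_pow₀ hcon (hquot u hu)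
    rw [mul_pow, ← pow_mul, hdvd u hu, hcN] at h3
    have h4 : (v (t w0) ^ (N / w0.length))⁻¹ * v (t u) ^ (N / u.length) ≤ 1 := by
      have h5 : (0 : V.ValueGroup) < v (t w0) ^ (N / w0.length) := lt_trans zero_lt_one hbig
      calc (v (t w0) ^ (N / w0.length))⁻¹ * v (t u) ^ (N / u.length)
          ≤ (v (t w0) ^ (N / w0.length))⁻¹ * v (t w0) ^ (N / w0.length) :=
            mul_le_mul_right (hmax u hu) _
        _ = 1 := inv_mul_cancel₀ h5.ne'
    exact absurd h3 (not_lt.2 h4)
  -- the residue field
  let κ : K →+* V := (algebraMap K F).codRestrict V.toSubring hK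
  let res : V →+* IsLocalRing.ResidueField V := IsLocalRing.residue V
  have hck : CharZero (IsLocalRing.ResidueField V) :=
    charZero_of_injective_ringHom (f := res.comp κ) (res.comp κ).injective
  let ρ : List (Fin n) → V := fun w => if w = [] then 0 else ⟨((w.map A).prod).trace, hall w⟩
  have hρ : ∀ u w : List (Fin n), ((ρ (u ++ w) : V) : F) =
      ∑ e : Fin m × Fin m, ((u.map A).prod) e.1 e.2 * ((w.map A).prod) e.2 e.1 +
        (if u = [] then -(m : F) else 0) * (if w = [] then 1 else 0) := by
    intro u w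
    rw [← trace_append]
    by_cases hu : u = []
    · by_cases hw : w = []
      · subst hu hw
        simp [ρ]
      · subst hu
        simp [ρ, hw]
    · simp [ρ, hu]
  have hzero := noe_main (k := IsLocalRing.ResidueField V) (fun w => res (ρ w)) (2 * m ^ 2) (by
      intro U W
      have h1 : (Matrix.of fun a b => res (ρ (U a ++ W b))).det =
          res ((Matrix.of fun a b => ρ (U a ++ W b)).det) := by
        rw [RingHom.map_det]
        rfl
      have h2 : (Matrix.of fun a b => ρ (U a ++ W b)).det = 0 := by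
        apply V.subtype_injective
        rw [map_zero, RingHom.map_det]
        let P : Matrix (Fin (2 * m ^ 2 + 1)) (Fin m × Fin m ⊕ Unit) F := fun a e =>
          Sum.elim (fun e => (((U a).map A).prod) e.1 e.2)
            (fun _ => if U a = [] then -(m : F) else 0) e
        let Q : Matrix (Fin m × Fin m ⊕ Unit) (Fin (2 * m ^ 2 + 1)) F := fun e b =>
          Sum.elim (fun e => (((W b).map A).prod) e.2 e.1) (fun _ => if W b = [] then 1 else 0) e
        rw [← det_factor (2 * m ^ 2) (by
          simp only [Fintype.card_sum, Fintype.card_prod, Fintype.card_fin, Fintype.card_unit]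
          nlinarith) P Q]
        congr 1
        ext a b
        rw [Matrix.mul_apply, Fintype.sum_sum_type]
        simp only [P, Q, Sum.elim_inl, Sum.elim_inr, Finset.univ_unique, Finset.sum_const,
          Finset.card_singleton, one_smul]
        exact hρ (U a) (W b)
      rw [h1, h2, map_zero]) (n * (2 * m ^ 2) ^ 4) le_rfl (by
      intro l hl p
      rcases Nat.eq_zero_or_pos l with h0 | h0
      · subst h0
        rw [Fintype.sum_unique]
        simp [ρ]
      · have h1 : ∀ g : Fin l → Fin n, Lc (IsLocalRing.ResidueField V) (List.ofFn g) (p : ℕ) =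
            res (κ (Lc K (List.ofFn g) (p : ℕ))) := by
          intro g
          exact (Lc_map (res.comp κ) _ _).symm
        simp only [h1, ← map_mul, ← map_sum]
        have h2 : ((∑ g : Fin l → Fin n, ρ (List.ofFn g) * κ (Lc K (List.ofFn g) (p : ℕ)) : V) :
            F) = c ^ l * trinv K B (n * (2 * m ^ 2) ^ 4) l p := by
          rw [← smul_trinv]
          have h3 : ∀ s : V, (s : F) = V.subtype s := fun _ => rfl
          rw [h3, map_sum]
          refine Finset.sum_congr rfl fun g _ => ?_
          rw [map_mul]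
          congr 1
          have h4 : List.ofFn g ≠ [] := by
            intro h5
            have := congrArg List.length h5
            rw [List.length_ofFn, List.length_nil] at this
            omega
          simp only [ρ, if_neg h4]
          rfl
        rw [IsLocalRing.residue_eq_zero_iff, V.valuation_lt_one_iff, h2, ← hv, map_mul, map_pow]
        have h5 : v (trinv K B (n * (2 * m ^ 2) ^ 4) l p) ≤ 1 :=
          (V.valuation_le_one_iff _).2 (hS _ ⟨l, p, h0, hl, rfl⟩)
        have h6 : v c ^ l < 1 := pow_lt_one₀ zero_le hc1 (by omega)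
        calc v c ^ l * v (trinv K B (n * (2 * m ^ 2) ^ 4) l p) ≤ v c ^ l * 1 :=
              mul_le_mul_right h5 _
          _ = v c ^ l := mul_one _
          _ < 1 := h6) w0
  have hone : ρ w0 = 1 := by
    apply Subtype.ext
    simp only [ρ, if_neg hw0.1]
    rw [hAt, hc, inv_mul_cancel₀ ht0]
    rfl
  simp only [hone, map_one] at hzero
  exact one_ne_zero hzero

end Pool.Agent.NCP
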