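import Mathlib
import Pool.Agent.NCP.Itg

/-!
NCP: explicit Noether normalization for simultaneous conjugation.
-/

namespace Pool.Agent.NCP

open Polynomial

/-- The generic matrices. -/
noncomputable def gm (K : Type*) [Field K] (n m : ℕ) (i : Fin n) :
    Matrix (Fin m) (Fin m) (MvPolynomial (Fin n × Fin m × Fin m) K) :=
  Matrix.of fun a b => MvPolynomial.X (i, a, b)

theorem map_trset {K : Type*} [Field K] {R S : Type*} [CommRing R] [Algebra K R] [CommRing S]
    [Algebra K S] (φ : R →ₐ[K] S) {n m : ℕ} (A : Fin n → Matrix (Fin m) (Fin m) R) :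
    trset K (fun i => (A i).map φ) = φ '' trset K A := by
  ext x
  constructor
  · rintro ⟨l, p, h1, h2, rfl⟩
    exact ⟨_, ⟨l, p, h1, h2, rfl⟩, map_trinv φ A _ l p⟩
  · rintro ⟨_, ⟨l, p, h1, h2, rfl⟩, rfl⟩
    exact ⟨l, p, h1, h2, map_trinv φ A _ l p⟩

theorem int_gm (K : Type*) [Field K] [CharZero K] (n m : ℕ) (w : List (Fin n)) :
    IsIntegral (Algebra.adjoin K (trset K (gm K n m))) (((w.map (gm K n m)).prod).trace) := by
  set P := MvPolynomial (Fin n × Fin m × Fin m) K with hP
  set S := Algebra.adjoin K (trset K (gm K n m)) with hS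
  let F := AlgebraicClosure (FractionRing P)
  let ι : P →ₐ[K] F := Algebra.algHom K P F
  have hι : Function.Injective ι := by
    intro x y h
    have h1 : algebraMap (FractionRing P) F (algebraMap P (FractionRing P) x) =
        algebraMap (FractionRing P) F (algebraMap P (FractionRing P) y) := by
      rw [← IsScalarTower.algebraMap_apply P (FractionRing P) F,
        ← IsScalarTower.algebraMap_apply P (FractionRing P) F]
      exact h
    exact IsFractionRing.injective P (FractionRing P) ((algebraMap (FractionRing P) F).injective h1)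
  -- the integral closure of `S` in `F`
  have hmem : algebraMap P F (((w.map (gm K n m)).prod).trace) ∈
      (integralClosure S F).toSubring := by
    by_contra hcon
    obtain ⟨V, hV, hxV⟩ := Subring.exists_le_valuationSubring_of_isIntegrallyClosedIn hcon
    apply hxV
    have hin : ∀ s : S, algebraMap P F (s : P) ∈ V := by
      intro s
      refine hV ?_
      exact (integralClosure S F).algebraMap_mem s
    have h1 := int_core (K := K) (fun i => (gm K n m i).map ι) V (by
      intro c
      have h2 : algebraMap K F c = algebraMap P F ((algebraMap K S c : S) : P) := by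
        rw [Subalgebra.coe_algebraMap]
        exact IsScalarTower.algebraMap_apply K P F c
      rw [h2]
      exact hin _) (by
      intro x hx
      rw [map_trset] at hx
      obtain ⟨y, hy, rfl⟩ := hx
      exact hin ⟨y, Algebra.subset_adjoin hy⟩) w
    have h2 := map_word_trace (ι : P →+* F) (gm K n m) w
    have h3 : (ι : P →+* F) (((w.map (gm K n m)).prod).trace) ∈ V := by
      rw [h2]
      exact h1
    exact h3
  have h2 : IsIntegral S (algebraMap P F (((w.map (gm K n m)).prod).trace)) := hmem
  exact (isIntegral_algebraMap_iff hι).1 h2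

/-- **Explicit Noether normalization.** -/
theorem int_main (K : Type*) [Field K] [CharZero K] {R : Type*} [CommRing R] [Algebra K R]
    {n m : ℕ} (A : Fin n → Matrix (Fin m) (Fin m) R) (w : List (Fin n)) :
    IsIntegral (Algebra.adjoin K (trset K A)) (((w.map A).prod).trace) := by
  let φ : MvPolynomial (Fin n × Fin m × Fin m) K →ₐ[K] R :=
    MvPolynomial.aeval fun v => A v.1 v.2.1 v.2.2
  have hA : (fun i => (gm K n m i).map φ) = A := by
    funext i
    ext a b
    simp [gm, φ]
  have h1 : trset K A = φ '' trset K (gm K n m) := by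
    rw [← map_trset, hA]
  have h2 : ((w.map A).prod).trace = φ (((w.map (gm K n m)).prod).trace) := by
    have h3 := map_word_trace (φ : MvPolynomial (Fin n × Fin m × Fin m) K →+* R) (gm K n m) w
    have h4 : (w.map fun i => (gm K n m i).map φ) = w.map A := by rw [hA]
    exact (h3.trans (congrArg (fun L : List _ => L.prod.trace) h4)).symm
  rw [h2, h1]
  let ψ : Algebra.adjoin K (trset K (gm K n m)) →ₐ[K]
      Algebra.adjoin K (φ '' trset K (gm K n m)) :=
    (φ.comp (Algebra.adjoin K (trset K (gm K n m))).val).codRestrict _ (by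
      intro x
      rw [← AlgHom.map_adjoin]
      exact ⟨x, x.2, rfl⟩)
  refine IsIntegral.map_of_comp_eq (ψ : Algebra.adjoin K (trset K (gm K n m)) →+*
    Algebra.adjoin K (φ '' trset K (gm K n m))) (φ : _ →+* R) ?_ (int_gm K n m w)
  apply RingHom.ext
  intro x
  rfl

end Pool.Agent.NCP
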