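import Mathlib
import Pool.Agent.NCP.Norm
import Pool.Agent.NCP.Lat

/-!
NCP: all polynomial invariants of simultaneous conjugation are integral over the explicit ones.
-/

namespace Pool.Agent.NCP

open MvPolynomial

/-- Invariance of a polynomial in the entries of `n` matrices of size `m` under simultaneous
conjugation. -/
def IsInv {K : Type*} [Field K] {n m : ℕ} (f : MvPolynomial (Fin n × Fin m × Fin m) K) : Prop :=
  ∀ (g : (Matrix (Fin m) (Fin m) K)ˣ) (A : Fin n → Matrix (Fin m) (Fin m) K),
    eval (fun v => ((g : Matrix (Fin m) (Fin m) K) * A v.1 *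
      ((g⁻¹ : (Matrix (Fin m) (Fin m) K)ˣ) : Matrix (Fin m) (Fin m) K)) v.2.1 v.2.2) f =
      eval (fun v => A v.1 v.2.1 v.2.2) f

section ext

variable {K : Type*} [Field K] {σ : Type*}

/-- The homogenized value. -/
noncomputable def qq (f : MvPolynomial σ K) {E : Type*} [CommRing E] [Algebra K E] (d : E)
    (Y : σ → E) : E :=
  ∑ s ∈ f.support, algebraMap K E (f.coeff s) * (∏ i ∈ s.support, Y i ^ s i) *
    d ^ (f.totalDegree - ∑ i ∈ s.support, s i)

theorem qq_eq (f : MvPolynomial σ K) {E : Type*} [CommRing E] [Algebra K E] (d : E)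
    (y : σ → E) : qq f d (fun i => d * y i) = d ^ f.totalDegree * aeval y f := by
  rw [qq, aeval_def, eval₂_eq, Finset.mul_sum]
  refine Finset.sum_congr rfl fun s hs => ?_
  have h1 : ∑ i ∈ s.support, s i ≤ f.totalDegree := le_totalDegree hs
  have h2 : ∏ i ∈ s.support, (d * y i) ^ s i =
      d ^ (∑ i ∈ s.support, s i) * ∏ i ∈ s.support, y i ^ s i := by
    rw [← Finset.prod_pow_eq_pow_sum, ← Finset.prod_mul_distrib]
    exact Finset.prod_congr rfl fun i _ => mul_pow _ _ _
  have h3 : d ^ f.totalDegree = d ^ (∑ i ∈ s.support, s i) *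
      d ^ (f.totalDegree - ∑ i ∈ s.support, s i) := by
    rw [← pow_add, Nat.add_sub_cancel' h1]
  rw [h2, h3]
  ring

theorem map_qq (f : MvPolynomial σ K) {E E' : Type*} [CommRing E] [Algebra K E] [CommRing E']
    [Algebra K E'] (ψ : E →ₐ[K] E') (d : E) (Y : σ → E) :
    ψ (qq f d Y) = qq f (ψ d) (fun i => ψ (Y i)) := by
  rw [qq, qq, map_sum]
  refine Finset.sum_congr rfl fun s _ => ?_
  rw [map_mul, map_mul, map_pow, map_prod, AlgHom.commutes]
  simp only [map_pow]

end ext

section

variable {K : Type*} [Field K] {n m : ℕ}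

/-- The indices of the variables: a matrix for the group element, and `n` matrices. -/
abbrev Sg (n m : ℕ) : Type := (Fin m × Fin m) ⊕ (Fin n × Fin m × Fin m)

/-- The generic group element. -/
noncomputable def gG (K : Type*) [Field K] (n m : ℕ) :
    Matrix (Fin m) (Fin m) (MvPolynomial (Sg n m) K) :=
  Matrix.of fun a b => X (Sum.inl (a, b))

/-- The generic matrices. -/
noncomputable def gX (K : Type*) [Field K] (n m : ℕ) (i : Fin n) :
    Matrix (Fin m) (Fin m) (MvPolynomial (Sg n m) K) :=
  Matrix.of fun a b => X (Sum.inr (i, a, b))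

/-- The two sides of the polynomial identity. -/
noncomputable def qL (f : MvPolynomial (Fin n × Fin m × Fin m) K) : MvPolynomial (Sg n m) K :=
  qq f (gG K n m).det (fun v => ((gG K n m).adjugate * gX K n m v.1 * gG K n m) v.2.1 v.2.2)

/-- The two sides of the polynomial identity. -/
noncomputable def qR (f : MvPolynomial (Fin n × Fin m × Fin m) K) : MvPolynomial (Sg n m) K :=
  (gG K n m).det ^ f.totalDegree * aeval (fun v => gX K n m v.1 v.2.1 v.2.2) f

theorem hval (f : MvPolynomial (Fin n × Fin m × Fin m) K) {E : Type*} [Field E] [Algebra K E]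
    (x : Sg n m → E) (g g' : Matrix (Fin m) (Fin m) E) (A : Fin n → Matrix (Fin m) (Fin m) E)
    (hx1 : ∀ a b, x (Sum.inl (a, b)) = g a b) (hx2 : ∀ i a b, x (Sum.inr (i, a, b)) = A i a b)
    (hg : g * g' = 1) :
    aeval x (qL f) = g.det ^ f.totalDegree * aeval
        (fun v : Fin n × Fin m × Fin m => (g' * A v.1 * g) v.2.1 v.2.2) f ∧
      aeval x (qR f) = g.det ^ f.totalDegree * aeval
        (fun v : Fin n × Fin m × Fin m => A v.1 v.2.1 v.2.2) f ∧
      aeval x (gG K n m).det = g.det := by
  classical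
  let ψ : MvPolynomial (Sg n m) K →ₐ[K] E := aeval x
  have hmG : (ψ : MvPolynomial (Sg n m) K →+* E).mapMatrix (gG K n m) = g := by
    ext a b
    simp [gG, ψ, hx1]
  have hmX : ∀ i, (ψ : MvPolynomial (Sg n m) K →+* E).mapMatrix (gX K n m i) = A i := by
    intro i
    ext a b
    simp [gX, ψ, hx2]
  have hdet : ψ (gG K n m).det = g.det := by
    have h := RingHom.map_det (ψ : MvPolynomial (Sg n m) K →+* E) (gG K n m)
    rw [hmG] at h
    exact h
  have hadj : g.adjugate = g.det • g' := by
    calc g.adjugate = g.adjugate * (g * g') := by rw [hg, mul_one]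
      _ = (g.adjugate * g) * g' := by rw [mul_assoc]
      _ = g.det • g' := by rw [Matrix.adjugate_mul, smul_mul_assoc, one_mul]
  refine ⟨?_, ?_, hdet⟩
  · have h1 : ∀ v : Fin n × Fin m × Fin m,
        ψ (((gG K n m).adjugate * gX K n m v.1 * gG K n m) v.2.1 v.2.2) =
          g.det * (g' * A v.1 * g) v.2.1 v.2.2 := by
      intro v
      have h2 : (ψ : MvPolynomial (Sg n m) K →+* E).mapMatrix
          ((gG K n m).adjugate * gX K n m v.1 * gG K n m) = g.adjugate * A v.1 * g := by
        rw [map_mul, map_mul, RingHom.map_adjugate, hmG, hmX]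
      have h7 := congrFun (congrFun h2 v.2.1) v.2.2
      rw [hadj, smul_mul_assoc, smul_mul_assoc, Matrix.smul_apply, smul_eq_mul] at h7
      exact h7
    show ψ (qL f) = _
    rw [qL, map_qq, hdet]
    simp only [h1]
    exact qq_eq f g.det _
  · show ψ (qR f) = _
    rw [qR, map_mul, map_pow, hdet]
    congr 1
    have h1 := MvPolynomial.comp_aeval_apply
      (fun v : Fin n × Fin m × Fin m => gX K n m v.1 v.2.1 v.2.2) ψ f
    rw [h1]
    congr 2
    funext v
    exact congrFun (congrFun (hmX v.1) v.2.1) v.2.2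

/-- Invariance over a field implies invariance over every larger field. -/
theorem inv_ext [CharZero K] (f : MvPolynomial (Fin n × Fin m × Fin m) K) (hf : IsInv f)
    {F : Type*} [Field F] [Algebra K F] (g g' : Matrix (Fin m) (Fin m) F) (hg : g * g' = 1)
    (A : Fin n → Matrix (Fin m) (Fin m) F) :
    aeval (fun v : Fin n × Fin m × Fin m => (g' * A v.1 * g) v.2.1 v.2.2) f =
      aeval (fun v : Fin n × Fin m × Fin m => A v.1 v.2.1 v.2.2) f := by
  classical
  -- the polynomial identity
  have hzero : (gG K n m).det * (qL f - qR f) = 0 := by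
    apply MvPolynomial.funext
    intro x
    rw [map_zero, map_mul]
    set g0 : Matrix (Fin m) (Fin m) K := Matrix.of fun a b => x (Sum.inl (a, b)) with hg0
    set A0 : Fin n → Matrix (Fin m) (Fin m) K := fun i =>
      Matrix.of fun a b => x (Sum.inr (i, a, b)) with hA0
    by_cases hd : g0.det = 0
    · have h1 : eval x (gG K n m).det = g0.det := by
        rw [RingHom.map_det]
        congr 1
        ext a b
        simp [gG, hg0]
      rw [h1, hd, zero_mul]
    · have hu : IsUnit g0 := (Matrix.isUnit_iff_isUnit_det _).2 (isUnit_iff_ne_zero.2 hd)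
      obtain ⟨gu, hgu⟩ := hu
      have hgg : g0 * ((gu⁻¹ : (Matrix (Fin m) (Fin m) K)ˣ) : Matrix (Fin m) (Fin m) K) = 1 := by
        rw [← hgu, Units.mul_inv]
      obtain ⟨h1, h2, h3⟩ := hval f x g0 _ A0 (fun a b => rfl) (fun i a b => rfl) hgg
      have h4 : ∀ p : MvPolynomial (Sg n m) K, eval x p = aeval x p := fun p =>
        (RingHom.congr_fun (MvPolynomial.coe_aeval_eq_eval x) p).symm
      rw [map_sub, h4 (qL f), h4 (qR f), h1, h2]
      have h5 := hf gu⁻¹ A0
      rw [inv_inv, hgu] at h5
      have h6 : ∀ y : Fin n × Fin m × Fin m → K, eval y f = aeval y f := fun y =>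
        (RingHom.congr_fun (MvPolynomial.coe_aeval_eq_eval y) f).symm
      rw [h6, h6] at h5
      rw [h5, sub_self, mul_zero]
  -- conclusion
  let x : Sg n m → F := Sum.elim (fun v => g v.1 v.2) (fun v => A v.1 v.2.1 v.2.2)
  obtain ⟨h1, h2, h3⟩ := hval f x g g' A (fun a b => rfl) (fun i a b => rfl) hg
  have h4 := congrArg (aeval x : MvPolynomial (Sg n m) K →ₐ[K] F) hzero
  rw [map_mul, map_sub, map_zero, h1, h2, h3] at h4
  have hd : g.det ≠ 0 := by
    intro h0
    have := congrArg Matrix.det hg
    rw [Matrix.det_mul, h0, zero_mul, Matrix.det_one] at this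
    exact zero_ne_one this
  rcases mul_eq_zero.1 h4 with h5 | h5
  · exact absurd h5 hd
  · exact mul_left_cancel₀ (pow_ne_zero _ hd) (sub_eq_zero.1 h5)

end

end Pool.Agent.NCP
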