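import Mathlib
import Pool.Agent.NCP.Invt

/-!
NCP: explicit Noether normalization for simultaneous conjugation, final form.
-/

namespace Pool.Agent.NCP

open MvPolynomial

variable {K : Type*} [Field K] {n m : ℕ}

/-- The value of an explicit invariant. -/
theorem eval_trinv (A : Fin n → Matrix (Fin m) (Fin m) K) (M l : ℕ) (p : Fin (M + 1)) :
    eval (fun v : Fin n × Fin m × Fin m => A v.1 v.2.1 v.2.2) (trinv K (gm K n m) M l p) =
      trinv K A M l p := by
  have h1 := map_trinv (aeval (fun v : Fin n × Fin m × Fin m => A v.1 v.2.1 v.2.2) :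
    MvPolynomial (Fin n × Fin m × Fin m) K →ₐ[K] K) (gm K n m) M l p
  have h2 : (fun i => (gm K n m i).map (aeval (fun v : Fin n × Fin m × Fin m =>
      A v.1 v.2.1 v.2.2) : MvPolynomial (Fin n × Fin m × Fin m) K →ₐ[K] K)) = A := by
    funext i
    ext a b
    simp [gm]
  rw [h2] at h1
  rw [← h1]
  exact (RingHom.congr_fun (MvPolynomial.coe_aeval_eq_eval
    (fun v : Fin n × Fin m × Fin m => A v.1 v.2.1 v.2.2)) _).symm

theorem conj_word {R : Type*} [CommRing R] (g g' : Matrix (Fin m) (Fin m) R) (hg : g' * g = 1)
    (hg' : g * g' = 1) (A : Fin n → Matrix (Fin m) (Fin m) R) (w : List (Fin n)) :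
    (w.map fun i => g * A i * g').prod = g * (w.map A).prod * g' := by
  induction w with
  | nil => simp [hg']
  | cons i w ih =>
    rw [List.map_cons, List.prod_cons, ih, List.map_cons, List.prod_cons]
    calc g * A i * g' * (g * (w.map A).prod * g') =
        g * A i * (g' * g) * (w.map A).prod * g' := by simp only [mul_assoc]
      _ = g * (A i * (w.map A).prod) * g' := by rw [hg, mul_one]; simp only [mul_assoc]

/-- The explicit invariants are invariant. -/
theorem trinv_inv (M l : ℕ) (p : Fin (M + 1)) : IsInv (trinv K (gm K n m) M l p) := by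
  intro g A
  have h1 := eval_trinv (fun i => (g : Matrix (Fin m) (Fin m) K) * A i *
      ((g⁻¹ : (Matrix (Fin m) (Fin m) K)ˣ) : Matrix (Fin m) (Fin m) K)) M l p
  rw [h1, eval_trinv, trinv_eq, trinv_eq]
  refine Finset.sum_congr rfl fun w _ => ?_
  congr 1
  rw [conj_word _ _ (Units.inv_mul g) (Units.mul_inv g), Matrix.trace_mul_comm, ← mul_assoc,
    Units.inv_mul, one_mul]

/-- The explicit invariants are homogeneous. -/
theorem trinv_hom (M l : ℕ) (p : Fin (M + 1)) : (trinv K (gm K n m) M l p).IsHomogeneous l := by
  rw [trinv_eq]
  refine MvPolynomial.IsHomogeneous.sum _ _ _ fun g _ => ?_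
  have h1 : ∀ (w : List (Fin n)) (a b : Fin m),
      (((w.map (gm K n m)).prod) a b).IsHomogeneous w.length := by
    intro w
    induction w with
    | nil =>
      intro a b
      rw [List.map_nil, List.prod_nil, Matrix.one_apply]
      split_ifs
      · exact isHomogeneous_one _ _
      · exact isHomogeneous_zero _ _ _
    | cons i w ih =>
      intro a b
      rw [List.map_cons, List.prod_cons, Matrix.mul_apply, List.length_cons, add_comm]
      refine MvPolynomial.IsHomogeneous.sum _ _ _ fun c _ => ?_
      exact (isHomogeneous_X K (i, a, c)).mul (ih c b)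
  have h2 : (((List.ofFn g).map (gm K n m)).prod.trace).IsHomogeneous l := by
    rw [Matrix.trace]
    refine MvPolynomial.IsHomogeneous.sum _ _ _ fun a _ => ?_
    have h3 := h1 (List.ofFn g) a a
    rw [List.length_ofFn] at h3
    exact h3
  have h4 := h2.mul (isHomogeneous_C (Fin n × Fin m × Fin m) (Lc K (List.ofFn g) (p : ℕ)))
  rw [add_zero] at h4
  exact h4

/-- **Explicit Noether normalization.** Every polynomial invariant is integral over the algebra
generated by the explicit invariants. -/
theorem inv_integral [CharZero K] (f : MvPolynomial (Fin n × Fin m × Fin m) K) (hf : IsInv f) :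
    IsIntegral (Algebra.adjoin K (trset K (gm K n m))) f := by
  let P := MvPolynomial (Fin n × Fin m × Fin m) K
  let S := Algebra.adjoin K (trset K (gm K n m))
  let F := AlgebraicClosure (FractionRing P)
  let ι : P →ₐ[K] F := Algebra.algHom K P F
  have hcF : CharZero F := charZero_of_injective_algebraMap (algebraMap K F).injective
  have hι : Function.Injective ι := by
    intro x y h
    have h1 : algebraMap (FractionRing P) F (algebraMap P (FractionRing P) x) =
        algebraMap (FractionRing P) F (algebraMap P (FractionRing P) y) := by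
      rw [← IsScalarTower.algebraMap_apply P (FractionRing P) F,
        ← IsScalarTower.algebraMap_apply P (FractionRing P) F]
      exact h
    exact IsFractionRing.injective P (FractionRing P) ((algebraMap (FractionRing P) F).injective h1)
  have hmem : algebraMap P F f ∈ (integralClosure S F).toSubring := by
    by_contra hcon
    obtain ⟨V, hV, hxV⟩ := Subring.exists_le_valuationSubring_of_isIntegrallyClosedIn hcon
    apply hxV
    have hin : ∀ s : S, algebraMap P F (s : P) ∈ V := by
      intro s
      refine hV ?_
      exact (integralClosure S F).algebraMap_mem s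
    have hK : ∀ c : K, algebraMap K F c ∈ V := by
      intro c
      have h2 : algebraMap K F c = algebraMap P F ((algebraMap K S c : S) : P) := by
        rw [Subalgebra.coe_algebraMap]
        exact IsScalarTower.algebraMap_apply K P F c
      rw [h2]
      exact hin _
    have htr := int_core (K := K) (fun i => (gm K n m i).map ι) V hK (by
      intro x hx
      rw [map_trset] at hx
      obtain ⟨y, hy, rfl⟩ := hx
      exact hin ⟨y, Algebra.subset_adjoin hy⟩)
    have hQ : ∀ q : ℚ, algebraMap ℚ F q ∈ V := by
      intro q
      have h1 : algebraMap ℚ F q = algebraMap K F (algebraMap ℚ K q) := by simp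
      rw [h1]
      exact hK _
    obtain ⟨g, g', a, hgg, hga, haV⟩ := exists_conj (fun i => (gm K n m i).map ι) V hQ htr
    have h1 := inv_ext f hf g g' hgg (fun i => (gm K n m i).map ι)
    have h2 : aeval (fun v : Fin n × Fin m × Fin m => ((gm K n m v.1).map ι) v.2.1 v.2.2) f =
        algebraMap P F f := by
      have h3 : (aeval (fun v : Fin n × Fin m × Fin m => ((gm K n m v.1).map ι) v.2.1 v.2.2) :
          MvPolynomial (Fin n × Fin m × Fin m) K →ₐ[K] F) = ι := by
        apply MvPolynomial.algHom_ext
        intro v
        rw [aeval_X]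
        rfl
      rw [h3]
      rfl
    rw [h2] at h1
    rw [← h1, aeval_def, eval₂_eq]
    refine V.toSubring.sum_mem fun s _ => V.mul_mem _ _ (hK _) ?_
    refine V.toSubring.prod_mem fun v _ => V.toSubring.pow_mem ?_ _
    simp only [hga]
    exact haV _ _ _
  have h2 : IsIntegral S (algebraMap P F f) := hmem
  exact (isIntegral_algebraMap_iff hι).1 h2

end Pool.Agent.NCP
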